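import Mathlib

/-!
# Pairs in residue classes
-/

set_option autoImplicit false

namespace Pool.Agent.X4.RST

open Finset

theorem ap_card (H m v : ℕ) (hm : 0 < m) :
    ((((Ioc H (2 * H)).filter fun x => x ≡ v [MOD m]).card : ℕ) : ℝ) ≤ (H : ℝ) / m + 1 ∧
    (H : ℝ) / m - 1 ≤ ((((Ioc H (2 * H)).filter fun x => x ≡ v [MOD m]).card : ℕ) : ℝ) := by
  have h := Nat.Ioc_filter_modEq_card H (2 * H) hm v
  set c : ℕ := ((Ioc H (2 * H)).filter fun x => x ≡ v [MOD m]).card with hc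
  have hm0 : (0 : ℚ) < m := by exact_mod_cast hm
  have e1 := Int.floor_le ((((2 * H : ℕ) : ℚ) - v) / (m : ℚ))
  have e2 := Int.lt_floor_add_one ((((2 * H : ℕ) : ℚ) - v) / (m : ℚ))
  have e3 := Int.floor_le (((H : ℚ) - v) / (m : ℚ))
  have e4 := Int.lt_floor_add_one (((H : ℚ) - v) / (m : ℚ))
  have e5 : (((2 * H : ℕ) : ℚ) - v) / (m : ℚ) - ((H : ℚ) - v) / (m : ℚ) = (H : ℚ) / m := by
    rw [← sub_div]
    congr 1
    push_cast
    ring
  set f1 := ⌊(((2 * H : ℕ) : ℚ) - v) / (m : ℚ)⌋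
  set f2 := ⌊((H : ℚ) - v) / (m : ℚ)⌋
  have h1 : ((f1 - f2 : ℤ) : ℚ) ≤ (H : ℚ) / m + 1 := by
    push_cast
    linarith
  have h2 : (H : ℚ) / m - 1 ≤ ((f1 - f2 : ℤ) : ℚ) := by
    push_cast
    linarith
  have hH : (0 : ℚ) ≤ (H : ℚ) / m := by positivity
  have h3 : (c : ℚ) ≤ (H : ℚ) / m + 1 := by
    have : ((c : ℤ) : ℚ) = ((max (f1 - f2) 0 : ℤ) : ℚ) := by rw [h]
    rw [Int.cast_natCast] at this
    rw [this]
    rcases le_total (f1 - f2) 0 with h0 | h0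
    · rw [max_eq_right h0]
      push_cast
      linarith
    · rw [max_eq_left h0]
      exact h1
  have h4 : (H : ℚ) / m - 1 ≤ (c : ℚ) := by
    have : ((c : ℤ) : ℚ) = ((max (f1 - f2) 0 : ℤ) : ℚ) := by rw [h]
    rw [Int.cast_natCast] at this
    rw [this]
    refine h2.trans ?_
    exact_mod_cast le_max_left _ _
  have h5 : (((c : ℚ)) : ℝ) ≤ (((H : ℚ) / m + 1 : ℚ) : ℝ) := Rat.cast_le.2 h3
  have h6 : (((H : ℚ) / m - 1 : ℚ) : ℝ) ≤ (((c : ℚ)) : ℝ) := Rat.cast_le.2 h4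
  push_cast at h5 h6
  exact ⟨h5, h6⟩

/-- pairwise congruent numbers -/
theorem ap_le {H m : ℕ} (hm : 0 < m) (S : Finset ℕ) (hS : ∀ x ∈ S, x ∈ Ioc H (2 * H))
    (h : ∀ x ∈ S, ∀ y ∈ S, x ≡ y [MOD m]) : (S.card : ℝ) ≤ (H : ℝ) / m + 1 := by
  rcases S.eq_empty_or_nonempty with rfl | ⟨v, hv⟩
  · simp only [card_empty, Nat.cast_zero]
    positivity
  refine le_trans ?_ (ap_card H m v hm).1
  have h1 : S ⊆ (Ioc H (2 * H)).filter (fun x => x ≡ v [MOD m]) := by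
    intro x hx
    rw [mem_filter]
    exact ⟨hS x hx, h x hx v hv⟩
  exact_mod_cast card_le_card h1

/-- pairs -/
theorem pair_le {H m1 m2 : ℕ} (h1 : 0 < m1) (h2 : 0 < m2) (B : Finset (ℕ × ℕ))
    (hB : ∀ t ∈ B, t.1 ∈ Ioc H (2 * H) ∧ t.2 ∈ Ioc H (2 * H))
    (ha : ∀ t ∈ B, ∀ u ∈ B, t.1 ≡ u.1 [MOD m1])
    (hb : ∀ t ∈ B, ∀ u ∈ B, t.1 = u.1 → t.2 ≡ u.2 [MOD m2]) :
    (B.card : ℝ) ≤ ((H : ℝ) / m1 + 1) * ((H : ℝ) / m2 + 1) := by
  classical
  have hA : ((B.image Prod.fst).card : ℝ) ≤ (H : ℝ) / m1 + 1 := by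
    apply ap_le h1
    · intro x hx
      rw [mem_image] at hx
      obtain ⟨t, ht, rfl⟩ := hx
      exact (hB t ht).1
    · intro x hx y hy
      rw [mem_image] at hx hy
      obtain ⟨t, ht, rfl⟩ := hx
      obtain ⟨u, hu, rfl⟩ := hy
      exact ha t ht u hu
  have hF : ∀ a ∈ B.image Prod.fst, (((B.filter fun t => t.1 = a).card : ℕ) : ℝ) ≤
      (H : ℝ) / m2 + 1 := by
    intro a _
    have hinj : Set.InjOn Prod.snd ((B.filter fun t => t.1 = a : Finset (ℕ × ℕ)) : Set (ℕ × ℕ)) := by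
      intro t ht u hu h
      rw [mem_coe, mem_filter] at ht hu
      exact Prod.ext (ht.2.trans hu.2.symm) h
    rw [← card_image_of_injOn hinj]
    apply ap_le h2
    · intro x hx
      rw [mem_image] at hx
      obtain ⟨t, ht, rfl⟩ := hx
      exact (hB t (mem_filter.1 ht).1).2
    · intro x hx y hy
      rw [mem_image] at hx hy
      obtain ⟨t, ht, rfl⟩ := hx
      obtain ⟨u, hu, rfl⟩ := hy
      rw [mem_filter] at ht hu
      exact hb t ht.1 u hu.1 (ht.2.trans hu.2.symm)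
  rw [Finset.card_eq_sum_card_image Prod.fst B]
  push_cast
  refine (Finset.sum_le_sum hF).trans ?_
  rw [Finset.sum_const, nsmul_eq_mul]
  exact mul_le_mul_of_nonneg_right hA (by positivity)

/-- the basic conditions -/
structure Bs (H Q D1 D2 D3 e : ℕ) (t : ℕ × ℕ) : Prop where
  a1 : t.1 ∈ Ioc H (2 * H)
  a2 : t.2 ∈ Ioc H (2 * H)
  d1 : D1 ∣ t.1
  d2 : D2 ∣ t.2
  d3 : D3 ∣ t.1 + t.2
  q1 : t.1 ≡ 1 [MOD 2 * Q]
  q2 : t.2 ≡ 1 [MOD Q]
  e3 : t.1 + t.2 ≡ 2 ^ e [MOD 2 ^ (e + 1)]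

/-- the coprimality conditions -/
structure Cp (Q D1 D2 D3 e : ℕ) : Prop where
  p1 : 0 < D1
  p2 : 0 < D2
  p3 : 0 < D3
  q : 0 < Q
  c1 : Nat.Coprime D1 (2 * Q)
  c23 : Nat.Coprime D2 D3
  c2q : Nat.Coprime D2 Q
  c3q : Nat.Coprime D3 Q
  c2e : Nat.Coprime D2 (2 ^ (e + 1))
  c3e : Nat.Coprime D3 (2 ^ (e + 1))
  cqe : Nat.Coprime Q (2 ^ (e + 1))

theorem modEq_mul {m n x y : ℕ} (h : Nat.Coprime m n) (h1 : x ≡ y [MOD m]) (h2 : x ≡ y [MOD n]) :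
    x ≡ y [MOD m * n] := (Nat.modEq_and_modEq_iff_modEq_mul h).1 ⟨h1, h2⟩

theorem Bs_le {H Q D1 D2 D3 e : ℕ} (hc : Cp Q D1 D2 D3 e) (B : Finset (ℕ × ℕ))
    (hB : ∀ t ∈ B, Bs H Q D1 D2 D3 e t) :
    (B.card : ℝ) ≤ ((H : ℝ) / ((D1 * (2 * Q) : ℕ) : ℝ) + 1) *
      ((H : ℝ) / (((D2 * Q) * (D3 * 2 ^ (e + 1)) : ℕ) : ℝ) + 1) := by
  have := hc.p1
  have := hc.p2
  have := hc.p3
  have := hc.q
  apply pair_le (by positivity) (by positivity) B (fun t ht => ⟨(hB t ht).a1, (hB t ht).a2⟩)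
  · intro t ht u hu
    apply modEq_mul hc.c1
    · exact ((Nat.modEq_zero_iff_dvd.2 (hB t ht).d1)).trans
        (Nat.modEq_zero_iff_dvd.2 (hB u hu).d1).symm
    · exact (hB t ht).q1.trans (hB u hu).q1.symm
  · intro t ht u hu htu
    have c4 : Nat.Coprime (D2 * Q) (D3 * 2 ^ (e + 1)) := by
      apply Nat.Coprime.mul_left
      · exact Nat.Coprime.mul_right hc.c23 hc.c2e
      · exact Nat.Coprime.mul_right hc.c3q.symm hc.cqe
    apply modEq_mul c4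
    · apply modEq_mul hc.c2q
      · exact ((Nat.modEq_zero_iff_dvd.2 (hB t ht).d2)).trans
          (Nat.modEq_zero_iff_dvd.2 (hB u hu).d2).symm
      · exact (hB t ht).q2.trans (hB u hu).q2.symm
    · apply modEq_mul hc.c3e
      · have h1 : t.1 + t.2 ≡ u.1 + u.2 [MOD D3] :=
          ((Nat.modEq_zero_iff_dvd.2 (hB t ht).d3)).trans
            (Nat.modEq_zero_iff_dvd.2 (hB u hu).d3).symm
        rw [htu] at h1
        exact Nat.ModEq.add_left_cancel' _ h1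
      · have h1 : t.1 + t.2 ≡ u.1 + u.2 [MOD 2 ^ (e + 1)] := (hB t ht).e3.trans (hB u hu).e3.symm
        rw [htu] at h1
        exact Nat.ModEq.add_left_cancel' _ h1

/-- the bound for large `H` -/
theorem Bs_le' {H Q D1 D2 D3 e : ℕ} (hc : Cp Q D1 D2 D3 e) (B : Finset (ℕ × ℕ))
    (hB : ∀ t ∈ B, Bs H Q D1 D2 D3 e t) (h1 : D1 * (2 * Q) ≤ H)
    (h2 : (D2 * Q) * (D3 * 2 ^ (e + 1)) ≤ H) :
    (B.card : ℝ) ≤ 4 * (H : ℝ) ^ 2 /
      ((D1 * (2 * Q) : ℕ) * ((D2 * Q) * (D3 * 2 ^ (e + 1)) : ℕ)) := by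
  refine (Bs_le hc B hB).trans ?_
  have := hc.p1
  have := hc.p2
  have := hc.p3
  have := hc.q
  have e1 : (0 : ℝ) < ((D1 * (2 * Q) : ℕ) : ℝ) := by exact_mod_cast (by positivity)
  have e2 : (0 : ℝ) < (((D2 * Q) * (D3 * 2 ^ (e + 1)) : ℕ) : ℝ) := by exact_mod_cast (by positivity)
  have e3 : (1 : ℝ) ≤ (H : ℝ) / ((D1 * (2 * Q) : ℕ) : ℝ) := by
    rw [le_div_iff₀ e1, one_mul]; exact_mod_cast h1
  have e4 : (1 : ℝ) ≤ (H : ℝ) / (((D2 * Q) * (D3 * 2 ^ (e + 1)) : ℕ) : ℝ) := by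
    rw [le_div_iff₀ e2, one_mul]; exact_mod_cast h2
  calc _ ≤ (2 * ((H : ℝ) / ((D1 * (2 * Q) : ℕ) : ℝ))) *
      (2 * ((H : ℝ) / (((D2 * Q) * (D3 * 2 ^ (e + 1)) : ℕ) : ℝ))) := by
        apply mul_le_mul <;> linarith
    _ = _ := by
        field_simp
        ring

theorem crt2 {m n : ℕ} (h : Nat.Coprime m n) (x y : ℕ) : ∃ z, z ≡ x [MOD m] ∧ z ≡ y [MOD n] :=
  ⟨Nat.chineseRemainder h x y, (Nat.chineseRemainder h x y).2⟩

/-- the lower bound for the basic set -/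
theorem Bs_ge {H Q D1 D2 D3 e : ℕ} (hc : Cp Q D1 D2 D3 e) (M : Finset (ℕ × ℕ))
    (hM : ∀ t, Bs H Q D1 D2 D3 e t → t ∈ M) (h1 : 2 * (D1 * (2 * Q)) ≤ H)
    (h2 : 2 * ((D2 * Q) * (D3 * 2 ^ (e + 1))) ≤ H) :
    (H : ℝ) ^ 2 / (4 * ((D1 * (2 * Q) : ℕ) * ((D2 * Q) * (D3 * 2 ^ (e + 1)) : ℕ))) ≤
      (M.card : ℝ) := by
  classical
  have := hc.p1
  have := hc.p2
  have := hc.p3
  have := hc.q
  set m1 : ℕ := D1 * (2 * Q) with hm1
  set m2 : ℕ := (D2 * Q) * (D3 * 2 ^ (e + 1)) with hm2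
  have hm1p : 0 < m1 := by positivity
  have hm2p : 0 < m2 := by positivity
  obtain ⟨r1, hr1, hr2⟩ := crt2 hc.c1 0 1
  have c4 : Nat.Coprime (D2 * Q) (D3 * 2 ^ (e + 1)) := by
    apply Nat.Coprime.mul_left
    · exact Nat.Coprime.mul_right hc.c23 hc.c2e
    · exact Nat.Coprime.mul_right hc.c3q.symm hc.cqe
  have hr : ∀ a : ℕ, ∃ z, z ≡ 0 [MOD D2] ∧ z ≡ 1 [MOD Q] ∧ a + z ≡ 0 [MOD D3] ∧
      a + z ≡ 2 ^ e [MOD 2 ^ (e + 1)] := by
    intro a
    obtain ⟨z1, hz1, hz1'⟩ := crt2 hc.c2q 0 1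
    obtain ⟨z2, hz2, hz2'⟩ := crt2 hc.c3e ((D3 - 1) * a) ((2 ^ (e + 1) - 1) * a + 2 ^ e)
    obtain ⟨z, hz, hz'⟩ := crt2 c4 z1 z2
    refine ⟨z, (hz.of_mul_right _).trans hz1, (hz.of_mul_left _).trans hz1', ?_, ?_⟩
    · have g1 : a + z ≡ a + (D3 - 1) * a [MOD D3] :=
        ((hz'.of_mul_right _).trans hz2).add_left a
      have g2 : a + (D3 - 1) * a = D3 * a := by
        obtain ⟨n, hn⟩ : ∃ n, D3 = n + 1 := ⟨D3 - 1, by omega⟩
        rw [hn, Nat.add_sub_cancel]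
        ring
      rw [g2] at g1
      exact g1.trans (Nat.modEq_zero_iff_dvd.2 (Dvd.intro _ rfl))
    · have g1 : a + z ≡ a + ((2 ^ (e + 1) - 1) * a + 2 ^ e) [MOD 2 ^ (e + 1)] :=
        ((hz'.of_mul_left _).trans hz2').add_left a
      have g2 : a + ((2 ^ (e + 1) - 1) * a + 2 ^ e) = 2 ^ (e + 1) * a + 2 ^ e := by
        obtain ⟨n, hn⟩ : ∃ n, 2 ^ (e + 1) = n + 1 := ⟨2 ^ (e + 1) - 1, by
          have : 0 < 2 ^ (e + 1) := by positivity
          omega⟩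
        rw [hn, Nat.add_sub_cancel]
        ring
      rw [g2] at g1
      refine g1.trans ?_
      have g3 : 2 ^ (e + 1) * a + 2 ^ e ≡ 0 + 2 ^ e [MOD 2 ^ (e + 1)] :=
        (Nat.modEq_zero_iff_dvd.2 (Dvd.intro _ rfl)).add_right _
      rw [zero_add] at g3
      exact g3
  choose r hr using hr
  set A1 := (Ioc H (2 * H)).filter fun x => x ≡ r1 [MOD m1] with hA1
  have hone : ∀ a ∈ A1, (H : ℝ) / m2 - 1 ≤ (((M.filter fun t => t.1 = a).card : ℕ) : ℝ) := by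
    intro a ha
    rw [hA1, mem_filter] at ha
    refine (ap_card H m2 (r a) hm2p).2.trans ?_
    have : ((Ioc H (2 * H)).filter fun x => x ≡ r a [MOD m2]).card ≤
        (M.filter fun t => t.1 = a).card := by
      apply Finset.card_le_card_of_injOn (fun b => (a, b))
      · intro b hb
        rw [mem_coe, mem_filter] at hb
        rw [mem_coe, mem_filter]
        refine ⟨hM _ ?_, rfl⟩
        obtain ⟨k1, k2, k3, k4⟩ := hr a
        have ha1 : a ≡ r1 [MOD D1] := ha.2.of_mul_right _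
        have ha2 : a ≡ r1 [MOD 2 * Q] := ha.2.of_mul_left _
        have hb1 : b ≡ r a [MOD D2 * Q] := hb.2.of_mul_right _
        have hb2 : b ≡ r a [MOD D3 * 2 ^ (e + 1)] := hb.2.of_mul_left _
        have hb3 : b ≡ r a [MOD D2] := hb1.of_mul_right _
        have hb4 : b ≡ r a [MOD Q] := hb1.of_mul_left _
        have hb5 : b ≡ r a [MOD D3] := hb2.of_mul_right _
        have hb6 : b ≡ r a [MOD 2 ^ (e + 1)] := hb2.of_mul_left _
        exact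
          { a1 := ha.1
            a2 := hb.1
            d1 := Nat.modEq_zero_iff_dvd.1 (ha1.trans hr1)
            d2 := Nat.modEq_zero_iff_dvd.1 (hb3.trans k1)
            d3 := Nat.modEq_zero_iff_dvd.1 ((hb5.add_left a).trans k3)
            q1 := ha2.trans hr2
            q2 := hb4.trans k2
            e3 := (hb6.add_left a).trans k4 }
      · intro b _ b' _ h
        simp only [Prod.mk.injEq, true_and] at h
        exact h
    exact_mod_cast this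
  have e1 : (0 : ℝ) < (m1 : ℝ) := by exact_mod_cast hm1p
  have e2 : (0 : ℝ) < (m2 : ℝ) := by exact_mod_cast hm2p
  have e3 : (2 : ℝ) ≤ (H : ℝ) / m1 := by
    rw [le_div_iff₀ e1]; exact_mod_cast h1
  have e4 : (2 : ℝ) ≤ (H : ℝ) / m2 := by
    rw [le_div_iff₀ e2]; exact_mod_cast h2
  have hA1c := (ap_card H m1 r1 hm1p).2
  rw [← hA1] at hA1c
  have hsum : ∑ a ∈ A1, (((M.filter fun t => t.1 = a).card : ℕ) : ℝ) ≤ (M.card : ℝ) := by
    have : ∑ a ∈ A1, (M.filter fun t => t.1 = a).card ≤ M.card := by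
      rw [← Finset.card_biUnion]
      · apply card_le_card
        intro t ht
        rw [mem_biUnion] at ht
        obtain ⟨a, _, hta⟩ := ht
        exact (mem_filter.1 hta).1
      · intro a _ a' _ haa
        rw [Function.onFun, disjoint_left]
        intro t ht ht'
        exact haa ((mem_filter.1 ht).2.symm.trans (mem_filter.1 ht').2)
    exact_mod_cast this
  calc (H : ℝ) ^ 2 / (4 * ((m1 : ℕ) * (m2 : ℕ))) = ((H : ℝ) / m1 / 2) * ((H : ℝ) / m2 / 2) := by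
        field_simp
        ring
    _ ≤ (A1.card : ℝ) * ((H : ℝ) / m2 - 1) := by
        apply mul_le_mul
        · linarith
        · linarith
        · positivity
        · positivity
    _ = ∑ _a ∈ A1, ((H : ℝ) / m2 - 1) := by rw [Finset.sum_const, nsmul_eq_mul]
    _ ≤ _ := (Finset.sum_le_sum hone).trans hsum

end Pool.Agent.X4.RST
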