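import Mathlib
import Pool.Agent.X4.RST.Ap

/-!
# The number of triples with given powerful parts
-/

set_option autoImplicit false

namespace Pool.Agent.X4.RST

open Finset

/-- the product of the odd primes up to `64` -/
def Q0 : ℕ := ∏ p ∈ (Icc 3 64).filter Nat.Prime, p

theorem Q0_pos : 0 < Q0 := Finset.prod_pos fun _ hp => (mem_filter.1 hp).2.pos

theorem dvd_Q0 {p : ℕ} (hp : p.Prime) (h3 : 3 ≤ p) (h64 : p ≤ 64) : p ∣ Q0 :=
  Finset.dvd_prod_of_mem _ (mem_filter.2 ⟨mem_Icc.2 ⟨h3, h64⟩, hp⟩)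

theorem cop_Q0 {p : ℕ} (hp : p.Prime) (h : 64 < p) : Nat.Coprime p Q0 := by
  apply Nat.Coprime.prod_right
  intro q hq
  rw [mem_filter, mem_Icc] at hq
  exact (Nat.coprime_primes hp hq.2).2 (by omega)

theorem cop2_Q0 : Nat.Coprime 2 Q0 := by
  apply Nat.Coprime.prod_right
  intro q hq
  rw [mem_filter, mem_Icc] at hq
  exact (Nat.coprime_primes Nat.prime_two hq.2).2 (by omega)

theorem cop_2Q0 {p : ℕ} (hp : p.Prime) (h : 64 < p) : Nat.Coprime p (2 * Q0) :=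
  Nat.Coprime.mul_right ((Nat.coprime_primes hp Nat.prime_two).2 (by omega)) (cop_Q0 hp h)

/-- `D` is the part of `n` composed of the primes of `P` whose square divides `n` -/
structure Pp (P : Finset ℕ) (D n : ℕ) : Prop where
  dvd : D ∣ n
  a : ∀ p ∈ P, p ∣ D → ¬ p * D ∣ n
  b : ∀ p ∈ P, ¬ p ∣ D → ¬ p ^ 2 ∣ n

/-- the data -/
structure Dat (P : Finset ℕ) (k : ℕ) (D : ℕ × ℕ × ℕ) : Prop where
  p1 : 0 < D.1
  p2 : 0 < D.2.1
  p3 : 0 < D.2.2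
  c12 : Nat.Coprime D.1 D.2.1
  c13 : Nat.Coprime D.1 D.2.2
  c23 : Nat.Coprime D.2.1 D.2.2
  sub : ∀ q, q.Prime → q ∣ D.1 * D.2.1 * D.2.2 → q ∈ P
  sq1 : ∀ q, q.Prime → q ∣ D.1 → q ^ 2 ∣ D.1
  sq2 : ∀ q, q.Prime → q ∣ D.2.1 → q ^ 2 ∣ D.2.1
  sq3 : ∀ q, q.Prime → q ∣ D.2.2 → q ^ 2 ∣ D.2.2
  card : (D.1 * D.2.1 * D.2.2).primeFactors.card = k

/-- the good pairs -/
structure Gd (H : ℕ) (P : Finset ℕ) (D : ℕ × ℕ × ℕ) (e : ℕ) (t : ℕ × ℕ) : Prop where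
  a1 : t.1 ∈ Ioc H (2 * H)
  a2 : t.2 ∈ Ioc H (2 * H)
  cop : Nat.Coprime t.1 t.2
  g1 : Pp P D.1 t.1
  g2 : Pp P D.2.1 t.2
  g3 : Pp P D.2.2 (t.1 + t.2)
  e3 : t.1 + t.2 ≡ 2 ^ e [MOD 2 ^ (e + 1)]

theorem Cp_mul {Q D1 D2 D3 e g1 g2 g3 : ℕ} (hc : Cp Q D1 D2 D3 e) (h1 : 0 < g1) (h2 : 0 < g2)
    (h3 : 0 < g3) (c1 : Nat.Coprime g1 (2 * Q)) (c2 : Nat.Coprime g2 (2 * Q))
    (c3 : Nat.Coprime g3 (2 * Q)) (d1 : Nat.Coprime g2 D3) (d2 : Nat.Coprime g3 D2)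
    (d3 : Nat.Coprime g2 g3) : Cp Q (g1 * D1) (g2 * D2) (g3 * D3) e := by
  have k2 : Nat.Coprime g2 2 := Nat.Coprime.coprime_mul_right_right c2
  have k3 : Nat.Coprime g3 2 := Nat.Coprime.coprime_mul_right_right c3
  exact
    { p1 := Nat.mul_pos h1 hc.p1
      p2 := Nat.mul_pos h2 hc.p2
      p3 := Nat.mul_pos h3 hc.p3
      q := hc.q
      c1 := Nat.Coprime.mul_left c1 hc.c1
      c23 := Nat.Coprime.mul_left (Nat.Coprime.mul_right d3 d1)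
        (Nat.Coprime.mul_right d2.symm hc.c23)
      c2q := Nat.Coprime.mul_left (Nat.Coprime.coprime_mul_left_right c2) hc.c2q
      c3q := Nat.Coprime.mul_left (Nat.Coprime.coprime_mul_left_right c3) hc.c3q
      c2e := Nat.Coprime.mul_left (Nat.Coprime.pow_right _ k2) hc.c2e
      c3e := Nat.Coprime.mul_left (Nat.Coprime.pow_right _ k3) hc.c3e
      cqe := hc.cqe }

/-- the number of the pairs with additional divisibilities -/
theorem sub_le {H Q D1 D2 D3 e g1 g2 g3 Y : ℕ} (hc : Cp Q D1 D2 D3 e) (h1 : 0 < g1) (h2 : 0 < g2)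
    (h3 : 0 < g3) (c1 : Nat.Coprime g1 (2 * Q)) (c2 : Nat.Coprime g2 (2 * Q))
    (c3 : Nat.Coprime g3 (2 * Q)) (d1 : Nat.Coprime g2 D3) (d2 : Nat.Coprime g3 D2)
    (d3 : Nat.Coprime g2 g3) (hg1 : g1 ≤ Y ^ 2) (hg2 : g2 * g3 ≤ Y ^ 2)
    (hH : 2 * Q * (D1 * D2 * D3 * 2 ^ (e + 1)) * Y ^ 2 ≤ H) (B : Finset (ℕ × ℕ))
    (hB : ∀ t ∈ B, Bs H Q D1 D2 D3 e t ∧ g1 * D1 ∣ t.1 ∧ g2 * D2 ∣ t.2 ∧ g3 * D3 ∣ t.1 + t.2) :
    (B.card : ℝ) ≤ 4 * (H : ℝ) ^ 2 / (2 * Q ^ 2 * ((D1 * D2 * D3 * 2 ^ (e + 1) : ℕ) : ℝ)) *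
      (1 / ((g1 * g2 * g3 : ℕ) : ℝ)) := by
  have := hc.p1
  have := hc.p2
  have := hc.p3
  have := hc.q
  have hcp := Cp_mul hc h1 h2 h3 c1 c2 c3 d1 d2 d3
  have hD23 : 0 < D2 * D3 * 2 ^ (e + 1) := by positivity
  refine (Bs_le' (H := H) hcp B ?_ ?_ ?_).trans (le_of_eq ?_)
  · intro t ht
    obtain ⟨b, b1, b2, b3⟩ := hB t ht
    exact { a1 := b.a1, a2 := b.a2, d1 := b1, d2 := b2, d3 := b3, q1 := b.q1, q2 := b.q2,
            e3 := b.e3 }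
  · calc g1 * D1 * (2 * Q) ≤ Y ^ 2 * D1 * (2 * Q) * (D2 * D3 * 2 ^ (e + 1)) := by
          refine le_trans ?_ (Nat.le_mul_of_pos_right _ hD23)
          gcongr
      _ = 2 * Q * (D1 * D2 * D3 * 2 ^ (e + 1)) * Y ^ 2 := by ring
      _ ≤ H := hH
  · calc g2 * D2 * Q * (g3 * D3 * 2 ^ (e + 1)) = (g2 * g3) * (Q * D2 * D3 * 2 ^ (e + 1)) := by ring
      _ ≤ Y ^ 2 * (Q * D2 * D3 * 2 ^ (e + 1)) := by gcongr
      _ ≤ Y ^ 2 * (Q * D2 * D3 * 2 ^ (e + 1)) * (2 * D1) :=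
          Nat.le_mul_of_pos_right _ (by positivity)
      _ = 2 * Q * (D1 * D2 * D3 * 2 ^ (e + 1)) * Y ^ 2 := by ring
      _ ≤ H := hH
  · push_cast
    have e1 : (0 : ℝ) < D1 := by exact_mod_cast hc.p1
    have e2 : (0 : ℝ) < D2 := by exact_mod_cast hc.p2
    have e3 : (0 : ℝ) < D3 := by exact_mod_cast hc.p3
    have e4 : (0 : ℝ) < Q := by exact_mod_cast hc.q
    have e5 : (0 : ℝ) < g1 := by exact_mod_cast h1
    have e6 : (0 : ℝ) < g2 := by exact_mod_cast h2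
    have e7 : (0 : ℝ) < g3 := by exact_mod_cast h3
    field_simp

/-- the pairs with a large common prime -/
theorem tail_le {H Q D1 D2 D3 e p : ℕ} (hc : Cp Q D1 D2 D3 e) (hp : p.Prime)
    (hp2 : p ≠ 2) (hpD : ¬ p ∣ D1 * D2 * D3) (B : Finset (ℕ × ℕ))
    (hB : ∀ t ∈ B, Bs H Q D1 D2 D3 e t ∧ p ∣ t.1 ∧ p ∣ t.2) :
    (B.card : ℝ) ≤ 3 * (H : ℝ) ^ 2 / ((D1 * D2 * D3 * 2 ^ (e + 1) : ℕ) : ℝ) * (1 / (p : ℝ) ^ 2) +
      3 * H * (1 / (p : ℝ)) := by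
  have q1 := hc.p1
  have q2 := hc.p2
  have q3 := hc.p3
  have hp0 := hp.pos
  have hpR : (0 : ℝ) < p := by exact_mod_cast hp0
  rcases B.eq_empty_or_nonempty with rfl | ⟨t0, ht0⟩
  · simp only [card_empty, Nat.cast_zero]
    positivity
  have c1 : Nat.Coprime p D1 := (Nat.Prime.coprime_iff_not_dvd hp).2 fun h =>
    hpD ((h.mul_right _).mul_right _)
  have c2 : Nat.Coprime p D2 := (Nat.Prime.coprime_iff_not_dvd hp).2 fun h =>
    hpD ((h.mul_left _).mul_right _)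
  have c3 : Nat.Coprime p D3 := (Nat.Prime.coprime_iff_not_dvd hp).2 fun h =>
    hpD (h.mul_left _)
  have c4 : Nat.Coprime p (2 ^ (e + 1)) :=
    Nat.Coprime.pow_right _ ((Nat.coprime_primes hp Nat.prime_two).2 hp2)
  have hle := pair_le (H := H) (m1 := p * D1) (m2 := (p * D2) * (D3 * 2 ^ (e + 1)))
    (by positivity) (by positivity) B (fun t ht => ⟨(hB t ht).1.a1, (hB t ht).1.a2⟩)
    (by
      intro t ht u hu
      apply modEq_mul c1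
      · exact ((Nat.modEq_zero_iff_dvd.2 (hB t ht).2.1)).trans
          (Nat.modEq_zero_iff_dvd.2 (hB u hu).2.1).symm
      · exact ((Nat.modEq_zero_iff_dvd.2 (hB t ht).1.d1)).trans
          (Nat.modEq_zero_iff_dvd.2 (hB u hu).1.d1).symm)
    (by
      intro t ht u hu htu
      apply modEq_mul (Nat.Coprime.mul_left (Nat.Coprime.mul_right c3 c4)
        (Nat.Coprime.mul_right hc.c23 hc.c2e))
      · apply modEq_mul c2
        · exact ((Nat.modEq_zero_iff_dvd.2 (hB t ht).2.2)).trans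
            (Nat.modEq_zero_iff_dvd.2 (hB u hu).2.2).symm
        · exact ((Nat.modEq_zero_iff_dvd.2 (hB t ht).1.d2)).trans
            (Nat.modEq_zero_iff_dvd.2 (hB u hu).1.d2).symm
      · apply modEq_mul hc.c3e
        · have h1 : t.1 + t.2 ≡ u.1 + u.2 [MOD D3] :=
            ((Nat.modEq_zero_iff_dvd.2 (hB t ht).1.d3)).trans
              (Nat.modEq_zero_iff_dvd.2 (hB u hu).1.d3).symm
          rw [htu] at h1
          exact Nat.ModEq.add_left_cancel' _ h1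
        · have h1 : t.1 + t.2 ≡ u.1 + u.2 [MOD 2 ^ (e + 1)] :=
            (hB t ht).1.e3.trans (hB u hu).1.e3.symm
          rw [htu] at h1
          exact Nat.ModEq.add_left_cancel' _ h1)
  refine hle.trans ?_
  have hb := hB t0 ht0
  have hdv : p * D1 ∣ t0.1 := Nat.Coprime.mul_dvd_of_dvd_of_dvd c1 hb.2.1 hb.1.d1
  have ha1 := mem_Ioc.1 hb.1.a1
  have hle2 : p * D1 ≤ 2 * H := (Nat.le_of_dvd (by omega) hdv).trans ha1.2
  have e1 : (0 : ℝ) < D1 := by exact_mod_cast hc.p1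
  have e2 : (0 : ℝ) < D2 := by exact_mod_cast hc.p2
  have e3 : (0 : ℝ) < D3 := by exact_mod_cast hc.p3
  have e4 : (0 : ℝ) < ((p * D1 : ℕ) : ℝ) := by exact_mod_cast (by positivity)
  have h5 : (H : ℝ) / ((p * D1 : ℕ) : ℝ) + 1 ≤ 3 * H / ((p * D1 : ℕ) : ℝ) := by
    have h6 : (1 : ℝ) ≤ 2 * H / ((p * D1 : ℕ) : ℝ) := by
      rw [le_div_iff₀ e4, one_mul]
      exact_mod_cast hle2
    have h7 : 3 * (H : ℝ) / ((p * D1 : ℕ) : ℝ) = (H : ℝ) / ((p * D1 : ℕ) : ℝ) +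
        2 * H / ((p * D1 : ℕ) : ℝ) := by ring
    linarith
  calc _ ≤ 3 * (H : ℝ) / ((p * D1 : ℕ) : ℝ) *
      ((H : ℝ) / (((p * D2) * (D3 * 2 ^ (e + 1)) : ℕ) : ℝ) + 1) :=
        mul_le_mul_of_nonneg_right h5 (by positivity)
    _ = 3 * (H : ℝ) ^ 2 / ((D1 * D2 * D3 * 2 ^ (e + 1) : ℕ) : ℝ) * (1 / (p : ℝ) ^ 2) +
      3 * H * (1 / (p : ℝ)) * (1 / D1) := by
        push_cast
        field_simp
    _ ≤ _ := by
        have h8 : 1 / (D1 : ℝ) ≤ 1 := by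
          rw [div_le_one e1]
          exact_mod_cast hc.p1
        have h9 : 0 ≤ 3 * (H : ℝ) * (1 / (p : ℝ)) := by positivity
        nlinarith

/-- the sum of `1 / n ^ 2` -/
theorem sum_sq_le (y N : ℕ) (hy : 1 ≤ y) :
    ∑ n ∈ Ioc y N, 1 / (n : ℝ) ^ 2 ≤ 1 / (y : ℝ) := by
  have key : ∀ N : ℕ, y ≤ N → ∑ n ∈ Ioc y N, 1 / (n : ℝ) ^ 2 ≤ 1 / (y : ℝ) - 1 / (N : ℝ) := by
    intro N hN
    induction N, hN using Nat.le_induction with
    | base => simp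
    | succ N hN ih =>
      have e1 : Finset.Ioc y (N + 1) = insert (N + 1) (Finset.Ioc y N) := by
        ext x; simp only [Finset.mem_Ioc, Finset.mem_insert]; omega
      rw [e1, Finset.sum_insert (by simp)]
      have hN0 : (0 : ℝ) < N := by exact_mod_cast (by omega : 0 < N)
      have h1 : 1 / ((N + 1 : ℕ) : ℝ) ^ 2 ≤ 1 / (N : ℝ) - 1 / ((N + 1 : ℕ) : ℝ) := by
        push_cast
        rw [div_sub_div _ _ hN0.ne' (by positivity), div_le_div_iff₀ (by positivity) (by positivity)]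
        nlinarith
      linarith
  rcases le_or_gt y N with h | h
  · refine (key N h).trans ?_
    have : 0 ≤ 1 / (N : ℝ) := by positivity
    linarith
  · rw [Finset.Ioc_eq_empty (by omega), Finset.sum_empty]
    positivity

theorem sum_inv_le (Y N : ℕ) : ∑ n ∈ Ioc Y N, 1 / (n : ℝ) ≤ 1 + Real.log N := by
  have h1 := harmonic_le_one_add_log N
  refine le_trans ?_ h1
  rw [harmonic_eq_sum_Icc]
  push_cast
  simp only [← one_div]
  apply Finset.sum_le_sum_of_subset_of_nonneg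
  · intro x hx
    rw [mem_Ioc] at hx
    rw [mem_Icc]
    omega
  · intro x _ _
    positivity

end Pool.Agent.X4.RST
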