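import Mathlib
import Pool.Agent.X4.RST.Lem

/-!
# The number of triples with given powerful parts
-/

set_option autoImplicit false
set_option linter.unusedSimpArgs false

namespace Pool.Agent.X4.RST

open Finset

open Classical in
/-- the set of the good pairs -/
noncomputable def TG (H : ℕ) (P : Finset ℕ) (D : ℕ × ℕ × ℕ) (e : ℕ) : Finset (ℕ × ℕ) :=
  ((Ioc H (2 * H)) ×ˢ (Ioc H (2 * H))).filter fun t => Gd H P D e t

theorem mem_TG {H : ℕ} {P : Finset ℕ} {D : ℕ × ℕ × ℕ} {e : ℕ} {t : ℕ × ℕ} :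
    t ∈ TG H P D e ↔ Gd H P D e t := by
  classical
  unfold TG
  rw [mem_filter, mem_product]
  exact ⟨fun h => h.2, fun h => ⟨⟨h.a1, h.a2⟩, h⟩⟩

theorem Dat_Cp {P : Finset ℕ} {k D1 D2 D3 : ℕ} (hD : Dat P k (D1, D2, D3))
    (hP : ∀ p ∈ P, p.Prime ∧ 64 < p) (e : ℕ) : Cp Q0 D1 D2 D3 e := by
  have h1 : ∀ q, q.Prime → q ∣ D1 → Nat.Coprime q (2 * Q0) ∧ 64 < q := by
    intro q hq hd
    have := (hP q (hD.sub q hq ((hd.mul_right _).mul_right _))).2
    exact ⟨cop_2Q0 hq this, this⟩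
  have h2 : ∀ q, q.Prime → q ∣ D2 → Nat.Coprime q (2 * Q0) ∧ 64 < q := by
    intro q hq hd
    have := (hP q (hD.sub q hq ((hd.mul_left _).mul_right _))).2
    exact ⟨cop_2Q0 hq this, this⟩
  have h3 : ∀ q, q.Prime → q ∣ D3 → Nat.Coprime q (2 * Q0) ∧ 64 < q := by
    intro q hq hd
    have := (hP q (hD.sub q hq (hd.mul_left _))).2
    exact ⟨cop_2Q0 hq this, this⟩
  have hcop : ∀ D, (∀ q, q.Prime → q ∣ D → Nat.Coprime q (2 * Q0) ∧ 64 < q) →
      Nat.Coprime D (2 * Q0) := by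
    intro D h
    apply Nat.coprime_of_dvd
    intro q hq hd hd'
    exact (Nat.Prime.coprime_iff_not_dvd hq).1 (h q hq hd).1 hd'
  have k1 := hcop D1 h1
  have k2 := hcop D2 h2
  have k3 := hcop D3 h3
  exact
    { p1 := hD.p1
      p2 := hD.p2
      p3 := hD.p3
      q := Q0_pos
      c1 := k1
      c23 := hD.c23
      c2q := Nat.Coprime.coprime_mul_left_right k2
      c3q := Nat.Coprime.coprime_mul_left_right k3
      c2e := Nat.Coprime.pow_right _ (Nat.Coprime.coprime_mul_right_right k2)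
      c3e := Nat.Coprime.pow_right _ (Nat.Coprime.coprime_mul_right_right k3)
      cqe := Nat.Coprime.pow_right _ cop2_Q0.symm }

/-- a common prime divisor of a basic pair is large -/
theorem big_of_dvd {H Q D1 D2 D3 e p : ℕ} {t : ℕ × ℕ} (hb : Bs H Q D1 D2 D3 e t) (hQ : Q = Q0)
    (hp : p.Prime) (h1 : p ∣ t.1) : 64 < p := by
  by_contra hcon
  rw [not_lt] at hcon
  have h2 : p ∣ 2 * Q := by
    rcases Nat.lt_or_ge p 3 with h | h
    · have : p = 2 := by have := hp.two_le; omega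
      rw [this]
      exact Dvd.intro _ rfl
    · rw [hQ]
      exact (dvd_Q0 hp h hcon).mul_left _
  have h3 : t.1 ≡ 1 [MOD p] := hb.q1.of_dvd h2
  have h4 := (Nat.modEq_zero_iff_dvd.2 h1).symm.trans h3
  exact hp.one_lt.ne' (Nat.dvd_one.1 (Nat.modEq_zero_iff_dvd.1 h4.symm))

theorem cover {H e : ℕ} {P : Finset ℕ} (hP : ∀ p ∈ P, p.Prime) {D1 D2 D3 : ℕ}
    {t : ℕ × ℕ} (hb : Bs H Q0 D1 D2 D3 e t) : Gd H P (D1, D2, D3) e t ∨
      (∃ p, p.Prime ∧ 64 < p ∧ p ≤ 2 * H ∧ p ∣ t.1 ∧ p ∣ t.2) ∨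
      (∃ p, p.Prime ∧ p ∣ D1 * D2 * D3 ∧ ((p ∣ D1 ∧ p * D1 ∣ t.1) ∨ (p ∣ D2 ∧ p * D2 ∣ t.2) ∨
        (p ∣ D3 ∧ p * D3 ∣ t.1 + t.2))) ∨
      (∃ p ∈ P, ¬ p ∣ D1 * D2 * D3 ∧ (p ^ 2 ∣ t.1 ∨ p ^ 2 ∣ t.2 ∨ p ^ 2 ∣ t.1 + t.2)) := by
  by_cases hcop : Nat.Coprime t.1 t.2
  swap
  · right; left
    obtain ⟨p, hp, h1, h2⟩ := Nat.Prime.not_coprime_iff_dvd.1 hcop
    have ha1 := mem_Ioc.1 hb.a1
    exact ⟨p, hp, big_of_dvd hb rfl hp h1, (Nat.le_of_dvd (by omega) h1).trans ha1.2, h1, h2⟩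
  by_cases hg : Pp P D1 t.1 ∧ Pp P D2 t.2 ∧ Pp P D3 (t.1 + t.2)
  · left
    exact { a1 := hb.a1, a2 := hb.a2, cop := hcop, g1 := hg.1, g2 := hg.2.1, g3 := hg.2.2,
            e3 := hb.e3 }
  right; right
  by_contra hcon
  push Not at hcon
  obtain ⟨k1, k2⟩ := hcon
  apply hg
  -- a prime cannot divide two members
  have n12 : ∀ p, p.Prime → p ∣ t.1 → p ∣ t.2 → False := fun p hp h1 h2 =>
    Nat.Prime.not_coprime_iff_dvd.2 ⟨p, hp, h1, h2⟩ hcop
  have n13 : ∀ p, p.Prime → p ∣ t.1 → p ∣ t.1 + t.2 → False := fun p hp h1 h2 =>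
    n12 p hp h1 ((Nat.dvd_add_right h1).1 h2)
  have n23 : ∀ p, p.Prime → p ∣ t.2 → p ∣ t.1 + t.2 → False := fun p hp h1 h2 =>
    n12 p hp ((Nat.dvd_add_left h1).1 h2) h1
  refine ⟨⟨hb.d1, ?_, ?_⟩, ⟨hb.d2, ?_, ?_⟩, ⟨hb.d3, ?_, ?_⟩⟩
  · intro p hp hd
    exact (k1 p (hP p hp) ((hd.mul_right _).mul_right _)).1 hd
  · intro p hp hd h2
    have hp1 : p ∣ t.1 := (dvd_pow_self p (by norm_num)).trans h2
    by_cases h3 : p ∣ D1 * D2 * D3
    · rcases (Nat.Prime.dvd_mul (hP p hp)).1 h3 with h4 | h4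
      · rcases (Nat.Prime.dvd_mul (hP p hp)).1 h4 with h5 | h5
        · exact hd h5
        · exact n12 p (hP p hp) hp1 (h5.trans hb.d2)
      · exact n13 p (hP p hp) hp1 (h4.trans hb.d3)
    · exact (k2 p hp h3).1 h2
  · intro p hp hd
    exact (k1 p (hP p hp) ((hd.mul_left _).mul_right _)).2.1 hd
  · intro p hp hd h2
    have hp1 : p ∣ t.2 := (dvd_pow_self p (by norm_num)).trans h2
    by_cases h3 : p ∣ D1 * D2 * D3
    · rcases (Nat.Prime.dvd_mul (hP p hp)).1 h3 with h4 | h4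
      · rcases (Nat.Prime.dvd_mul (hP p hp)).1 h4 with h5 | h5
        · exact n12 p (hP p hp) (h5.trans hb.d1) hp1
        · exact hd h5
      · exact n23 p (hP p hp) hp1 (h4.trans hb.d3)
    · exact (k2 p hp h3).2.1 h2
  · intro p hp hd
    exact (k1 p (hP p hp) (hd.mul_left _)).2.2 hd
  · intro p hp hd h2
    have hp1 : p ∣ t.1 + t.2 := (dvd_pow_self p (by norm_num)).trans h2
    by_cases h3 : p ∣ D1 * D2 * D3
    · rcases (Nat.Prime.dvd_mul (hP p hp)).1 h3 with h4 | h4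
      · rcases (Nat.Prime.dvd_mul (hP p hp)).1 h4 with h5 | h5
        · exact n13 p (hP p hp) (h5.trans hb.d1) hp1
        · exact n23 p (hP p hp) (h5.trans hb.d2) hp1
      · exact hd h4
    · exact (k2 p hp h3).2.2 h2

open Classical in
theorem cnt {H k e y Y : ℕ} {P : Finset ℕ} {D1 D2 D3 : ℕ} (hD : Dat P k (D1, D2, D3))
    (hP : ∀ p ∈ P, p.Prime ∧ y < p ∧ p ≤ Y) (hy : 1024 ≤ y) (hk : 1024 * k ≤ y)
    (hyY : y ≤ Y) (hY : 1024 * Q0 ^ 2 ≤ Y)
    (hV : 2 * Q0 * (D1 * D2 * D3 * 2 ^ (e + 1)) * Y ^ 2 ≤ H)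
    (hV2 : 512 * (Q0 : ℝ) ^ 2 * ((D1 * D2 * D3 * 2 ^ (e + 1) : ℕ) : ℝ) *
      (1 + Real.log ((2 * H : ℕ) : ℝ)) ≤ H) :
    (H : ℝ) ^ 2 / (16 * (Q0 : ℝ) ^ 2 * ((D1 * D2 * D3 * 2 ^ (e + 1) : ℕ) : ℝ)) ≤
      ((TG H P (D1, D2, D3) e).card : ℝ) := by
  have hc : Cp Q0 D1 D2 D3 e := Dat_Cp hD (fun p hp => ⟨(hP p hp).1, by
    have := (hP p hp).2.1; omega⟩) e
  have q1 := hc.p1
  have q2 := hc.p2
  have q3 := hc.p3
  have q4 := hc.q
  have hVpos : 0 < D1 * D2 * D3 * 2 ^ (e + 1) := by positivity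
  have hYpos : 0 < Y := by omega
  set V : ℝ := ((D1 * D2 * D3 * 2 ^ (e + 1) : ℕ) : ℝ) with hVdef
  have hV0 : 0 < V := by rw [hVdef]; exact_mod_cast hVpos
  have hQ0 : (0 : ℝ) < Q0 := by exact_mod_cast q4
  set b : ℝ := 4 * (H : ℝ) ^ 2 / (2 * (Q0 : ℝ) ^ 2 * V) with hb
  have hb0 : 0 ≤ b := by positivity
  set M : Finset (ℕ × ℕ) := ((Ioc H (2 * H)) ×ˢ (Ioc H (2 * H))).filter
    fun t => Bs H Q0 D1 D2 D3 e t with hM
  have hMm : ∀ t, t ∈ M ↔ Bs H Q0 D1 D2 D3 e t := by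
    intro t
    rw [hM, mem_filter, mem_product]
    exact ⟨fun h => h.2, fun h => ⟨⟨h.a1, h.a2⟩, h⟩⟩
  have hY1 : 1 ≤ Y ^ 2 := Nat.one_le_pow _ _ hYpos
  have hYle : Y ≤ Y ^ 2 := Nat.le_self_pow (by norm_num) Y
  -- the main term
  have hmain : b / 16 ≤ (M.card : ℝ) := by
    have hY2 : 2 ≤ Y ^ 2 := by
      have : 2 ≤ Y := by omega
      omega
    have h := Bs_ge (H := H) hc M (fun t ht => (hMm t).2 ht) ?_ ?_
    · refine le_trans (le_of_eq ?_) h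
      rw [hb, hVdef]
      push_cast
      field_simp
      ring
    · calc 2 * (D1 * (2 * Q0)) ≤ 2 * (D1 * (2 * Q0)) * (D2 * D3 * 2 ^ (e + 1)) :=
            Nat.le_mul_of_pos_right _ (by positivity)
        _ = 2 * Q0 * (D1 * D2 * D3 * 2 ^ (e + 1)) * 2 := by ring
        _ ≤ 2 * Q0 * (D1 * D2 * D3 * 2 ^ (e + 1)) * Y ^ 2 := by gcongr
        _ ≤ H := hV
    · calc 2 * (D2 * Q0 * (D3 * 2 ^ (e + 1))) ≤ 2 * (D2 * Q0 * (D3 * 2 ^ (e + 1))) * D1 :=
            Nat.le_mul_of_pos_right _ (by positivity)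
        _ = 2 * Q0 * (D1 * D2 * D3 * 2 ^ (e + 1)) * 1 := by ring
        _ ≤ 2 * Q0 * (D1 * D2 * D3 * 2 ^ (e + 1)) * Y ^ 2 := by gcongr
        _ ≤ H := hV
  -- the bad sets
  set PF := (D1 * D2 * D3).primeFactors with hPF
  have hPFm : ∀ p, p ∈ PF ↔ p.Prime ∧ p ∣ D1 * D2 * D3 := by
    intro p
    rw [hPF, Nat.mem_primeFactors]
    exact ⟨fun h => ⟨h.1, h.2.1⟩, fun h => ⟨h.1, h.2, by positivity⟩⟩
  let A1 : ℕ → Finset (ℕ × ℕ) := fun p => M.filter fun t => p ∣ t.1 ∧ p ∣ t.2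
  let A2 : ℕ → Finset (ℕ × ℕ) := fun p => M.filter fun t =>
    (p ∣ D1 ∧ p * D1 ∣ t.1) ∨ (p ∣ D2 ∧ p * D2 ∣ t.2) ∨ (p ∣ D3 ∧ p * D3 ∣ t.1 + t.2)
  let A3 : ℕ → Finset (ℕ × ℕ) := fun p => M.filter fun t => p ^ 2 ∣ t.1
  let A4 : ℕ → Finset (ℕ × ℕ) := fun p => M.filter fun t => p ^ 2 ∣ t.2
  let A5 : ℕ → Finset (ℕ × ℕ) := fun p => M.filter fun t => p ^ 2 ∣ t.1 + t.2
  let I3 : Finset ℕ := P.filter fun p => ¬ p ∣ D1 * D2 * D3
  let I4 : Finset ℕ := (Ioc 64 Y).filter fun p => p.Prime ∧ ¬ p ∣ D1 * D2 * D3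
  let I5 : Finset ℕ := (Ioc Y (2 * H)).filter fun p => p.Prime ∧ ¬ p ∣ D1 * D2 * D3
  have hcov : M ⊆ TG H P (D1, D2, D3) e ∪ (PF.biUnion A1 ∪ (PF.biUnion A2 ∪ (I3.biUnion A3 ∪
      (I3.biUnion A4 ∪ (I3.biUnion A5 ∪ (I4.biUnion A1 ∪ I5.biUnion A1)))))) := by
    intro t ht
    have hbt := (hMm t).1 ht
    simp only [mem_union, mem_biUnion]
    rcases cover (fun p hp => (hP p hp).1) hbt with h | ⟨p, hp, h1, h2, h3, h4⟩ |
      ⟨p, hp, h1, h2⟩ | ⟨p, hp, h1, h2⟩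
    · exact Or.inl (mem_TG.2 h)
    · right
      have hA : t ∈ A1 p := mem_filter.2 ⟨ht, h3, h4⟩
      by_cases h5 : p ∣ D1 * D2 * D3
      · exact Or.inl ⟨p, (hPFm p).2 ⟨hp, h5⟩, hA⟩
      · right; right; right; right; right
        rcases le_or_gt p Y with h6 | h6
        · exact Or.inl ⟨p, mem_filter.2 ⟨mem_Ioc.2 ⟨h1, h6⟩, hp, h5⟩, hA⟩
        · exact Or.inr ⟨p, mem_filter.2 ⟨mem_Ioc.2 ⟨h6, h2⟩, hp, h5⟩, hA⟩
    · right; right; left
      exact ⟨p, (hPFm p).2 ⟨hp, h1⟩, mem_filter.2 ⟨ht, h2⟩⟩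
    · right; right; right
      have hI : p ∈ I3 := mem_filter.2 ⟨hp, h1⟩
      rcases h2 with h2 | h2 | h2
      · exact Or.inl ⟨p, hI, mem_filter.2 ⟨ht, h2⟩⟩
      · exact Or.inr (Or.inl ⟨p, hI, mem_filter.2 ⟨ht, h2⟩⟩)
      · exact Or.inr (Or.inr (Or.inl ⟨p, hI, mem_filter.2 ⟨ht, h2⟩⟩))
  -- single bounds
  have hyR : (0 : ℝ) < y := by exact_mod_cast (by omega : 0 < y)
  have hPFP : ∀ p ∈ PF, p ∈ P := fun p hp => hD.sub p ((hPFm p).1 hp).1 ((hPFm p).1 hp).2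
  have hbig : ∀ p ∈ P, 64 < p := fun p hp => by have := (hP p hp).2.1; omega
  have b1 : ∀ p ∈ PF, ((A1 p).card : ℝ) ≤ b * (1 / (p : ℝ)) := by
    intro p hp
    have hpp := (hPFm p).1 hp
    have hpP := hPFP p hp
    have hco := cop_2Q0 hpp.1 (hbig p hpP)
    have hpY : p ≤ Y ^ 2 := (hP p hpP).2.2.trans hYle
    have hp0 := hpp.1.pos
    have hmem : ∀ t ∈ A1 p, Bs H Q0 D1 D2 D3 e t ∧ p ∣ t.1 ∧ p ∣ t.2 := fun t ht =>
      ⟨(hMm t).1 (mem_filter.1 ht).1, (mem_filter.1 ht).2⟩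
    by_cases hd : p ∣ D1
    · have c2 : Nat.Coprime p D2 := Nat.Coprime.coprime_dvd_left hd hD.c12
      have c3 : Nat.Coprime p D3 := Nat.Coprime.coprime_dvd_left hd hD.c13
      have h := sub_le (g1 := 1) (g2 := p) (g3 := 1) (Y := Y) hc one_pos hp0 one_pos
        (Nat.coprime_one_left _) hco (Nat.coprime_one_left _) c3 (Nat.coprime_one_left _)
        (Nat.coprime_one_right _) hY1 (by rwa [mul_one]) hV (A1 p) (fun t ht => by
          obtain ⟨g1, g2, g3⟩ := hmem t ht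
          refine ⟨g1, by rw [one_mul]; exact g1.d1, ?_, by rw [one_mul]; exact g1.d3⟩
          exact Nat.Coprime.mul_dvd_of_dvd_of_dvd c2 g3 g1.d2)
      simp only [one_mul, mul_one, Nat.cast_pow] at h
      exact h
    · have c1 : Nat.Coprime p D1 := (Nat.Prime.coprime_iff_not_dvd hpp.1).2 hd
      have h := sub_le (g1 := p) (g2 := 1) (g3 := 1) (Y := Y) hc hp0 one_pos one_pos
        hco (Nat.coprime_one_left _) (Nat.coprime_one_left _) (Nat.coprime_one_left _)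
        (Nat.coprime_one_left _) (Nat.coprime_one_right _) hpY (by rw [mul_one]; exact hY1) hV
        (A1 p) (fun t ht => by
          obtain ⟨g1, g2, g3⟩ := hmem t ht
          refine ⟨g1, Nat.Coprime.mul_dvd_of_dvd_of_dvd c1 g2 g1.d1, by rw [one_mul]; exact g1.d2,
            by rw [one_mul]; exact g1.d3⟩)
      simp only [one_mul, mul_one, Nat.cast_pow] at h
      exact h
  have b2 : ∀ p ∈ PF, ((A2 p).card : ℝ) ≤ b * (1 / (p : ℝ)) := by
    intro p hp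
    have hpp := (hPFm p).1 hp
    have hpP := hPFP p hp
    have hco := cop_2Q0 hpp.1 (hbig p hpP)
    have hpY : p ≤ Y ^ 2 := (hP p hpP).2.2.trans hYle
    have hp0 := hpp.1.pos
    have hmem : ∀ t ∈ A2 p, Bs H Q0 D1 D2 D3 e t ∧ ((p ∣ D1 ∧ p * D1 ∣ t.1) ∨
        (p ∣ D2 ∧ p * D2 ∣ t.2) ∨ (p ∣ D3 ∧ p * D3 ∣ t.1 + t.2)) := fun t ht =>
      ⟨(hMm t).1 (mem_filter.1 ht).1, (mem_filter.1 ht).2⟩
    have n12 : p ∣ D1 → ¬ p ∣ D2 := fun h1 h2 =>
      Nat.Prime.not_coprime_iff_dvd.2 ⟨p, hpp.1, h1, h2⟩ hD.c12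
    have n13 : p ∣ D1 → ¬ p ∣ D3 := fun h1 h2 =>
      Nat.Prime.not_coprime_iff_dvd.2 ⟨p, hpp.1, h1, h2⟩ hD.c13
    have n23 : p ∣ D2 → ¬ p ∣ D3 := fun h1 h2 =>
      Nat.Prime.not_coprime_iff_dvd.2 ⟨p, hpp.1, h1, h2⟩ hD.c23
    rcases (Nat.Prime.dvd_mul hpp.1).1 hpp.2 with hd | hd
    · rcases (Nat.Prime.dvd_mul hpp.1).1 hd with hd | hd
      · have h := sub_le (g1 := p) (g2 := 1) (g3 := 1) (Y := Y) hc hp0 one_pos one_pos
          hco (Nat.coprime_one_left _) (Nat.coprime_one_left _) (Nat.coprime_one_left _)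
          (Nat.coprime_one_left _) (Nat.coprime_one_right _) hpY (by rw [mul_one]; exact hY1) hV
          (A2 p) (fun t ht => by
            obtain ⟨g1, g2⟩ := hmem t ht
            refine ⟨g1, ?_, by rw [one_mul]; exact g1.d2, by rw [one_mul]; exact g1.d3⟩
            rcases g2 with g2 | g2 | g2
            · exact g2.2
            · exact absurd g2.1 (n12 hd)
            · exact absurd g2.1 (n13 hd))
        simp only [one_mul, mul_one, Nat.cast_pow] at h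
        exact h
      · have c3 : Nat.Coprime p D3 := Nat.Coprime.coprime_dvd_left hd hD.c23
        have h := sub_le (g1 := 1) (g2 := p) (g3 := 1) (Y := Y) hc one_pos hp0 one_pos
          (Nat.coprime_one_left _) hco (Nat.coprime_one_left _) c3 (Nat.coprime_one_left _)
          (Nat.coprime_one_right _) hY1 (by rwa [mul_one]) hV (A2 p) (fun t ht => by
            obtain ⟨g1, g2⟩ := hmem t ht
            refine ⟨g1, by rw [one_mul]; exact g1.d1, ?_, by rw [one_mul]; exact g1.d3⟩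
            rcases g2 with g2 | g2 | g2
            · exact absurd hd (n12 g2.1)
            · exact g2.2
            · exact absurd g2.1 (n23 hd))
        simp only [one_mul, mul_one, Nat.cast_pow] at h
        exact h
    · have c2 : Nat.Coprime p D2 := Nat.Coprime.coprime_dvd_left hd hD.c23.symm
      have h := sub_le (g1 := 1) (g2 := 1) (g3 := p) (Y := Y) hc one_pos one_pos hp0
        (Nat.coprime_one_left _) (Nat.coprime_one_left _) hco (Nat.coprime_one_left _) c2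
        (Nat.coprime_one_left _) hY1 (by rwa [one_mul]) hV (A2 p) (fun t ht => by
          obtain ⟨g1, g2⟩ := hmem t ht
          refine ⟨g1, by rw [one_mul]; exact g1.d1, by rw [one_mul]; exact g1.d2, ?_⟩
          rcases g2 with g2 | g2 | g2
          · exact absurd hd (n13 g2.1)
          · exact absurd hd (n23 g2.1)
          · exact g2.2)
      simp only [one_mul, mul_one, Nat.cast_pow] at h
      exact h
  have hcop3 : ∀ p, p.Prime → ¬ p ∣ D1 * D2 * D3 → Nat.Coprime p D1 ∧ Nat.Coprime p D2 ∧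
      Nat.Coprime p D3 := by
    intro p hp hn
    refine ⟨(Nat.Prime.coprime_iff_not_dvd hp).2 fun h => hn ((h.mul_right _).mul_right _),
      (Nat.Prime.coprime_iff_not_dvd hp).2 fun h => hn ((h.mul_left _).mul_right _),
      (Nat.Prime.coprime_iff_not_dvd hp).2 fun h => hn (h.mul_left _)⟩
  have b3 : ∀ p ∈ I3, ((A3 p).card : ℝ) ≤ b * (1 / (p : ℝ) ^ 2) := by
    intro p hp
    rw [mem_filter] at hp
    obtain ⟨hpP, hn⟩ := hp
    have hpp := (hP p hpP).1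
    obtain ⟨c1, c2, c3⟩ := hcop3 p hpp hn
    have hco := Nat.Coprime.pow_left 2 (cop_2Q0 hpp (hbig p hpP))
    have hpY : p ^ 2 ≤ Y ^ 2 := Nat.pow_le_pow_left (hP p hpP).2.2 2
    have hp0 : 0 < p ^ 2 := by have := hpp.pos; positivity
    have h := sub_le (g1 := p ^ 2) (g2 := 1) (g3 := 1) (Y := Y) hc hp0 one_pos one_pos
        hco (Nat.coprime_one_left _) (Nat.coprime_one_left _) (Nat.coprime_one_left _)
        (Nat.coprime_one_left _) (Nat.coprime_one_right _) hpY (by rw [mul_one]; exact hY1) hV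
        (A3 p) (fun t ht => by
          have g1 := (hMm t).1 (mem_filter.1 ht).1
          exact ⟨g1, Nat.Coprime.mul_dvd_of_dvd_of_dvd (Nat.Coprime.pow_left 2 c1)
            (mem_filter.1 ht).2 g1.d1, by rw [one_mul]; exact g1.d2, by rw [one_mul]; exact g1.d3⟩)
    simp only [one_mul, mul_one, Nat.cast_pow] at h
    exact h
  have b4 : ∀ p ∈ I3, ((A4 p).card : ℝ) ≤ b * (1 / (p : ℝ) ^ 2) := by
    intro p hp
    rw [mem_filter] at hp
    obtain ⟨hpP, hn⟩ := hp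
    have hpp := (hP p hpP).1
    obtain ⟨c1, c2, c3⟩ := hcop3 p hpp hn
    have hco := Nat.Coprime.pow_left 2 (cop_2Q0 hpp (hbig p hpP))
    have hpY : p ^ 2 ≤ Y ^ 2 := Nat.pow_le_pow_left (hP p hpP).2.2 2
    have hp0 : 0 < p ^ 2 := by have := hpp.pos; positivity
    have h := sub_le (g1 := 1) (g2 := p ^ 2) (g3 := 1) (Y := Y) hc one_pos hp0 one_pos
        (Nat.coprime_one_left _) hco (Nat.coprime_one_left _) (Nat.Coprime.pow_left 2 c3)
        (Nat.coprime_one_left _) (Nat.coprime_one_right _) hY1 (by rwa [mul_one]) hV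
        (A4 p) (fun t ht => by
          have g1 := (hMm t).1 (mem_filter.1 ht).1
          exact ⟨g1, by rw [one_mul]; exact g1.d1, Nat.Coprime.mul_dvd_of_dvd_of_dvd
            (Nat.Coprime.pow_left 2 c2) (mem_filter.1 ht).2 g1.d2, by rw [one_mul]; exact g1.d3⟩)
    simp only [one_mul, mul_one, Nat.cast_pow] at h
    exact h
  have b5 : ∀ p ∈ I3, ((A5 p).card : ℝ) ≤ b * (1 / (p : ℝ) ^ 2) := by
    intro p hp
    rw [mem_filter] at hp
    obtain ⟨hpP, hn⟩ := hp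
    have hpp := (hP p hpP).1
    obtain ⟨c1, c2, c3⟩ := hcop3 p hpp hn
    have hco := Nat.Coprime.pow_left 2 (cop_2Q0 hpp (hbig p hpP))
    have hpY : p ^ 2 ≤ Y ^ 2 := Nat.pow_le_pow_left (hP p hpP).2.2 2
    have hp0 : 0 < p ^ 2 := by have := hpp.pos; positivity
    have h := sub_le (g1 := 1) (g2 := 1) (g3 := p ^ 2) (Y := Y) hc one_pos one_pos hp0
        (Nat.coprime_one_left _) (Nat.coprime_one_left _) hco (Nat.coprime_one_left _)
        (Nat.Coprime.pow_left 2 c2) (Nat.coprime_one_left _) hY1 (by rwa [one_mul]) hV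
        (A5 p) (fun t ht => by
          have g1 := (hMm t).1 (mem_filter.1 ht).1
          exact ⟨g1, by rw [one_mul]; exact g1.d1, by rw [one_mul]; exact g1.d2,
            Nat.Coprime.mul_dvd_of_dvd_of_dvd (Nat.Coprime.pow_left 2 c3) (mem_filter.1 ht).2
            g1.d3⟩)
    simp only [one_mul, mul_one, Nat.cast_pow] at h
    exact h
  have b6 : ∀ p ∈ I4, ((A1 p).card : ℝ) ≤ b * (1 / (p : ℝ) ^ 2) := by
    intro p hp
    rw [mem_filter, mem_Ioc] at hp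
    obtain ⟨⟨h64, hpY⟩, hpp, hn⟩ := hp
    obtain ⟨c1, c2, c3⟩ := hcop3 p hpp hn
    have hco := cop_2Q0 hpp h64
    have h := sub_le (g1 := p) (g2 := p) (g3 := 1) (Y := Y) hc hpp.pos hpp.pos one_pos
        hco hco (Nat.coprime_one_left _) c3
        (Nat.coprime_one_left _) (Nat.coprime_one_right _) (hpY.trans hYle)
        (by rw [mul_one]; exact hpY.trans hYle) hV
        (A1 p) (fun t ht => by
          have g1 := (hMm t).1 (mem_filter.1 ht).1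
          have g2 := (mem_filter.1 ht).2
          exact ⟨g1, Nat.Coprime.mul_dvd_of_dvd_of_dvd c1 g2.1 g1.d1,
            Nat.Coprime.mul_dvd_of_dvd_of_dvd c2 g2.2 g1.d2, by rw [one_mul]; exact g1.d3⟩)
    have e1 : ((p * p * 1 : ℕ) : ℝ) = (p : ℝ) ^ 2 := by push_cast; ring
    rw [e1] at h
    exact h
  have b7 : ∀ p ∈ I5, ((A1 p).card : ℝ) ≤ 3 * (H : ℝ) ^ 2 / V * (1 / (p : ℝ) ^ 2) +
      3 * H * (1 / (p : ℝ)) := by
    intro p hp
    rw [mem_filter, mem_Ioc] at hp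
    obtain ⟨⟨hYp, -⟩, hpp, hn⟩ := hp
    exact tail_le hc hpp (by omega) hn (A1 p) (fun t ht =>
      ⟨(hMm t).1 (mem_filter.1 ht).1, (mem_filter.1 ht).2⟩)
  -- sums
  have s1 : ∑ p ∈ PF, b * (1 / (p : ℝ)) ≤ b / 1024 := by
    have h1 : ∀ p ∈ PF, b * (1 / (p : ℝ)) ≤ b * (1 / (y : ℝ)) := by
      intro p hp
      apply mul_le_mul_of_nonneg_left _ hb0
      apply one_div_le_one_div_of_le hyR
      exact_mod_cast (hP p (hPFP p hp)).2.1.le
    refine (Finset.sum_le_sum h1).trans ?_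
    rw [Finset.sum_const, nsmul_eq_mul]
    have hcard : PF.card = k := hD.card
    rw [hcard]
    have h2 : (1024 : ℝ) * k ≤ y := by exact_mod_cast hk
    have h3 : (k : ℝ) * (1 / (y : ℝ)) ≤ 1 / 1024 := by
      rw [mul_one_div, div_le_div_iff₀ hyR (by norm_num)]
      linarith
    calc (k : ℝ) * (b * (1 / (y : ℝ))) = b * (k * (1 / (y : ℝ))) := by ring
      _ ≤ b * (1 / 1024) := mul_le_mul_of_nonneg_left h3 hb0
      _ = b / 1024 := by ring
  have s3 : ∑ p ∈ I3, b * (1 / (p : ℝ) ^ 2) ≤ b / 1024 := by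
    rw [← Finset.mul_sum]
    have h1 : ∑ p ∈ I3, 1 / (p : ℝ) ^ 2 ≤ ∑ p ∈ Ioc y Y, 1 / (p : ℝ) ^ 2 := by
      apply Finset.sum_le_sum_of_subset_of_nonneg
      · intro p hp
        have := (hP p (mem_filter.1 hp).1).2
        exact mem_Ioc.2 this
      · intro p _ _
        positivity
    have h2 := sum_sq_le y Y (by omega)
    have h3 : 1 / (y : ℝ) ≤ 1 / 1024 := by
      apply one_div_le_one_div_of_le (by norm_num)
      exact_mod_cast hy
    calc b * ∑ p ∈ I3, 1 / (p : ℝ) ^ 2 ≤ b * (1 / 1024) :=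
          mul_le_mul_of_nonneg_left (h1.trans (h2.trans h3)) hb0
      _ = b / 1024 := by ring
  have s6 : ∑ p ∈ I4, b * (1 / (p : ℝ) ^ 2) ≤ b / 64 := by
    rw [← Finset.mul_sum]
    have h1 : ∑ p ∈ I4, 1 / (p : ℝ) ^ 2 ≤ ∑ p ∈ Ioc 64 Y, 1 / (p : ℝ) ^ 2 := by
      apply Finset.sum_le_sum_of_subset_of_nonneg (filter_subset _ _)
      intro p _ _
      positivity
    have h2 := sum_sq_le 64 Y (by omega)
    calc b * ∑ p ∈ I4, 1 / (p : ℝ) ^ 2 ≤ b * (1 / ((64 : ℕ) : ℝ)) :=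
          mul_le_mul_of_nonneg_left (h1.trans h2) hb0
      _ = b / 64 := by push_cast; ring
  have s7 : ∑ p ∈ I5, (3 * (H : ℝ) ^ 2 / V * (1 / (p : ℝ) ^ 2) + 3 * H * (1 / (p : ℝ))) ≤
      b * (11 / 1024) := by
    rw [Finset.sum_add_distrib, ← Finset.mul_sum, ← Finset.mul_sum]
    have h1 : ∑ p ∈ I5, 1 / (p : ℝ) ^ 2 ≤ 1 / (Y : ℝ) := by
      refine le_trans ?_ (sum_sq_le Y (2 * H) (by omega))
      apply Finset.sum_le_sum_of_subset_of_nonneg (filter_subset _ _)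
      intro p _ _
      positivity
    have h2 : ∑ p ∈ I5, 1 / (p : ℝ) ≤ 1 + Real.log ((2 * H : ℕ) : ℝ) := by
      refine le_trans ?_ (sum_inv_le Y (2 * H))
      apply Finset.sum_le_sum_of_subset_of_nonneg (filter_subset _ _)
      intro p _ _
      positivity
    have hYR : (0 : ℝ) < Y := by exact_mod_cast hYpos
    have hYQ : 1024 * (Q0 : ℝ) ^ 2 ≤ Y := by exact_mod_cast hY
    have h3 : 3 * (H : ℝ) ^ 2 / V * ∑ p ∈ I5, 1 / (p : ℝ) ^ 2 ≤ b * (3 / 2048) := by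
      calc 3 * (H : ℝ) ^ 2 / V * ∑ p ∈ I5, 1 / (p : ℝ) ^ 2 ≤ 3 * (H : ℝ) ^ 2 / V * (1 / (Y : ℝ)) :=
            mul_le_mul_of_nonneg_left h1 (by positivity)
        _ ≤ 3 * (H : ℝ) ^ 2 / V * (1 / (1024 * (Q0 : ℝ) ^ 2)) := by
            apply mul_le_mul_of_nonneg_left _ (by positivity)
            exact one_div_le_one_div_of_le (by positivity) hYQ
        _ = b * (3 / 2048) := by
            rw [hb]
            field_simp
            ring
    have h4 : 3 * (H : ℝ) * ∑ p ∈ I5, 1 / (p : ℝ) ≤ b * (3 / 1024) := by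
      have h5 : 1 + Real.log ((2 * H : ℕ) : ℝ) ≤ H / (512 * (Q0 : ℝ) ^ 2 * V) := by
        rw [le_div_iff₀ (by positivity)]
        linarith
      calc 3 * (H : ℝ) * ∑ p ∈ I5, 1 / (p : ℝ) ≤ 3 * (H : ℝ) * (H / (512 * (Q0 : ℝ) ^ 2 * V)) :=
            mul_le_mul_of_nonneg_left (h2.trans h5) (by positivity)
        _ = b * (3 / 1024) := by
            rw [hb]
            field_simp
            ring
    linarith
  -- conclusion
  have hcard := (card_le_card hcov).trans ((card_union_le _ _).trans (Nat.add_le_add_left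
    ((card_union_le _ _).trans (Nat.add_le_add card_biUnion_le
    ((card_union_le _ _).trans (Nat.add_le_add card_biUnion_le
    ((card_union_le _ _).trans (Nat.add_le_add card_biUnion_le
    ((card_union_le _ _).trans (Nat.add_le_add card_biUnion_le
    ((card_union_le _ _).trans (Nat.add_le_add card_biUnion_le
    ((card_union_le _ _).trans (Nat.add_le_add card_biUnion_le card_biUnion_le)))))))))))) _))
  have hcardR : (M.card : ℝ) ≤ ((TG H P (D1, D2, D3) e).card : ℝ) +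
      ((∑ p ∈ PF, ((A1 p).card : ℝ)) + ((∑ p ∈ PF, ((A2 p).card : ℝ)) +
      ((∑ p ∈ I3, ((A3 p).card : ℝ)) + ((∑ p ∈ I3, ((A4 p).card : ℝ)) +
      ((∑ p ∈ I3, ((A5 p).card : ℝ)) + ((∑ p ∈ I4, ((A1 p).card : ℝ)) +
      (∑ p ∈ I5, ((A1 p).card : ℝ)))))))) := by exact_mod_cast hcard
  have t1 := (Finset.sum_le_sum b1).trans s1
  have t2 := (Finset.sum_le_sum b2).trans s1
  have t3 := (Finset.sum_le_sum b3).trans s3
  have t4 := (Finset.sum_le_sum b4).trans s3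
  have t5 := (Finset.sum_le_sum b5).trans s3
  have t6 := (Finset.sum_le_sum b6).trans s6
  have t7 := (Finset.sum_le_sum b7).trans s7
  have e1 : (H : ℝ) ^ 2 / (16 * (Q0 : ℝ) ^ 2 * V) = b / 32 := by
    rw [hb]
    field_simp
    ring
  rw [e1]
  linarith

end Pool.Agent.X4.RST
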