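import Mathlib
import Pool.Agent.Erdos456.Mertens

/-!
# The sum of `1 / (p log p)` over the primes in an interval
-/

set_option autoImplicit false

namespace Pool.Agent.X4.RST

open Finset Filter

/-- the sum of `1 / (p log p)` over the primes in `(y, N]` -/
noncomputable def PS (y N : ℕ) : ℝ :=
  ∑ p ∈ (Finset.Ioc y N).filter Nat.Prime, 1 / ((p : ℝ) * Real.log p)

/-- the sum of `log p / p` -/
noncomputable def AA (N : ℕ) : ℝ := ∑ p ∈ (Finset.Icc 1 N).filter Nat.Prime, Real.log p / p

theorem PS_self (y : ℕ) : PS y y = 0 := by simp [PS]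

theorem PS_succ {y N : ℕ} (h : y ≤ N) :
    PS y (N + 1) = PS y N + (AA (N + 1) - AA N) * (1 / Real.log ((N + 1 : ℕ) : ℝ) ^ 2) := by
  unfold PS AA
  have e1 : Finset.Ioc y (N + 1) = insert (N + 1) (Finset.Ioc y N) := by
    ext x; simp only [Finset.mem_Ioc, Finset.mem_insert]; omega
  have e2 : Finset.Icc 1 (N + 1) = insert (N + 1) (Finset.Icc 1 N) := by
    ext x; simp only [Finset.mem_Icc, Finset.mem_insert]; omega
  rw [e1, e2, Finset.filter_insert, Finset.filter_insert]
  by_cases hp : (N + 1).Prime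
  · rw [if_pos hp, if_pos hp, Finset.sum_insert (by simp), Finset.sum_insert (by simp)]
    have h1 : (1 : ℝ) < ((N + 1 : ℕ) : ℝ) := by exact_mod_cast hp.one_lt
    have h2 : 0 < Real.log ((N + 1 : ℕ) : ℝ) := Real.log_pos h1
    have h3 : (0 : ℝ) < ((N + 1 : ℕ) : ℝ) := by linarith
    field_simp
    ring
  · rw [if_neg hp, if_neg hp, sub_self, zero_mul, add_zero]

theorem bounds : ∃ C : ℝ, 0 ≤ C ∧ ∀ y N : ℕ, 2 ≤ y → y ≤ N →
    PS y N ≤ 1 / Real.log y - 1 / Real.log N + 2 * C / Real.log y ^ 2 ∧
    Real.log y / Real.log ((y + 1 : ℕ) : ℝ) * (1 / Real.log y - 1 / Real.log N) -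
      2 * C / Real.log y ^ 2 ≤ PS y N := by
  obtain ⟨C, hC⟩ := Pool.Agent.Erdos456.Mert.mertens_log
  have hC0 : 0 ≤ C := (abs_nonneg _).trans (hC 1 le_rfl)
  have hE : ∀ N : ℕ, 1 ≤ N → AA N - Real.log N ≤ C ∧ -C ≤ AA N - Real.log N := by
    intro N hN
    have := abs_le.1 (hC N hN)
    exact ⟨this.2, this.1⟩
  refine ⟨C, hC0, ?_⟩
  intro y N hy hN
  have hly : 0 < Real.log y := Real.log_pos (by exact_mod_cast (by omega : 1 < y))
  set ρ : ℝ := Real.log y / Real.log ((y + 1 : ℕ) : ℝ) with hρ
  -- stronger statements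
  have key : PS y N ≤ 1 / Real.log y - 1 / Real.log N +
      (AA N - Real.log N - C) * (1 / Real.log N ^ 2) + 2 * C / Real.log y ^ 2 ∧
      ρ * (1 / Real.log y - 1 / Real.log N) +
      (AA N - Real.log N + C) * (1 / Real.log N ^ 2) - 2 * C / Real.log y ^ 2 ≤ PS y N := by
    induction N, hN using Nat.le_induction with
    | base =>
      rw [PS_self, sub_self, mul_zero]
      obtain ⟨h1, h2⟩ := hE y (by omega)
      have h3 : 0 < 1 / Real.log y ^ 2 := by positivity
      constructor
      · have : (AA y - Real.log y - C) * (1 / Real.log y ^ 2) + 2 * C / Real.log y ^ 2 =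
            (AA y - Real.log y + C) * (1 / Real.log y ^ 2) := by ring
        have h4 : 0 ≤ (AA y - Real.log y + C) * (1 / Real.log y ^ 2) :=
          mul_nonneg (by linarith) h3.le
        linarith
      · have : (AA y - Real.log y + C) * (1 / Real.log y ^ 2) - 2 * C / Real.log y ^ 2 =
            (AA y - Real.log y - C) * (1 / Real.log y ^ 2) := by ring
        have h4 : (AA y - Real.log y - C) * (1 / Real.log y ^ 2) ≤ 0 :=
          mul_nonpos_of_nonpos_of_nonneg (by linarith) h3.le
        linarith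
    | succ N hN ih =>
      have hNpos : 0 < Real.log N := Real.log_pos (by exact_mod_cast (by omega : 1 < N))
      have hNN : Real.log N < Real.log ((N + 1 : ℕ) : ℝ) := by
        apply Real.log_lt_log
        · exact_mod_cast (by omega : 0 < N)
        · exact_mod_cast Nat.lt_succ_self N
      have hN1 : 0 < Real.log ((N + 1 : ℕ) : ℝ) := hNpos.trans hNN
      obtain ⟨i1, i2⟩ := ih
      obtain ⟨h1, h2⟩ := hE N (by omega)
      rw [PS_succ hN]
      set u : ℝ := Real.log N with hu
      set v : ℝ := Real.log ((N + 1 : ℕ) : ℝ) with hv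
      have hg : 1 / v ^ 2 ≤ 1 / u ^ 2 := by
        apply one_div_le_one_div_of_le (by positivity)
        gcongr
      have hstep1 : (v - u) * (1 / v ^ 2) ≤ 1 / u - 1 / v := by
        have : 1 / u - 1 / v = (v - u) * (1 / (u * v)) := by field_simp
        rw [this]
        apply mul_le_mul_of_nonneg_left _ (by linarith)
        apply one_div_le_one_div_of_le (by positivity)
        nlinarith
      have hstep2 : ρ * (1 / u - 1 / v) ≤ (v - u) * (1 / v ^ 2) := by
        have e : 1 / u - 1 / v = (v - u) * (1 / (u * v)) := by field_simp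
        have e2 : (v - u) * (1 / v ^ 2) = u / v * ((v - u) * (1 / (u * v))) := by field_simp
        rw [e, e2]
        apply mul_le_mul_of_nonneg_right
        · -- `log y / log (y+1) ≤ log N / log (N+1)`
          have hyp : (0 : ℝ) < y := by exact_mod_cast (by omega : 0 < y)
          have hly1 : 0 < Real.log ((y + 1 : ℕ) : ℝ) := Real.log_pos (by
            exact_mod_cast (by omega : 1 < y + 1))
          have hlyu : Real.log y ≤ u := Real.log_le_log hyp (by exact_mod_cast hN)
          -- `log (1 + 1/n)` decreasing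
          have hd : v - u ≤ Real.log ((y + 1 : ℕ) : ℝ) - Real.log y := by
            have hNp : (0 : ℝ) < N := by exact_mod_cast (by omega : 0 < N)
            rw [hv, hu, ← Real.log_div (by positivity) hNp.ne', ← Real.log_div (by positivity)
              hyp.ne']
            apply Real.log_le_log (by positivity)
            push_cast
            rw [add_div, add_div, div_self hNp.ne', div_self hyp.ne']
            have : (y : ℝ) ≤ N := by exact_mod_cast hN
            have := one_div_le_one_div_of_le hyp this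
            linarith
          rw [hρ, div_le_div_iff₀ hly1 hN1]
          have h5 : Real.log y * (v - u) ≤ u * (Real.log ((y + 1 : ℕ) : ℝ) - Real.log y) := by
            apply mul_le_mul hlyu hd (by linarith) hNpos.le
          linarith
        · apply mul_nonneg (by linarith)
          positivity
      constructor
      · have hneg : 0 ≤ (AA N - u - C) * (1 / v ^ 2 - 1 / u ^ 2) := by
          apply mul_nonneg_of_nonpos_of_nonpos <;> linarith
        have e3 : (AA (N + 1) - AA N) * (1 / v ^ 2) = (v - u) * (1 / v ^ 2) +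
            (AA (N + 1) - v - C) * (1 / v ^ 2) - (AA N - u - C) * (1 / u ^ 2) -
            (AA N - u - C) * (1 / v ^ 2 - 1 / u ^ 2) := by ring
        rw [e3]
        linarith
      · have hneg : (AA N - u + C) * (1 / v ^ 2 - 1 / u ^ 2) ≤ 0 := by
          apply mul_nonpos_of_nonneg_of_nonpos <;> linarith
        have e3 : (AA (N + 1) - AA N) * (1 / v ^ 2) = (v - u) * (1 / v ^ 2) +
            (AA (N + 1) - v + C) * (1 / v ^ 2) - (AA N - u + C) * (1 / u ^ 2) -
            (AA N - u + C) * (1 / v ^ 2 - 1 / u ^ 2) := by ring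
        have e4 : ρ * (1 / Real.log y - 1 / v) = ρ * (1 / Real.log y - 1 / u) +
            ρ * (1 / u - 1 / v) := by ring
        rw [e3, e4]
        linarith
  obtain ⟨h1, h2⟩ := hE N (by omega)
  have hNpos : 0 < Real.log N := Real.log_pos (by exact_mod_cast (by omega : 1 < N))
  have h3 : 0 < 1 / Real.log N ^ 2 := by positivity
  constructor
  · have h4 : (AA N - Real.log N - C) * (1 / Real.log N ^ 2) ≤ 0 :=
      mul_nonpos_of_nonpos_of_nonneg (by linarith) h3.le
    linarith [key.1]
  · have h4 : 0 ≤ (AA N - Real.log N + C) * (1 / Real.log N ^ 2) :=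
      mul_nonneg (by linarith) h3.le
    linarith [key.2]

theorem tendsto_log_nat : Tendsto (fun y : ℕ => Real.log (y : ℝ)) atTop atTop :=
  Real.tendsto_log_atTop.comp tendsto_natCast_atTop_atTop

/-- the tail -/
theorem PS_tail (ε : ℝ) (hε : 0 < ε) : ∀ᶠ y : ℕ in atTop, ∀ N : ℕ, PS y N ≤ (1 + ε) / Real.log y := by
  obtain ⟨C, hC, h⟩ := bounds
  filter_upwards [tendsto_log_nat.eventually_ge_atTop (2 * C / ε), eventually_ge_atTop 2,
    tendsto_log_nat.eventually_gt_atTop 0] with y h1 h2 h3 N
  rcases le_or_gt y N with hN | hN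
  · refine (h y N h2 hN).1.trans ?_
    have h4 : 0 ≤ 1 / Real.log N := by
      apply one_div_nonneg.2
      exact Real.log_nonneg (by exact_mod_cast (by omega : 1 ≤ N))
    have h5 : 2 * C / Real.log y ^ 2 ≤ ε / Real.log y := by
      rw [div_le_iff₀ hε] at h1
      rw [sq, ← div_div]
      apply div_le_div_of_nonneg_right _ h3.le
      rw [div_le_iff₀ h3]
      linarith
    have h6 : (1 + ε) / Real.log y = 1 / Real.log y + ε / Real.log y := by ring
    linarith
  · have : PS y N = 0 := by
      unfold PS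
      rw [Finset.Ioc_eq_empty (by omega), Finset.filter_empty, Finset.sum_empty]
    rw [this]
    positivity

/-- the lower bound -/
theorem PS_low (ε : ℝ) (hε : 0 < ε) (A : ℕ) (hA : 1 ≤ A) :
    ∀ᶠ y : ℕ in atTop, (1 - 1 / (A : ℝ) - ε) / Real.log y ≤ PS y (y ^ A) := by
  obtain ⟨C, hC, h⟩ := bounds
  filter_upwards [tendsto_log_nat.eventually_ge_atTop (2 * C / (ε / 2)), eventually_ge_atTop 2,
    tendsto_log_nat.eventually_gt_atTop 0,
    tendsto_log_nat.eventually_ge_atTop (1 / (ε / 2))] with y h1 h2 h3 h7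
  have hyA : y ≤ y ^ A := Nat.le_self_pow (by omega) y
  refine le_trans ?_ (h y (y ^ A) h2 hyA).2
  have hA0 : (0 : ℝ) < A := by exact_mod_cast hA
  have hyp : (0 : ℝ) < y := by exact_mod_cast (by omega : 0 < y)
  have e1 : Real.log ((y ^ A : ℕ) : ℝ) = A * Real.log y := by
    push_cast
    rw [Real.log_pow]
  rw [e1]
  have h5 : 2 * C / Real.log y ^ 2 ≤ (ε / 2) / Real.log y := by
    rw [div_le_iff₀ (by positivity)] at h1
    rw [sq, ← div_div]
    apply div_le_div_of_nonneg_right _ h3.le
    rw [div_le_iff₀ h3]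
    linarith
  -- `ρ ≥ 1 - ε / 2`
  have hly1 : Real.log y < Real.log ((y + 1 : ℕ) : ℝ) := by
    apply Real.log_lt_log hyp
    exact_mod_cast Nat.lt_succ_self y
  have hd : Real.log ((y + 1 : ℕ) : ℝ) - Real.log y ≤ 1 := by
    rw [← Real.log_div (by positivity) hyp.ne']
    have : ((y + 1 : ℕ) : ℝ) / y ≤ 2 := by
      rw [div_le_iff₀ hyp]
      push_cast
      have : (1 : ℝ) ≤ y := by exact_mod_cast (by omega : 1 ≤ y)
      linarith
    calc Real.log (((y + 1 : ℕ) : ℝ) / y) ≤ Real.log 2 := Real.log_le_log (by positivity) this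
      _ ≤ 1 := by have := Real.log_two_lt_d9; linarith
  have hρ : 1 - ε / 2 ≤ Real.log y / Real.log ((y + 1 : ℕ) : ℝ) := by
    rw [le_div_iff₀ (h3.trans hly1)]
    have h8 : 1 ≤ ε / 2 * Real.log ((y + 1 : ℕ) : ℝ) := by
      rw [div_le_iff₀ (by positivity)] at h7
      have := mul_lt_mul_of_pos_left hly1 (show 0 < ε / 2 by positivity)
      linarith
    nlinarith
  have hpos : 0 ≤ 1 / Real.log y - 1 / (A * Real.log y) := by
    rw [sub_nonneg]
    apply one_div_le_one_div_of_le h3
    have : (1 : ℝ) ≤ A := by exact_mod_cast hA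
    nlinarith
  have h9 := mul_le_mul_of_nonneg_right hρ hpos
  have e2 : (1 - ε / 2) * (1 / Real.log y - 1 / (A * Real.log y)) =
      (1 - 1 / (A : ℝ)) / Real.log y - (ε / 2) * ((1 - 1 / (A : ℝ)) / Real.log y) := by
    field_simp
  have h10 : (1 - 1 / (A : ℝ)) / Real.log y ≤ 1 / Real.log y := by
    apply div_le_div_of_nonneg_right _ h3.le
    have : 0 < 1 / (A : ℝ) := by positivity
    linarith
  have h11 := mul_le_mul_of_nonneg_left h10 (show 0 ≤ ε / 2 by positivity)
  have e3 : (1 - 1 / (A : ℝ) - ε) / Real.log y = (1 - 1 / (A : ℝ)) / Real.log y -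
      ε / 2 * (1 / Real.log y) - (ε / 2) / Real.log y := by ring
  rw [e3]
  linarith

/-- Chebyshev -/
theorem pi_le : ∃ C : ℝ, 0 < C ∧ ∀ y : ℕ, 2 ≤ y →
    (((Finset.Icc 1 y).filter Nat.Prime).card : ℝ) ≤ C * y / Real.log y := by
  refine ⟨2 * (Real.log 4 + 2), by have := Real.log_pos (show (1:ℝ) < 4 by norm_num); positivity, ?_⟩
  intro y hy
  have hyp : (0 : ℝ) < y := by exact_mod_cast (by omega : 0 < y)
  have hy1 : (1 : ℝ) < y := by exact_mod_cast (by omega : 1 < y)
  have hly : 0 < Real.log y := Real.log_pos hy1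
  rw [le_div_iff₀ hly]
  have h1 : (((Finset.Icc 1 y).filter Nat.Prime).card : ℝ) * Real.log y ≤
      2 * (Chebyshev.theta y + Real.sqrt y * Real.log y) := by
    have h2 : Chebyshev.theta y = ∑ p ∈ (Finset.Icc 1 y).filter Nat.Prime, Real.log p := by
      rw [Chebyshev.theta, Nat.floor_natCast]
      rfl
    have h3 : ∀ p ∈ (Finset.Icc 1 y).filter Nat.Prime, Real.log y ≤
        2 * Real.log p + if (p : ℝ) ≤ Real.sqrt y then Real.log y else 0 := by
      intro p hp
      rw [Finset.mem_filter, Finset.mem_Icc] at hp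
      have hp0 : (0 : ℝ) < p := by exact_mod_cast hp.2.pos
      split_ifs with h
      · have : 0 ≤ Real.log p := Real.log_nonneg (by exact_mod_cast hp.2.one_lt.le)
        linarith
      · rw [not_le] at h
        have h4 : (y : ℝ) ≤ (p : ℝ) ^ 2 := by
          have := Real.sq_sqrt hyp.le
          rw [← this]
          gcongr
        have := Real.log_le_log hyp h4
        rw [Real.log_pow] at this
        push_cast at this
        linarith
    have h5 := Finset.sum_le_sum h3
    rw [Finset.sum_const, nsmul_eq_mul, Finset.sum_add_distrib, ← Finset.mul_sum, ← h2] at h5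
    have h6 : ∑ p ∈ (Finset.Icc 1 y).filter Nat.Prime,
        (if (p : ℝ) ≤ Real.sqrt y then Real.log y else 0) ≤ Real.sqrt y * Real.log y := by
      rw [← Finset.sum_filter, Finset.sum_const, nsmul_eq_mul]
      apply mul_le_mul_of_nonneg_right _ hly.le
      have h7 : (((Finset.Icc 1 y).filter Nat.Prime).filter fun p : ℕ => (p : ℝ) ≤ Real.sqrt y) ⊆
          Finset.Icc 1 ⌊Real.sqrt y⌋₊ := by
        intro p hp
        rw [Finset.mem_filter, Finset.mem_filter, Finset.mem_Icc] at hp
        rw [Finset.mem_Icc]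
        exact ⟨hp.1.1.1, Nat.le_floor hp.2⟩
      have h8 := Finset.card_le_card h7
      rw [Nat.card_Icc, Nat.add_sub_cancel] at h8
      calc ((((Finset.Icc 1 y).filter Nat.Prime).filter
            fun p : ℕ => (p : ℝ) ≤ Real.sqrt y).card : ℝ) ≤ (⌊Real.sqrt y⌋₊ : ℝ) := by
            exact_mod_cast h8
        _ ≤ Real.sqrt y := Nat.floor_le (Real.sqrt_nonneg _)
    have h9 : 0 ≤ Real.sqrt y * Real.log y := by positivity
    linarith
  have h2 := Chebyshev.theta_le_log4_mul_x (x := (y : ℝ)) hyp.le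
  have h3 : Real.sqrt y * Real.log y ≤ 2 * y := by
    have h4 : Real.log (Real.sqrt y) ≤ Real.sqrt y - 1 := Real.log_le_sub_one_of_pos (by positivity)
    rw [Real.log_sqrt hyp.le] at h4
    have h5 : Real.log y ≤ 2 * Real.sqrt y := by linarith
    calc Real.sqrt y * Real.log y ≤ Real.sqrt y * (2 * Real.sqrt y) := by gcongr
      _ = 2 * (Real.sqrt y * Real.sqrt y) := by ring
      _ = 2 * y := by rw [Real.mul_self_sqrt hyp.le]
  calc _ ≤ 2 * (Chebyshev.theta y + Real.sqrt y * Real.log y) := h1
    _ ≤ 2 * (Real.log 4 * y + 2 * y) := by gcongr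
    _ = _ := by ring

end Pool.Agent.X4.RST
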