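import Mathlib
import Pool.Agent.X4.RST.Mert
import Pool.Agent.X4.HC.Omega

/-!
# The sum of `1 / (rad(m) m ^ σ)` for small `σ`
-/

set_option autoImplicit false

namespace Pool.Agent.X4.RST

open Finset Filter Pool.Agent.X4.HC

/-- the Euler factor -/
theorem factor {σ : ℝ} (hσ : 0 < σ) {p : ℕ} (hp : p.Prime) :
    ∑' n : ℕ, wt 1 σ (p ^ n) ≤ 1 + 1 / (σ * (p * Real.log p)) := by
  have hp0 : (0 : ℝ) < p := by exact_mod_cast hp.pos
  have hp2 : (2 : ℝ) ≤ p := by exact_mod_cast hp.two_le
  have hlp : 0 < Real.log p := Real.log_pos (by linarith)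
  obtain ⟨r, hr⟩ : ∃ r : ℝ, r = (p : ℝ) ^ (-σ) := ⟨_, rfl⟩
  have hr0 : 0 < r := by rw [hr]; positivity
  have hr1 : r < 1 := by
    rw [hr]
    exact Real.rpow_lt_one_of_one_lt_of_neg (by linarith) (by linarith)
  have hf : ∀ n : ℕ, wt 1 σ (p ^ (n + 1)) = 1 / p * r * r ^ n := by
    intro n
    rw [wt_prime_pow 1 σ hp, ← hr, pow_succ]
    ring
  have hg : HasSum (fun n : ℕ => wt 1 σ (p ^ (n + 1))) (1 / p * r * (1 - r)⁻¹) := by
    rw [show (fun n : ℕ => wt 1 σ (p ^ (n + 1))) = fun n : ℕ => 1 / p * r * r ^ n from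
      funext hf]
    exact (hasSum_geometric_of_lt_one hr0.le hr1).mul_left _
  have hg2 : HasSum (fun n : ℕ => wt 1 σ (p ^ n)) (1 / p * r * (1 - r)⁻¹ + 1) := by
    have := (hasSum_nat_add_iff (f := fun n : ℕ => wt 1 σ (p ^ n)) 1).1 hg
    rw [Finset.sum_range_one, pow_zero, wt_one] at this
    exact this
  rw [hg2.tsum_eq]
  -- `1 / r ≥ 1 + σ log p`
  have h1 : 1 + σ * Real.log p ≤ 1 / r := by
    rw [hr, Real.rpow_neg hp0.le, one_div, inv_inv, Real.rpow_def_of_pos hp0]
    have := Real.add_one_le_exp (Real.log p * σ)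
    linarith
  have h2 : σ * Real.log p * r ≤ 1 - r := by
    rw [le_div_iff₀ hr0] at h1
    linarith
  have h3 : r * (1 - r)⁻¹ ≤ 1 / (σ * Real.log p) := by
    rw [← div_eq_mul_inv, div_le_div_iff₀ (by linarith) (by positivity)]
    linarith
  have h4 : 1 / (p : ℝ) * r * (1 - r)⁻¹ ≤ 1 / p * (1 / (σ * Real.log p)) := by
    rw [mul_assoc]
    exact mul_le_mul_of_nonneg_left h3 (by positivity)
  have h5 : 1 / (p : ℝ) * (1 / (σ * Real.log p)) = 1 / (σ * (p * Real.log p)) := by
    field_simp
  linarith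

theorem factor_small {L : ℝ} (hL : 0 ≤ L) {p : ℕ} (hp : p.Prime) :
    ∑' n : ℕ, wt 1 (Real.exp (-L)) (p ^ n) ≤ Real.exp (L + 1) := by
  refine (factor (Real.exp_pos _) hp).trans ?_
  have hp2 : (2 : ℝ) ≤ p := by exact_mod_cast hp.two_le
  have hl2 : Real.log 2 ≤ Real.log p := Real.log_le_log (by norm_num) hp2
  have h1 : (1 : ℝ) ≤ p * Real.log p := by
    have := Real.log_two_gt_d9
    nlinarith
  have h2 : 1 / (Real.exp (-L) * (p * Real.log p)) ≤ 1 / (Real.exp (-L) * 1) := by
    apply one_div_le_one_div_of_le (by positivity)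
    exact mul_le_mul_of_nonneg_left h1 (Real.exp_pos _).le
  have h3 : 1 / (Real.exp (-L) * 1) = Real.exp L := by
    rw [mul_one, Real.exp_neg, one_div, inv_inv]
  have h4 : (1 : ℝ) ≤ Real.exp L := Real.one_le_exp hL
  have h5 : (2 : ℝ) ≤ Real.exp 1 := by
    have := Real.add_one_le_exp (1 : ℝ)
    linarith
  rw [Real.exp_add]
  nlinarith

theorem factor_large {L : ℝ} {p : ℕ} (hp : p.Prime) :
    ∑' n : ℕ, wt 1 (Real.exp (-L)) (p ^ n) ≤
      Real.exp (Real.exp L * (1 / ((p : ℝ) * Real.log p))) := by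
  refine (factor (Real.exp_pos _) hp).trans ?_
  have h3 : 1 / (Real.exp (-L) * (p * Real.log p)) = Real.exp L * (1 / ((p : ℝ) * Real.log p)) := by
    rw [Real.exp_neg]
    field_simp
  rw [h3, add_comm]
  exact Real.add_one_le_exp _

/-- the product -/
theorem sum_le {L : ℝ} (hL : 0 ≤ L) (y M : ℕ) :
    ∑ m ∈ Icc 1 M, wt 1 (Real.exp (-L)) m ≤
      Real.exp ((L + 1) * ((Finset.Icc 1 y).filter Nat.Prime).card + Real.exp L * PS y M) := by
  set σ : ℝ := Real.exp (-L) with hσ
  have hσ0 : 0 < σ := Real.exp_pos _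
  obtain ⟨hE1, hE2⟩ := EulerProduct.summable_and_hasSum_smoothNumbers_prod_primesBelow_tsum
    (f := wt 1 σ) (wt_one 1 σ) (fun {m n} h => wt_mul 1 σ h)
    (fun {p} hp => by
      have := (tsum_wt (zero_le_one) hσ0 hp).1
      refine this.congr fun n => ?_
      rw [Real.norm_of_nonneg (wt_nonneg zero_le_one σ _)]) (M + 1)
  have h4 : ∑ m ∈ Icc 1 M, wt 1 σ m ≤
      ∏ p ∈ (M + 1).primesBelow, ∑' n : ℕ, wt 1 σ (p ^ n) := by
    have h5 : ∀ m ∈ Icc 1 M, m ∈ (M + 1).smoothNumbers := by
      intro m hm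
      rw [mem_Icc] at hm
      exact Nat.mem_smoothNumbers_of_lt (by omega) (by omega)
    have h6 : ∑ m ∈ Icc 1 M, wt 1 σ m =
        ∑ x ∈ (Icc 1 M).subtype (fun m => m ∈ (M + 1).smoothNumbers), wt 1 σ (x : ℕ) := by
      rw [Finset.sum_subtype_of_mem (f := wt 1 σ) h5]
    rw [h6]
    exact sum_le_hasSum _ (fun x _ => wt_nonneg zero_le_one σ _) hE2
  refine h4.trans ?_
  set g : ℕ → ℝ := fun p => if p ≤ y then L + 1 else Real.exp L * (1 / ((p : ℝ) * Real.log p))
    with hg
  calc ∏ p ∈ (M + 1).primesBelow, ∑' n : ℕ, wt 1 σ (p ^ n)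
      ≤ ∏ p ∈ (M + 1).primesBelow, Real.exp (g p) := by
        refine Finset.prod_le_prod (fun p hp => tsum_nonneg fun n => wt_nonneg zero_le_one σ _) ?_
        intro p hp
        have hpp := Nat.prime_of_mem_primesBelow hp
        simp only [hg]
        split_ifs
        · exact factor_small hL hpp
        · exact factor_large hpp
    _ = Real.exp (∑ p ∈ (M + 1).primesBelow, g p) := by rw [← Real.exp_sum]
    _ ≤ _ := by
        apply Real.exp_le_exp.2
        have h1 : ∑ p ∈ (M + 1).primesBelow, g p ≤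
            ∑ p ∈ (Finset.Icc 1 y).filter Nat.Prime ∪ (Finset.Ioc y M).filter Nat.Prime, g p := by
          apply Finset.sum_le_sum_of_subset_of_nonneg
          · intro p hp
            have hpp := Nat.prime_of_mem_primesBelow hp
            have hlt := Nat.lt_of_mem_primesBelow hp
            have := hpp.one_lt
            rw [Finset.mem_union, Finset.mem_filter, Finset.mem_filter, Finset.mem_Icc,
              Finset.mem_Ioc]
            rcases le_or_gt p y with h | h
            · exact Or.inl ⟨⟨by omega, h⟩, hpp⟩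
            · exact Or.inr ⟨⟨h, by omega⟩, hpp⟩
          · intro p hp _
            have hpp : p.Prime := by
              rw [Finset.mem_union, Finset.mem_filter, Finset.mem_filter] at hp
              rcases hp with h | h
              · exact h.2
              · exact h.2
            have : 0 < Real.log p := Real.log_pos (by exact_mod_cast hpp.one_lt)
            simp only [hg]
            split_ifs
            · linarith
            · positivity
        refine h1.trans ?_
        rw [Finset.sum_union]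
        · apply add_le_add
          · rw [Finset.sum_congr rfl (g := fun _ => L + 1)]
            · rw [Finset.sum_const, nsmul_eq_mul, mul_comm]
            · intro p hp
              rw [Finset.mem_filter, Finset.mem_Icc] at hp
              simp only [hg]
              rw [if_pos hp.1.2]
          · unfold PS
            rw [Finset.mul_sum]
            apply le_of_eq
            apply Finset.sum_congr rfl
            intro p hp
            rw [Finset.mem_filter, Finset.mem_Ioc] at hp
            simp only [hg]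
            rw [if_neg (by omega)]
        · rw [Finset.disjoint_left]
          intro p hp hp'
          rw [Finset.mem_filter, Finset.mem_Icc] at hp
          rw [Finset.mem_filter, Finset.mem_Ioc] at hp'
          omega

/-- the sum for `σ = e ^ (-L)`, `L` large -/
theorem L1 (ε : ℝ) (hε : 0 < ε) : ∀ᶠ L : ℝ in atTop, ∀ M : ℕ,
    ∑ m ∈ Icc 1 M, wt 1 (Real.exp (-L)) m ≤ Real.exp ((1 + ε) * (Real.exp L / L)) := by
  obtain ⟨C, hC, hpi⟩ := pi_le
  obtain ⟨η, hη0, hη1, hη⟩ : ∃ η : ℝ, 0 < η ∧ η < 1 / 2 ∧ (1 + η) / (1 - η) ≤ 1 + ε / 2 := by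
    refine ⟨min (ε / 8) (1 / 4), by positivity, (min_le_right _ _).trans_lt (by norm_num), ?_⟩
    have h1 := min_le_left (ε / 8) (1 / 4 : ℝ)
    have h2 := min_le_right (ε / 8) (1 / 4 : ℝ)
    have h3 : 0 < min (ε / 8) (1 / 4 : ℝ) := by positivity
    set η := min (ε / 8) (1 / 4 : ℝ)
    rw [div_le_iff₀ (by linarith)]
    nlinarith
  have hyt : Tendsto (fun L : ℝ => ⌊Real.exp L / L ^ 2⌋₊) atTop atTop :=
    tendsto_nat_floor_atTop.comp (Real.tendsto_exp_div_pow_atTop 2)
  have hlog : ∀ᶠ L : ℝ in atTop, 2 * Real.log L + Real.log 2 ≤ η * L := by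
    have h1 : Tendsto (fun L : ℝ => Real.log L / L) atTop (nhds 0) := by
      have := Real.isLittleO_log_id_atTop.tendsto_div_nhds_zero
      simpa using this
    filter_upwards [h1.eventually_lt_const (show 0 < η / 4 by positivity), eventually_gt_atTop 0,
      eventually_ge_atTop (Real.log 2 / (η / 2))] with L h2 h3 h4
    rw [div_lt_iff₀ h3] at h2
    rw [div_le_iff₀ (by positivity)] at h4
    linarith
  filter_upwards [hyt.eventually (PS_tail η hη0), hyt.eventually (eventually_ge_atTop 2), hlog,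
    eventually_ge_atTop 1, eventually_ge_atTop (8 * C / ε),
    (Real.tendsto_exp_div_pow_atTop 2).eventually_ge_atTop 2] with L h1 h2 h3 h4 h5 h6 M
  set y : ℕ := ⌊Real.exp L / L ^ 2⌋₊ with hy
  have hL0 : 0 < L := by linarith
  have hq : 0 < Real.exp L / L ^ 2 := by positivity
  have hyu : (y : ℝ) ≤ Real.exp L / L ^ 2 := Nat.floor_le hq.le
  have hyl : Real.exp L / L ^ 2 / 2 ≤ y := by
    have := Nat.lt_floor_add_one (Real.exp L / L ^ 2)
    rw [← hy] at this
    linarith
  have hly : (1 - η) * L ≤ Real.log y := by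
    have h7 : Real.log (Real.exp L / L ^ 2 / 2) ≤ Real.log y := Real.log_le_log (by positivity) hyl
    rw [Real.log_div (by positivity) (by norm_num), Real.log_div (by positivity) (by positivity),
      Real.log_exp, Real.log_pow] at h7
    push_cast at h7
    linarith
  have hly0 : 0 < Real.log y := lt_of_lt_of_le (mul_pos (by linarith) hL0) hly
  refine (sum_le hL0.le y M).trans ?_
  apply Real.exp_le_exp.2
  have he : 0 < Real.exp L := Real.exp_pos L
  have h8 : Real.exp L * PS y M ≤ (1 + ε / 2) * (Real.exp L / L) := by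
    have h9 : PS y M ≤ (1 + ε / 2) / L := by
      refine (h1 M).trans ?_
      calc (1 + η) / Real.log y ≤ (1 + η) / ((1 - η) * L) := by
            apply div_le_div_of_nonneg_left (by linarith) (mul_pos (by linarith) hL0) hly
        _ = (1 + η) / (1 - η) / L := by rw [div_div]
        _ ≤ _ := by gcongr
    calc Real.exp L * PS y M ≤ Real.exp L * ((1 + ε / 2) / L) :=
          mul_le_mul_of_nonneg_left h9 he.le
      _ = _ := by ring
  have h10 : (L + 1) * (((Finset.Icc 1 y).filter Nat.Prime).card : ℝ) ≤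
      ε / 2 * (Real.exp L / L) := by
    have h11 : (((Finset.Icc 1 y).filter Nat.Prime).card : ℝ) ≤
        C * (Real.exp L / L ^ 2) / (L / 2) := by
      refine (hpi y h2).trans ?_
      apply div_le_div₀ (by positivity)
      · gcongr
      · positivity
      · refine le_trans ?_ hly
        nlinarith
    have h12 : (L + 1) * (((Finset.Icc 1 y).filter Nat.Prime).card : ℝ) ≤
        (2 * L) * (C * (Real.exp L / L ^ 2) / (L / 2)) := by
      apply mul_le_mul (by linarith) h11 (by positivity) (by positivity)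
    refine h12.trans ?_
    have h13 : (2 * L) * (C * (Real.exp L / L ^ 2) / (L / 2)) =
        (4 * C / L) * (Real.exp L / L) := by
      field_simp
      ring
    rw [h13]
    apply mul_le_mul_of_nonneg_right _ (by positivity)
    rw [div_le_iff₀ hL0]
    rw [div_le_iff₀ hε] at h5
    linarith
  have h14 : (1 + ε) * (Real.exp L / L) = ε / 2 * (Real.exp L / L) +
      (1 + ε / 2) * (Real.exp L / L) := by ring
  rw [h14]
  exact add_le_add h10 h8

end Pool.Agent.X4.RST
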