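import Mathlib
import Pool.Agent.X4.RST.Eul
import Pool.Agent.X4.MK.Lat
import Pool.Agent.X4.JB.Cantor
import Pool.Agent.W221.ABC.Main7

/-!
# The upper bound for the number of abc triples with `rad (abc) ≤ c ^ lam`
-/

set_option autoImplicit false

namespace Pool.Agent.X4.RST

open Finset Filter Pool.Agent.X4.HC

/-- the repeated part -/
def wp (n : ℕ) : ℕ := n / rad n

theorem rad_dvd (n : ℕ) : rad n ∣ n := Nat.prod_primeFactors_dvd n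

theorem wp_mul (n : ℕ) : wp n * rad n = n := Nat.div_mul_cancel (rad_dvd n)

theorem wp_pos {n : ℕ} (hn : 0 < n) : 0 < wp n := by
  rcases Nat.eq_zero_or_pos (wp n) with h | h
  · have := wp_mul n
    rw [h, zero_mul] at this
    omega
  · exact h

theorem wp_dvd (n : ℕ) : wp n ∣ n := Dvd.intro _ (wp_mul n)

theorem rad_dvd_rad {m n : ℕ} (hn : n ≠ 0) (h : m ∣ n) : rad m ∣ rad n :=
  Finset.prod_dvd_prod_of_subset _ _ _ (Nat.primeFactors_mono h hn)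

theorem wp_rad_dvd {n : ℕ} (hn : 0 < n) : wp n * rad (wp n) ∣ n := by
  have h1 : rad (wp n) ∣ rad n := rad_dvd_rad hn.ne' (wp_dvd n)
  calc wp n * rad (wp n) ∣ wp n * rad n := Nat.mul_dvd_mul_left _ h1
    _ = n := wp_mul n

theorem rad_mul {m n : ℕ} (h : Nat.Coprime m n) : rad (m * n) = rad m * rad n := by
  unfold rad
  rw [h.primeFactors_mul, Finset.prod_union h.disjoint_primeFactors]

theorem cop3 {a b : ℕ} (h : Nat.Coprime a b) : Nat.Coprime a (a + b) ∧ Nat.Coprime b (a + b) ∧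
    Nat.Coprime (a * b) (a + b) := by
  have h1 : Nat.Coprime a (a + b) := by simpa using h
  have h2 : Nat.Coprime b (a + b) := by simpa using h.symm
  exact ⟨h1, h2, Nat.Coprime.mul_left h1 h2⟩

theorem rad3 {a b : ℕ} (h : Nat.Coprime a b) :
    rad (a * b * (a + b)) = rad a * rad b * rad (a + b) := by
  rw [rad_mul (cop3 h).2.2, rad_mul h]

/-- the number of triples in a box with given divisors -/
theorem fiber {A C : ℝ} (hA : 0 < A) (hC : 0 < C) {D1 D2 D3 : ℕ} (h1 : 0 < D1) (h2 : 0 < D2)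
    (h3 : 0 < D3) (S : Finset (ℕ × ℕ))
    (hS : ∀ t ∈ S, 0 < t.1 ∧ 0 < t.2 ∧ Nat.Coprime t.1 t.2 ∧ (t.1 : ℝ) < 2 * A ∧
      C ≤ ((t.1 + t.2 : ℕ) : ℝ) ∧ ((t.1 + t.2 : ℕ) : ℝ) < 2 * C ∧ D1 ∣ t.1 ∧ D2 ∣ t.2 ∧
      D3 ∣ t.1 + t.2) :
    (S.card : ℝ) ≤ 8 * A * C / ((D1 * D2 * D3 : ℕ) : ℝ) + 1 := by
  classical
  rcases S.eq_empty_or_nonempty with rfl | ⟨t₀, ht₀⟩
  · simp only [card_empty, Nat.cast_zero]
    positivity
  obtain ⟨-, -, c0, -, -, -, d1, d2, d3⟩ := hS t₀ ht₀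
  obtain ⟨c1, c2, -⟩ := cop3 c0
  have hPC : Pool.Agent.X4.MK.PC D1 D2 D3 :=
    ⟨h1, h2, h3, Nat.Coprime.of_dvd d1 d2 c0, Nat.Coprime.of_dvd d1 d3 c1,
      Nat.Coprime.of_dvd d2 d3 c2⟩
  have hD0 : (0 : ℝ) < ((D1 * D2 * D3 : ℕ) : ℝ) := by exact_mod_cast (by positivity)
  have key : ∀ t ∈ S, ∀ u ∈ S, t ≠ u →
      ((D1 * D2 * D3 : ℕ) : ℝ) / (4 * C ^ 2) ≤
        |(t.1 : ℝ) / ((t.1 + t.2 : ℕ) : ℝ) - (u.1 : ℝ) / ((u.1 + u.2 : ℕ) : ℝ)| := by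
    intro t ht u hu htu
    obtain ⟨a0, a1, a2, a3, a4, a5, a6, a7, a8⟩ := hS t ht
    obtain ⟨b0, b1, b2, b3, b4, b5, b6, b7, b8⟩ := hS u hu
    have hdv := Pool.Agent.X4.MK.det_dvd hPC (a := t.1) (b := t.2) (a' := u.1) (b' := u.2)
      ⟨Int.natCast_dvd_natCast.2 a6, Int.natCast_dvd_natCast.2 a7, by exact_mod_cast a8⟩
      ⟨Int.natCast_dvd_natCast.2 b6, Int.natCast_dvd_natCast.2 b7, by exact_mod_cast b8⟩
    have hne : (t.1 : ℤ) * u.2 - u.1 * t.2 ≠ 0 := by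
      intro h0
      apply htu
      have e : t.1 * u.2 = u.1 * t.2 := by exact_mod_cast sub_eq_zero.1 h0
      have e1 : t.1 ∣ u.1 := a2.dvd_of_dvd_mul_right (Dvd.intro _ e)
      have e2 : u.1 ∣ t.1 := b2.dvd_of_dvd_mul_right (Dvd.intro _ e.symm)
      have e3 := Nat.dvd_antisymm e1 e2
      have e4 : t.2 = u.2 := by
        rw [e3] at e
        exact (Nat.eq_of_mul_eq_mul_left b0 e).symm
      exact Prod.ext e3 e4
    have hle : ((D1 * D2 * D3 : ℕ) : ℤ) ≤ |(t.1 : ℤ) * u.2 - u.1 * t.2| := by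
      have := Int.le_of_dvd (abs_pos.2 hne) ((dvd_abs _ _).2 hdv)
      exact this
    have hleR : ((D1 * D2 * D3 : ℕ) : ℝ) ≤ |(t.1 : ℝ) * u.2 - u.1 * t.2| := by
      exact_mod_cast hle
    have ht0 : (0 : ℝ) < ((t.1 + t.2 : ℕ) : ℝ) := by linarith
    have hu0 : (0 : ℝ) < ((u.1 + u.2 : ℕ) : ℝ) := by linarith
    have e5 : (t.1 : ℝ) / ((t.1 + t.2 : ℕ) : ℝ) - (u.1 : ℝ) / ((u.1 + u.2 : ℕ) : ℝ) =
        ((t.1 : ℝ) * u.2 - u.1 * t.2) / (((t.1 + t.2 : ℕ) : ℝ) * ((u.1 + u.2 : ℕ) : ℝ)) := by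
      rw [div_sub_div _ _ ht0.ne' hu0.ne']
      congr 1
      push_cast
      ring
    rw [e5, abs_div, abs_of_pos (mul_pos ht0 hu0)]
    apply div_le_div₀ (abs_nonneg _) hleR (by positivity)
    nlinarith
  have hinj : Set.InjOn (fun t : ℕ × ℕ => (t.1 : ℝ) / ((t.1 + t.2 : ℕ) : ℝ)) (S : Set (ℕ × ℕ)) := by
    intro t ht u hu h
    by_contra hne
    have := key t ht u hu hne
    simp only at h
    rw [h, sub_self, abs_zero] at this
    have : 0 < ((D1 * D2 * D3 : ℕ) : ℝ) / (4 * C ^ 2) := by positivity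
    linarith
  rw [← card_image_of_injOn hinj]
  have h4 := Pool.Agent.X4.JB.sep_count
    (C := S.image fun t : ℕ × ℕ => (t.1 : ℝ) / ((t.1 + t.2 : ℕ) : ℝ))
    (e := ((D1 * D2 * D3 : ℕ) : ℝ) / (4 * C ^ 2)) (x := A / C) (R := A / C) (by positivity)
    (by positivity) ?_ ?_
  · refine h4.trans (le_of_eq ?_)
    field_simp
    ring
  · intro y hy
    rw [mem_image] at hy
    obtain ⟨t, ht, rfl⟩ := hy
    obtain ⟨a0, a1, a2, a3, a4, a5, a6, a7, a8⟩ := hS t ht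
    have ht0 : (0 : ℝ) < ((t.1 + t.2 : ℕ) : ℝ) := by linarith
    have ht1 : (0 : ℝ) < t.1 := by exact_mod_cast a0
    have e1 : 0 < (t.1 : ℝ) / ((t.1 + t.2 : ℕ) : ℝ) := by positivity
    have e2 : (t.1 : ℝ) / ((t.1 + t.2 : ℕ) : ℝ) < 2 * (A / C) := by
      rw [← mul_div_assoc, div_lt_div_iff₀ ht0 hC]
      nlinarith
    rw [abs_lt]
    constructor <;> linarith
  · intro y hy z hz hyz
    rw [mem_image] at hy hz
    obtain ⟨t, ht, rfl⟩ := hy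
    obtain ⟨u, hu, rfl⟩ := hz
    apply key t ht u hu
    rintro rfl
    exact hyz rfl

/-- the triples of repeated parts -/
noncomputable def Tw (X : ℕ) (W : ℝ) : Finset (ℕ × ℕ × ℕ) := by
  classical
  exact (Icc 1 X ×ˢ Icc 1 X ×ˢ Icc 1 X).filter fun w => w.1 * w.2.1 * w.2.2 ≤ X ∧
    W ≤ ((w.1 * w.2.1 * w.2.2 : ℕ) : ℝ)

theorem mem_Tw {X : ℕ} {W : ℝ} {w : ℕ × ℕ × ℕ} : w ∈ Tw X W ↔ (1 ≤ w.1 ∧ w.1 ≤ X) ∧
    (1 ≤ w.2.1 ∧ w.2.1 ≤ X) ∧ (1 ≤ w.2.2 ∧ w.2.2 ≤ X) ∧ w.1 * w.2.1 * w.2.2 ≤ X ∧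
    W ≤ ((w.1 * w.2.1 * w.2.2 : ℕ) : ℝ) := by
  unfold Tw
  simp only [mem_filter, mem_product, mem_Icc]
  tauto

theorem sum_cube {X : ℕ} {W : ℝ} (f : ℕ → ℝ) (hf : ∀ n, 0 ≤ f n) :
    ∑ w ∈ Tw X W, f w.1 * f w.2.1 * f w.2.2 ≤ (∑ m ∈ Icc 1 X, f m) ^ 3 := by
  classical
  calc ∑ w ∈ Tw X W, f w.1 * f w.2.1 * f w.2.2
      ≤ ∑ w ∈ Icc 1 X ×ˢ Icc 1 X ×ˢ Icc 1 X, f w.1 * f w.2.1 * f w.2.2 := by
        apply Finset.sum_le_sum_of_subset_of_nonneg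
        · intro w hw
          rw [mem_Tw] at hw
          simp only [mem_product, mem_Icc]
          exact ⟨hw.1, hw.2.1, hw.2.2.1⟩
        · intro w _ _
          exact mul_nonneg (mul_nonneg (hf _) (hf _)) (hf _)
    _ = (∑ m ∈ Icc 1 X, f m) ^ 3 := by
        rw [Finset.sum_product]
        simp only [Finset.sum_product]
        rw [pow_succ, sq, Finset.sum_mul_sum, Finset.sum_mul_sum]
        simp only [Finset.sum_mul]
        apply Finset.sum_congr rfl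
        intro i _
        rw [Finset.sum_comm]

/-- the number of the triples of repeated parts -/
theorem card_Tw (δ : ℝ) (hδ : 0 < δ) : ∃ K : ℝ, 0 < K ∧ ∀ (X : ℕ) (W : ℝ),
    ((Tw X W).card : ℝ) ≤ K * (X : ℝ) ^ (1 + δ) := by
  have hsum : Summable (fun n : ℕ => (n : ℝ) ^ (-(1 + δ))) :=
    Real.summable_nat_rpow.2 (by linarith)
  set Z : ℝ := ∑' n : ℕ, (n : ℝ) ^ (-(1 + δ)) with hZ
  have hZ0 : 0 ≤ Z := tsum_nonneg fun n => by positivity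
  refine ⟨Z ^ 3 + 1, by positivity, fun X W => ?_⟩
  have h1 : ∀ w ∈ Tw X W, (1 : ℝ) ≤ (X : ℝ) ^ (1 + δ) *
      ((w.1 : ℝ) ^ (-(1 + δ)) * (w.2.1 : ℝ) ^ (-(1 + δ)) * (w.2.2 : ℝ) ^ (-(1 + δ))) := by
    intro w hw
    rw [mem_Tw] at hw
    obtain ⟨⟨a1, -⟩, ⟨a2, -⟩, ⟨a3, -⟩, a4, -⟩ := hw
    have b1 : (0 : ℝ) < w.1 := by exact_mod_cast a1
    have b2 : (0 : ℝ) < w.2.1 := by exact_mod_cast a2
    have b3 : (0 : ℝ) < w.2.2 := by exact_mod_cast a3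
    rw [← Real.mul_rpow b1.le b2.le, ← Real.mul_rpow (mul_pos b1 b2).le b3.le,
      Real.rpow_neg (by positivity), ← div_eq_mul_inv, le_div_iff₀ (by positivity), one_mul]
    apply Real.rpow_le_rpow (by positivity) _ (by linarith)
    exact_mod_cast a4
  calc ((Tw X W).card : ℝ) = ∑ _w ∈ Tw X W, (1 : ℝ) := by simp
    _ ≤ ∑ w ∈ Tw X W, (X : ℝ) ^ (1 + δ) *
      ((w.1 : ℝ) ^ (-(1 + δ)) * (w.2.1 : ℝ) ^ (-(1 + δ)) * (w.2.2 : ℝ) ^ (-(1 + δ))) :=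
        Finset.sum_le_sum h1
    _ = (X : ℝ) ^ (1 + δ) * ∑ w ∈ Tw X W,
      ((w.1 : ℝ) ^ (-(1 + δ)) * (w.2.1 : ℝ) ^ (-(1 + δ)) * (w.2.2 : ℝ) ^ (-(1 + δ))) := by
        rw [Finset.mul_sum]
    _ ≤ (X : ℝ) ^ (1 + δ) * Z ^ 3 := by
        apply mul_le_mul_of_nonneg_left _ (by positivity)
        refine (sum_cube (fun n : ℕ => (n : ℝ) ^ (-(1 + δ))) (fun n => by positivity)).trans ?_
        apply pow_le_pow_left₀ (Finset.sum_nonneg fun n _ => by positivity)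
        exact hsum.sum_le_tsum _ (fun n _ => by positivity)
    _ ≤ _ := by
        have : 0 ≤ (X : ℝ) ^ (1 + δ) := by positivity
        nlinarith

/-- the main sum over the triples of repeated parts -/
theorem main_Tw {σ E W : ℝ} {X : ℕ} (hσ1 : σ < 1) (hW : 0 < W)
    (hE : ∑ m ∈ Icc 1 X, wt 1 σ m ≤ E) :
    ∑ w ∈ Tw X W, 1 / (((w.1 * rad w.1) * (w.2.1 * rad w.2.1) * (w.2.2 * rad w.2.2) : ℕ) : ℝ) ≤
      W ^ (σ - 1) * E ^ 3 := by
  have h1 : ∀ w ∈ Tw X W,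
      1 / (((w.1 * rad w.1) * (w.2.1 * rad w.2.1) * (w.2.2 * rad w.2.2) : ℕ) : ℝ) ≤
        W ^ (σ - 1) * (wt 1 σ w.1 * wt 1 σ w.2.1 * wt 1 σ w.2.2) := by
    intro w hw
    rw [mem_Tw] at hw
    obtain ⟨⟨a1, -⟩, ⟨a2, -⟩, ⟨a3, -⟩, -, a5⟩ := hw
    have b1 : (0 : ℝ) < w.1 := by exact_mod_cast a1
    have b2 : (0 : ℝ) < w.2.1 := by exact_mod_cast a2
    have b3 : (0 : ℝ) < w.2.2 := by exact_mod_cast a3
    have r1 : (0 : ℝ) < rad w.1 := by exact_mod_cast rad_pos _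
    have r2 : (0 : ℝ) < rad w.2.1 := by exact_mod_cast rad_pos _
    have r3 : (0 : ℝ) < rad w.2.2 := by exact_mod_cast rad_pos _
    have h2 : ((w.1 : ℝ) * w.2.1 * w.2.2) ^ (σ - 1) ≤ W ^ (σ - 1) := by
      apply Real.rpow_le_rpow_of_nonpos hW _ (by linarith)
      exact_mod_cast a5
    have h3 : ((w.1 : ℝ) * w.2.1 * w.2.2) ^ (σ - 1) =
        (w.1 : ℝ) ^ σ * (w.2.1 : ℝ) ^ σ * (w.2.2 : ℝ) ^ σ / (w.1 * w.2.1 * w.2.2) := by
      rw [Real.rpow_sub (by positivity), Real.rpow_one, Real.mul_rpow (by positivity) b3.le,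
        Real.mul_rpow b1.le b2.le]
    have e : 1 / (((w.1 * rad w.1) * (w.2.1 * rad w.2.1) * (w.2.2 * rad w.2.2) : ℕ) : ℝ) =
        ((w.1 : ℝ) * w.2.1 * w.2.2) ^ (σ - 1) *
          (wt 1 σ w.1 * wt 1 σ w.2.1 * wt 1 σ w.2.2) := by
      rw [h3]
      unfold wt
      rw [if_neg (by omega), if_neg (by omega), if_neg (by omega)]
      have p1 : (0 : ℝ) < (w.1 : ℝ) ^ σ := by positivity
      have p2 : (0 : ℝ) < (w.2.1 : ℝ) ^ σ := by positivity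
      have p3 : (0 : ℝ) < (w.2.2 : ℝ) ^ σ := by positivity
      push_cast
      simp only [one_pow]
      field_simp
    rw [e]
    apply mul_le_mul_of_nonneg_right h2
    exact mul_nonneg (mul_nonneg (wt_nonneg zero_le_one _ _) (wt_nonneg zero_le_one _ _))
      (wt_nonneg zero_le_one _ _)
  refine (Finset.sum_le_sum h1).trans ?_
  rw [← Finset.mul_sum]
  apply mul_le_mul_of_nonneg_left _ (by positivity)
  refine (sum_cube (wt 1 σ) (wt_nonneg zero_le_one σ)).trans ?_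
  apply pow_le_pow_left₀ _ hE
  exact Finset.sum_nonneg fun n _ => wt_nonneg zero_le_one _ _

/-- one dyadic box -/
theorem box {lam σ E A C K δ : ℝ} {X : ℕ} (h2 : 2 < lam) (h3 : lam < 3) (hσ0 : 0 < σ)
    (hσ1 : σ < 1) (hE : ∑ m ∈ Icc 1 X, wt 1 σ m ≤ E) (hA : 0 < A) (hC : 1 ≤ C) (hCX : C ≤ X)
    (hAC : A ≤ 2 * C) (hK : ∀ W : ℝ, ((Tw X W).card : ℝ) ≤ K * (X : ℝ) ^ (1 + δ))
    (S : Finset (ℕ × ℕ))
    (hS : ∀ t ∈ S, 0 < t.1 ∧ t.1 ≤ t.2 ∧ Nat.Coprime t.1 t.2 ∧ t.1 + t.2 ≤ X ∧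
      A ≤ (t.1 : ℝ) ∧ (t.1 : ℝ) < 2 * A ∧
      C ≤ ((t.1 + t.2 : ℕ) : ℝ) ∧ ((t.1 + t.2 : ℕ) : ℝ) < 2 * C ∧
      ((t.1 + t.2 : ℕ) : ℝ) ^ (2 : ℝ) < (rad (t.1 * t.2 * (t.1 + t.2)) : ℝ) ∧
      (rad (t.1 * t.2 * (t.1 + t.2)) : ℝ) ≤ ((t.1 + t.2 : ℕ) : ℝ) ^ lam) :
    (S.card : ℝ) ≤ K * (X : ℝ) ^ (1 + δ) +
      64 * (X : ℝ) ^ (lam - 1) * (X : ℝ) ^ ((3 - lam) * σ) * E ^ 3 := by
  classical
  have hC0 : 0 < C := by linarith
  have hX0 : (0 : ℝ) < X := by linarith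
  set W : ℝ := A * C ^ (2 - lam) / 8 with hW
  have hW0 : 0 < W := by positivity
  have hmaps : ∀ t ∈ S, ((wp t.1, wp t.2, wp (t.1 + t.2)) : ℕ × ℕ × ℕ) ∈ Tw X W := by
    intro t ht
    obtain ⟨a0, a1, a2, a3, a4, a5, a6, a7, a8, a9⟩ := hS t ht
    have hb0 : 0 < t.2 := by omega
    have w1 := wp_mul t.1
    have w2 := wp_mul t.2
    have w3 := wp_mul (t.1 + t.2)
    have p1 := wp_pos a0
    have p2 := wp_pos hb0
    have p3 : 0 < wp (t.1 + t.2) := wp_pos (by omega)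
    have q1 := rad_pos t.1
    have q2 := rad_pos t.2
    have q3 := rad_pos (t.1 + t.2)
    rw [rad3 a2] at a8 a9
    have hc0 : (0 : ℝ) < ((t.1 + t.2 : ℕ) : ℝ) := by linarith
    have ha0 : (0 : ℝ) < t.1 := by exact_mod_cast a0
    have hb0' : (0 : ℝ) < t.2 := by exact_mod_cast hb0
    set ww : ℕ := wp t.1 * wp t.2 * wp (t.1 + t.2) with hww
    have hprod : (ww : ℝ) * ((rad t.1 * rad t.2 * rad (t.1 + t.2) : ℕ) : ℝ) =
        t.1 * t.2 * ((t.1 + t.2 : ℕ) : ℝ) := by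
      have : ww * (rad t.1 * rad t.2 * rad (t.1 + t.2)) = t.1 * t.2 * (t.1 + t.2) := by
        calc ww * (rad t.1 * rad t.2 * rad (t.1 + t.2)) =
            (wp t.1 * rad t.1) * (wp t.2 * rad t.2) * (wp (t.1 + t.2) * rad (t.1 + t.2)) := by
              rw [hww]; ring
          _ = _ := by rw [w1, w2, w3]
      exact_mod_cast this
    set R : ℝ := ((rad t.1 * rad t.2 * rad (t.1 + t.2) : ℕ) : ℝ) with hR
    have hR0 : 0 < R := by rw [hR]; exact_mod_cast (by positivity)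
    have hw0 : (0 : ℝ) < ww := by exact_mod_cast (by positivity)
    rw [mem_Tw]
    -- upper bound
    have hup : ww ≤ X := by
      have h5 : (ww : ℝ) * ((t.1 + t.2 : ℕ) : ℝ) ^ (2 : ℝ) ≤ t.1 * t.2 * ((t.1 + t.2 : ℕ) : ℝ) := by
        rw [← hprod]
        exact mul_le_mul_of_nonneg_left a8.le hw0.le
      rw [Real.rpow_two] at h5
      have h6 : (t.2 : ℝ) ≤ ((t.1 + t.2 : ℕ) : ℝ) := by exact_mod_cast Nat.le_add_left _ _
      have h7 : (ww : ℝ) * ((t.1 + t.2 : ℕ) : ℝ) ≤ t.1 * t.2 := by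
        have h8 : (ww : ℝ) * ((t.1 + t.2 : ℕ) : ℝ) * ((t.1 + t.2 : ℕ) : ℝ) ≤
            t.1 * t.2 * ((t.1 + t.2 : ℕ) : ℝ) := by
          calc (ww : ℝ) * ((t.1 + t.2 : ℕ) : ℝ) * ((t.1 + t.2 : ℕ) : ℝ) =
              (ww : ℝ) * ((t.1 + t.2 : ℕ) : ℝ) ^ 2 := by ring
            _ ≤ _ := h5
        exact le_of_mul_le_mul_right h8 hc0
      have h9 : (t.1 : ℝ) * t.2 ≤ t.1 * ((t.1 + t.2 : ℕ) : ℝ) :=
        mul_le_mul_of_nonneg_left h6 ha0.le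
      have h10 : (ww : ℝ) ≤ t.1 := le_of_mul_le_mul_right (h7.trans h9) hc0
      have h11 : ww ≤ t.1 := by exact_mod_cast h10
      omega
    have hlow : W ≤ (ww : ℝ) := by
      have h5 : (t.1 : ℝ) * t.2 * ((t.1 + t.2 : ℕ) : ℝ) ≤
          (ww : ℝ) * ((t.1 + t.2 : ℕ) : ℝ) ^ lam := by
        rw [← hprod]
        exact mul_le_mul_of_nonneg_left a9 hw0.le
      have h6 : ((t.1 + t.2 : ℕ) : ℝ) / 2 ≤ t.2 := by
        have : ((t.1 + t.2 : ℕ) : ℝ) ≤ 2 * t.2 := by exact_mod_cast (by omega)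
        linarith
      have h7 : ((t.1 + t.2 : ℕ) : ℝ) ^ lam =
          ((t.1 + t.2 : ℕ) : ℝ) ^ 2 * ((t.1 + t.2 : ℕ) : ℝ) ^ (lam - 2) := by
        rw [← Real.rpow_natCast, ← Real.rpow_add hc0]
        congr 1
        push_cast
        ring
      have h8 : ((t.1 + t.2 : ℕ) : ℝ) ^ (lam - 2) ≤ 2 * C ^ (lam - 2) := by
        calc ((t.1 + t.2 : ℕ) : ℝ) ^ (lam - 2) ≤ (2 * C) ^ (lam - 2) :=
              Real.rpow_le_rpow hc0.le a7.le (by linarith)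
          _ = 2 ^ (lam - 2) * C ^ (lam - 2) := Real.mul_rpow (by norm_num) hC0.le
          _ ≤ 2 ^ (1 : ℝ) * C ^ (lam - 2) := by
              apply mul_le_mul_of_nonneg_right _ (by positivity)
              apply Real.rpow_le_rpow_of_exponent_le (by norm_num) (by linarith)
          _ = _ := by rw [Real.rpow_one]
      have h9 : A * (((t.1 + t.2 : ℕ) : ℝ) / 2) * ((t.1 + t.2 : ℕ) : ℝ) ≤
          (ww : ℝ) * (((t.1 + t.2 : ℕ) : ℝ) ^ 2 * (2 * C ^ (lam - 2))) := by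
        calc A * (((t.1 + t.2 : ℕ) : ℝ) / 2) * ((t.1 + t.2 : ℕ) : ℝ) ≤
            (t.1 : ℝ) * t.2 * ((t.1 + t.2 : ℕ) : ℝ) := by gcongr
          _ ≤ _ := h5
          _ = (ww : ℝ) * (((t.1 + t.2 : ℕ) : ℝ) ^ 2 * ((t.1 + t.2 : ℕ) : ℝ) ^ (lam - 2)) := by
              rw [h7]
          _ ≤ _ := by gcongr
      have h10 : A / 4 ≤ (ww : ℝ) * C ^ (lam - 2) := by
        have hc2 : 0 < ((t.1 + t.2 : ℕ) : ℝ) ^ 2 := by positivity
        have h11 : (A / 4) * (2 * ((t.1 + t.2 : ℕ) : ℝ) ^ 2) ≤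
            ((ww : ℝ) * C ^ (lam - 2)) * (2 * ((t.1 + t.2 : ℕ) : ℝ) ^ 2) := by
          calc (A / 4) * (2 * ((t.1 + t.2 : ℕ) : ℝ) ^ 2) =
              A * (((t.1 + t.2 : ℕ) : ℝ) / 2) * ((t.1 + t.2 : ℕ) : ℝ) := by ring
            _ ≤ _ := h9
            _ = _ := by ring
        exact le_of_mul_le_mul_right h11 (by positivity)
      have h12 : C ^ (2 - lam) * C ^ (lam - 2) = 1 := by
        rw [← Real.rpow_add hC0]
        norm_num
      have hCp : 0 < C ^ (2 - lam) := by positivity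
      calc W = C ^ (2 - lam) * (A / 8) := by rw [hW]; ring
        _ ≤ C ^ (2 - lam) * (A / 4) := by
            apply mul_le_mul_of_nonneg_left _ hCp.le
            linarith
        _ ≤ C ^ (2 - lam) * ((ww : ℝ) * C ^ (lam - 2)) := mul_le_mul_of_nonneg_left h10 hCp.le
        _ = (C ^ (2 - lam) * C ^ (lam - 2)) * ww := by ring
        _ = ww := by rw [h12, one_mul]
    refine ⟨⟨p1, ?_⟩, ⟨p2, ?_⟩, ⟨p3, ?_⟩, hup, hlow⟩
    · have := Nat.le_of_dvd a0 (wp_dvd t.1)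
      show wp t.1 ≤ X
      omega
    · have := Nat.le_of_dvd hb0 (wp_dvd t.2)
      show wp t.2 ≤ X
      omega
    · have := Nat.le_of_dvd (by omega : 0 < t.1 + t.2) (wp_dvd (t.1 + t.2))
      show wp (t.1 + t.2) ≤ X
      omega
  have hcard := Finset.card_eq_sum_card_fiberwise (s := S) (t := Tw X W)
    (f := fun t : ℕ × ℕ => ((wp t.1, wp t.2, wp (t.1 + t.2)) : ℕ × ℕ × ℕ))
    (fun t ht => hmaps t (mem_coe.1 ht))
  have hfib : ∀ w ∈ Tw X W, (((S.filter fun t =>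
      ((wp t.1, wp t.2, wp (t.1 + t.2)) : ℕ × ℕ × ℕ) = w).card : ℕ) : ℝ) ≤
      8 * A * C *
        (1 / (((w.1 * rad w.1) * (w.2.1 * rad w.2.1) * (w.2.2 * rad w.2.2) : ℕ) : ℝ)) + 1 := by
    intro w hw
    rw [mem_Tw] at hw
    rw [mul_one_div]
    apply fiber hA hC0 (Nat.mul_pos hw.1.1 (rad_pos _)) (Nat.mul_pos hw.2.1.1 (rad_pos _))
      (Nat.mul_pos hw.2.2.1.1 (rad_pos _))
    intro t ht
    rw [mem_filter] at ht
    obtain ⟨a0, a1, a2, a3, a4, a5, a6, a7, a8, a9⟩ := hS t ht.1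
    have hb0 : 0 < t.2 := by omega
    rw [← ht.2]
    exact ⟨a0, hb0, a2, a5, a6, a7, wp_rad_dvd a0, wp_rad_dvd hb0, wp_rad_dvd (by omega)⟩
  rw [hcard]
  push_cast
  refine (Finset.sum_le_sum hfib).trans ?_
  rw [Finset.sum_add_distrib, ← Finset.mul_sum]
  have h5 := main_Tw (X := X) hσ1 hW0 hE
  have h6 := hK W
  have h7 : 8 * A * C * ∑ w ∈ Tw X W,
      1 / (((w.1 * rad w.1) * (w.2.1 * rad w.2.1) * (w.2.2 * rad w.2.2) : ℕ) : ℝ) ≤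
      64 * (X : ℝ) ^ (lam - 1) * (X : ℝ) ^ ((3 - lam) * σ) * E ^ 3 := by
    have hE0 : 0 ≤ E := le_trans (Finset.sum_nonneg fun n _ => wt_nonneg zero_le_one _ _) hE
    have h8 : 8 * A * C * W ^ (σ - 1) = 64 * C ^ (lam - 1) * W ^ σ := by
      have e1 : W ^ (σ - 1) = W ^ σ / W := by rw [Real.rpow_sub hW0, Real.rpow_one]
      have e2 : 8 * A * C = 64 * C ^ (lam - 1) * W := by
        rw [hW]
        have e3 : C ^ (lam - 1) * C ^ (2 - lam) = C := by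
          rw [← Real.rpow_add hC0]
          norm_num
        calc 8 * A * C = 8 * A * (C ^ (lam - 1) * C ^ (2 - lam)) := by rw [e3]
          _ = _ := by ring
      rw [e1, e2]
      field_simp
    have h9 : C ^ (lam - 1) ≤ (X : ℝ) ^ (lam - 1) :=
      Real.rpow_le_rpow hC0.le hCX (by linarith)
    have h10 : W ^ σ ≤ (X : ℝ) ^ ((3 - lam) * σ) := by
      rw [Real.rpow_mul hX0.le]
      apply Real.rpow_le_rpow hW0.le _ hσ0.le
      calc W ≤ C * C ^ (2 - lam) := by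
            rw [hW]
            have : 0 < C ^ (2 - lam) := by positivity
            nlinarith
        _ = C ^ (3 - lam) := by
            rw [show (3 - lam : ℝ) = 1 + (2 - lam) by ring, Real.rpow_add hC0, Real.rpow_one]
        _ ≤ _ := Real.rpow_le_rpow hC0.le hCX (by linarith)
    calc 8 * A * C * ∑ w ∈ Tw X W,
        1 / (((w.1 * rad w.1) * (w.2.1 * rad w.2.1) * (w.2.2 * rad w.2.2) : ℕ) : ℝ) ≤
        8 * A * C * (W ^ (σ - 1) * E ^ 3) := mul_le_mul_of_nonneg_left h5 (by positivity)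
      _ = 8 * A * C * W ^ (σ - 1) * E ^ 3 := by ring
      _ = 64 * C ^ (lam - 1) * W ^ σ * E ^ 3 := by rw [h8]
      _ ≤ _ := by gcongr
  have h11 : ∑ _w ∈ Tw X W, (1 : ℝ) = ((Tw X W).card : ℝ) := by simp
  rw [h11]
  linarith

end Pool.Agent.X4.RST
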