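import Mathlib
import Pool.Agent.X4.RST.Up

/-!
# The sum over the powerful triples
-/

set_option autoImplicit false

namespace Pool.Agent.X4.RST

open Finset Pool.Agent.X4.HC

theorem wp_mul2 {m n : ℕ} (h : Nat.Coprime m n) : wp (m * n) = wp m * wp n := by
  unfold wp
  rw [rad_mul h, Nat.mul_div_mul_comm (rad_dvd m) (rad_dvd n)]

theorem rad_pp {p : ℕ} (hp : p.Prime) (f : ℕ) : rad (p ^ (f + 1)) = p := by
  unfold rad
  rw [Nat.primeFactors_prime_pow (by omega) hp, Finset.prod_singleton]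

theorem wp_pp {p : ℕ} (hp : p.Prime) (f : ℕ) : wp (p ^ (f + 1)) = p ^ f := by
  unfold wp
  rw [rad_pp hp, pow_succ, Nat.mul_div_cancel _ hp.pos]

/-- multiply one coordinate -/
def upd (i : Fin 3) (q : ℕ) (D : Fin 3 → ℕ) : Fin 3 → ℕ := Function.update D i (D i * q)

theorem upd_self (i : Fin 3) (q : ℕ) (D : Fin 3 → ℕ) : upd i q D i = D i * q := by
  simp [upd]

theorem upd_ne {i j : Fin 3} (h : j ≠ i) (q : ℕ) (D : Fin 3 → ℕ) : upd i q D j = D j := by
  simp [upd, h]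

theorem prod_upd (i : Fin 3) (q : ℕ) (D : Fin 3 → ℕ) : ∏ j, upd i q D j = (∏ j, D j) * q := by
  unfold upd
  rw [Finset.prod_update_of_mem (Finset.mem_univ i),
    ← Finset.mul_prod_erase Finset.univ D (Finset.mem_univ i), Finset.sdiff_singleton_eq_erase]
  ring

theorem upd_inj {i : Fin 3} {q : ℕ} (hq : 0 < q) : Function.Injective (upd i q) := by
  intro D D' h
  funext j
  by_cases hj : j = i
  · subst hj
    have := congrFun h j
    rw [upd_self, upd_self] at this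
    exact Nat.eq_of_mul_eq_mul_right hq this
  · have := congrFun h j
    rwa [upd_ne hj, upd_ne hj] at this

/-- the data -/
structure Dt (P : Finset ℕ) (k : ℕ) (D : Fin 3 → ℕ) : Prop where
  pos : ∀ i, 0 < D i
  cop : ∀ i j, i ≠ j → Nat.Coprime (D i) (D j)
  sub : ∀ q i, q.Prime → q ∣ D i → q ∈ P
  sq : ∀ q i, q.Prime → q ∣ D i → q ^ 2 ∣ D i
  card : (∏ i, D i).primeFactors.card = k

theorem Dt_one (P : Finset ℕ) : Dt P 0 (fun _ => 1) where
  pos := fun _ => one_pos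
  cop := fun _ _ _ => Nat.coprime_one_left _
  sub := fun _ _ hq h => absurd (Nat.dvd_one.1 h) hq.one_lt.ne'
  sq := fun _ _ hq h => absurd (Nat.dvd_one.1 h) hq.one_lt.ne'
  card := by simp

theorem Dt.mono {P P' : Finset ℕ} (h : P ⊆ P') {k : ℕ} {D : Fin 3 → ℕ} (hD : Dt P k D) :
    Dt P' k D :=
  { hD with sub := fun q i hq hd => h (hD.sub q i hq hd) }

theorem Dt.cop_prod {P : Finset ℕ} {k : ℕ} {D : Fin 3 → ℕ} (hD : Dt P k D) {p : ℕ} (hp : p.Prime)
    (hpP : p ∉ P) : Nat.Coprime (∏ i, D i) p := by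
  apply Nat.Coprime.prod_left
  intro i _
  exact ((Nat.Prime.coprime_iff_not_dvd hp).2 fun h => hpP (hD.sub p i hp h)).symm

theorem Dt_upd {P : Finset ℕ} {k : ℕ} {D : Fin 3 → ℕ} (hD : Dt P k D) {p f : ℕ} (hp : p.Prime)
    (hpP : p ∉ P) (hf : 1 ≤ f) (i : Fin 3) : Dt (insert p P) (k + 1) (upd i (p ^ (f + 1)) D) := by
  have hc : ∀ j, Nat.Coprime (D j) (p ^ (f + 1)) := fun j =>
    Nat.Coprime.pow_right _ ((Nat.Prime.coprime_iff_not_dvd hp).2 fun h =>
      hpP (hD.sub p j hp h)).symm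
  have hq : 0 < p ^ (f + 1) := by have := hp.pos; positivity
  refine ⟨?_, ?_, ?_, ?_, ?_⟩
  · intro j
    by_cases hj : j = i
    · subst hj; rw [upd_self]; exact Nat.mul_pos (hD.pos j) hq
    · rw [upd_ne hj]; exact hD.pos j
  · intro a b hab
    by_cases ha : a = i
    · have hb : b ≠ i := fun h => hab (ha.trans h.symm)
      rw [upd_ne hb]
      subst ha
      rw [upd_self]
      exact Nat.Coprime.mul_left (hD.cop a b hab) (hc b).symm
    · rw [upd_ne ha]
      by_cases hb : b = i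
      · subst hb
        rw [upd_self]
        exact Nat.Coprime.mul_right (hD.cop a b hab) (hc a)
      · rw [upd_ne hb]
        exact hD.cop a b hab
  · intro q j hqp hd
    by_cases hj : j = i
    · subst hj
      rw [upd_self] at hd
      rcases (Nat.Prime.dvd_mul hqp).1 hd with h | h
      · exact Finset.mem_insert_of_mem (hD.sub q j hqp h)
      · have : q = p := (Nat.prime_dvd_prime_iff_eq hqp hp).1 (hqp.dvd_of_dvd_pow h)
        rw [this]
        exact Finset.mem_insert_self _ _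
    · rw [upd_ne hj] at hd
      exact Finset.mem_insert_of_mem (hD.sub q j hqp hd)
  · intro q j hqp hd
    by_cases hj : j = i
    · subst hj
      rw [upd_self] at hd ⊢
      rcases (Nat.Prime.dvd_mul hqp).1 hd with h | h
      · exact (hD.sq q j hqp h).mul_right _
      · have : q = p := (Nat.prime_dvd_prime_iff_eq hqp hp).1 (hqp.dvd_of_dvd_pow h)
        rw [this]
        exact (pow_dvd_pow p (by omega)).mul_left _
    · rw [upd_ne hj] at hd ⊢
      exact hD.sq q j hqp hd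
  · rw [prod_upd]
    have hcp : Nat.Coprime (∏ j, D j) (p ^ (f + 1)) :=
      Nat.Coprime.pow_right _ (hD.cop_prod hp hpP)
    rw [hcp.primeFactors_mul, Finset.card_union_of_disjoint hcp.disjoint_primeFactors, hD.card,
      Nat.primeFactors_prime_pow (by omega) hp, Finset.card_singleton]

theorem rad_upd {P : Finset ℕ} {k : ℕ} {D : Fin 3 → ℕ} (hD : Dt P k D) {p f : ℕ} (hp : p.Prime)
    (hpP : p ∉ P) (i : Fin 3) : rad (∏ j, upd i (p ^ (f + 1)) D j) = rad (∏ j, D j) * p := by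
  rw [prod_upd, rad_mul (Nat.Coprime.pow_right _ (hD.cop_prod hp hpP)), rad_pp hp]

theorem wp_upd {P : Finset ℕ} {k : ℕ} {D : Fin 3 → ℕ} (hD : Dt P k D) {p f : ℕ} (hp : p.Prime)
    (hpP : p ∉ P) (i : Fin 3) : wp (∏ j, upd i (p ^ (f + 1)) D j) = wp (∏ j, D j) * p ^ f := by
  rw [prod_upd, wp_mul2 (Nat.Coprime.pow_right _ (hD.cop_prod hp hpP)), wp_pp hp]

/-! ### analytic inequalities -/

theorem pow_sub_le {u v : ℝ} (hv : 0 ≤ v) (huv : v ≤ u) (k : ℕ) :
    u ^ (k + 1) - v ^ (k + 1) ≤ (k + 1) * u ^ k * (u - v) := by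
  induction k with
  | zero => simp
  | succ k ih =>
    have hu : 0 ≤ u := hv.trans huv
    have h1 : u ^ (k + 1 + 1) - v ^ (k + 1 + 1) =
        u * (u ^ (k + 1) - v ^ (k + 1)) + v ^ (k + 1) * (u - v) := by ring
    have h2 : v ^ (k + 1) ≤ u ^ (k + 1) := pow_le_pow_left₀ hv huv _
    have h3 : v ^ (k + 1) * (u - v) ≤ u ^ (k + 1) * (u - v) :=
      mul_le_mul_of_nonneg_right h2 (by linarith)
    have h4 := mul_le_mul_of_nonneg_left ih hu
    rw [h1]
    push_cast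
    calc u * (u ^ (k + 1) - v ^ (k + 1)) + v ^ (k + 1) * (u - v) ≤
        u * ((k + 1) * u ^ k * (u - v)) + u ^ (k + 1) * (u - v) := by linarith
      _ = _ := by ring

theorem max_sub_le (a b : ℝ) (h : b ≤ a) : max a 0 - max b 0 ≤ a - b := by
  rcases le_total a 0 with h1 | h1
  · rw [max_eq_right h1, max_eq_right (h.trans h1)]
    linarith
  · rw [max_eq_left h1]
    have := le_max_left b 0
    linarith

theorem telescope {L lp kl : ℝ} (hlp : 0 ≤ lp) (k F : ℕ) :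
    max (L - ((1 : ℕ) : ℝ) * lp - kl) 0 ^ (k + 1) -
      max (L - ((F + 1 : ℕ) : ℝ) * lp - kl) 0 ^ (k + 1) ≤
      (k + 1) * lp * ∑ f ∈ Icc 1 F, max (L - (f : ℝ) * lp - kl) 0 ^ k := by
  induction F with
  | zero => simp
  | succ F ih =>
    rw [← Finset.insert_Icc_right_eq_Icc_add_one (by omega), Finset.sum_insert (by simp)]
    set u := max (L - ((F + 1 : ℕ) : ℝ) * lp - kl) 0 with hu
    set v := max (L - ((F + 1 + 1 : ℕ) : ℝ) * lp - kl) 0 with hv
    have hab : L - ((F + 1 + 1 : ℕ) : ℝ) * lp - kl ≤ L - ((F + 1 : ℕ) : ℝ) * lp - kl := by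
      push_cast
      linarith
    have hvu : v ≤ u := max_le_max_right 0 hab
    have hv0 : 0 ≤ v := le_max_right _ _
    have hu0 : 0 ≤ u := le_max_right _ _
    have h1 : u - v ≤ lp := by
      have := max_sub_le _ _ hab
      rw [← hu, ← hv] at this
      refine this.trans (le_of_eq ?_)
      push_cast
      ring
    have h2 := pow_sub_le hv0 hvu k
    have h3 : (k + 1) * u ^ k * (u - v) ≤ (k + 1) * u ^ k * lp :=
      mul_le_mul_of_nonneg_left h1 (by positivity)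
    have h4 : (k + 1) * lp * (u ^ k + ∑ f ∈ Icc 1 F, max (L - (f : ℝ) * lp - kl) 0 ^ k) =
        (k + 1) * u ^ k * lp +
          (k + 1) * lp * ∑ f ∈ Icc 1 F, max (L - (f : ℝ) * lp - kl) 0 ^ k := by ring
    rw [h4]
    linarith

theorem sum_f {L lp l : ℝ} (hL : 0 ≤ L) (hlp : 0 < lp) (hl : lp ≤ l) (k : ℕ) :
    max (L - ((k + 1 : ℕ) : ℝ) * l) 0 ^ (k + 1) ≤
      (k + 1) * lp * ∑ f ∈ Icc 1 ⌊L / lp⌋₊, max (L - (f : ℝ) * lp - k * l) 0 ^ k := by
  have h := telescope (L := L) (kl := k * l) hlp.le k ⌊L / lp⌋₊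
  have hl0 : 0 < l := hlp.trans_le hl
  have h1 : max (L - ((⌊L / lp⌋₊ + 1 : ℕ) : ℝ) * lp - k * l) 0 = 0 := by
    apply max_eq_right
    have := Nat.lt_floor_add_one (L / lp)
    rw [div_lt_iff₀ hlp] at this
    have h2 : 0 ≤ (k : ℝ) * l := by positivity
    push_cast
    linarith
  rw [h1, zero_pow (by omega), sub_zero] at h
  refine le_trans ?_ h
  apply pow_le_pow_left₀ (le_max_right _ _)
  apply max_le_max_right
  push_cast
  linarith

theorem sum_x {S x m : ℝ} (hx : 0 ≤ x) (hxm : x ≤ m) (k : ℕ) :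
    max (S + x - ((k + 1 : ℕ) : ℝ) * m) 0 ^ (k + 1) ≤
      max (S - ((k + 1 : ℕ) : ℝ) * m) 0 ^ (k + 1) + (k + 1) * x * max (S - k * m) 0 ^ k := by
  have hab : S - ((k + 1 : ℕ) : ℝ) * m ≤ S + x - ((k + 1 : ℕ) : ℝ) * m := by linarith
  set u := max (S + x - ((k + 1 : ℕ) : ℝ) * m) 0 with hu
  set v := max (S - ((k + 1 : ℕ) : ℝ) * m) 0 with hv
  have hvu : v ≤ u := max_le_max_right 0 hab
  have hv0 : 0 ≤ v := le_max_right _ _
  have hu0 : 0 ≤ u := le_max_right _ _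
  have h1 : u - v ≤ x := by
    have := max_sub_le _ _ hab
    rw [← hu, ← hv] at this
    linarith
  have h2 := pow_sub_le hv0 hvu k
  have h3 : u ≤ max (S - k * m) 0 := by
    apply max_le_max_right
    push_cast
    linarith
  have h4 : (k + 1) * u ^ k * (u - v) ≤ (k + 1) * max (S - k * m) 0 ^ k * x := by
    apply mul_le_mul _ h1 (by linarith) (by positivity)
    apply mul_le_mul_of_nonneg_left _ (by positivity)
    exact pow_le_pow_left₀ hu0 h3 k
  linarith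

/-- the lower bound -/
noncomputable def GG (m l : ℝ) (k : ℕ) (S L : ℝ) : ℝ :=
  3 ^ k * max (S - k * m) 0 ^ k * max (L - k * l) 0 ^ k / (k.factorial : ℝ) ^ 2

theorem GG_nonneg (m l : ℝ) (k : ℕ) (S L : ℝ) : 0 ≤ GG m l k S L := by
  unfold GG
  positivity

theorem GG_step {m l S L p lp : ℝ} (hL : 0 ≤ L) (hp : 0 < p) (hlp : 0 < lp) (hl : lp ≤ l)
    (hxm : 1 / (p * lp) ≤ m) (k : ℕ) :
    GG m l (k + 1) (S + 1 / (p * lp)) L ≤ GG m l (k + 1) S L +
      3 / p * ∑ f ∈ Icc 1 ⌊L / lp⌋₊, GG m l k S (L - f * lp) := by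
  unfold GG
  have h1 := sum_x (S := S) (by positivity : 0 ≤ 1 / (p * lp)) hxm k
  have h2 := sum_f hL hlp hl k
  set A := max (S - k * m) 0
  set B := max (L - ((k + 1 : ℕ) : ℝ) * l) 0
  set C := max (S - ((k + 1 : ℕ) : ℝ) * m) 0
  have hA : 0 ≤ A := le_max_right _ _
  have hB : 0 ≤ B := le_max_right _ _
  have hfac : (0 : ℝ) < (k.factorial : ℝ) := by exact_mod_cast Nat.factorial_pos k
  have e1 : ∑ f ∈ Icc 1 ⌊L / lp⌋₊,
      3 ^ k * A ^ k * max (L - f * lp - k * l) 0 ^ k / (k.factorial : ℝ) ^ 2 =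
      3 ^ k * A ^ k / (k.factorial : ℝ) ^ 2 *
        ∑ f ∈ Icc 1 ⌊L / lp⌋₊, max (L - f * lp - k * l) 0 ^ k := by
    rw [Finset.mul_sum]
    apply Finset.sum_congr rfl
    intro f _
    ring
  rw [e1]
  set T := ∑ f ∈ Icc 1 ⌊L / lp⌋₊, max (L - f * lp - k * l) 0 ^ k
  have h3 : B ^ (k + 1) / ((k + 1) * lp) ≤ T := by
    rw [div_le_iff₀ (by positivity)]
    linarith
  have e2 : (((k + 1).factorial : ℕ) : ℝ) = (k + 1) * (k.factorial : ℝ) := by
    rw [Nat.factorial_succ]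
    push_cast
    ring
  rw [e2]
  calc 3 ^ (k + 1) * max (S + 1 / (p * lp) - ((k + 1 : ℕ) : ℝ) * m) 0 ^ (k + 1) * B ^ (k + 1) /
      ((k + 1) * (k.factorial : ℝ)) ^ 2 ≤
      3 ^ (k + 1) * (C ^ (k + 1) + (k + 1) * (1 / (p * lp)) * A ^ k) * B ^ (k + 1) /
      ((k + 1) * (k.factorial : ℝ)) ^ 2 := by gcongr
    _ = 3 ^ (k + 1) * C ^ (k + 1) * B ^ (k + 1) / ((k + 1) * (k.factorial : ℝ)) ^ 2 +
        3 / p * (3 ^ k * A ^ k / (k.factorial : ℝ) ^ 2 * (B ^ (k + 1) / ((k + 1) * lp))) := by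
        field_simp
        ring
    _ ≤ _ := by gcongr

end Pool.Agent.X4.RST
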