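import Mathlib
import Pool.Agent.X4.RST.Sum

/-!
# The sum over the powerful triples, recursion
-/

set_option autoImplicit false

namespace Pool.Agent.X4.RST

open Finset Pool.Agent.X4.HC

open Classical in
/-- the recursion step -/
theorem LS_step {P : Finset ℕ} {k : ℕ} {L : ℝ} {p : ℕ} (hp : p.Prime) (hpP : p ∉ P)
    (E0 : Finset (Fin 3 → ℕ))
    (hE0 : ∀ D ∈ E0, Dt P (k + 1) D ∧ Real.log (wp (∏ i, D i)) ≤ L)
    (F : ℕ) (E : ℕ → Finset (Fin 3 → ℕ))
    (hE : ∀ f ∈ Icc 1 F, ∀ D ∈ E f, Dt P k D ∧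
      Real.log (wp (∏ i, D i)) ≤ L - f * Real.log p) :
    ∃ T : Finset (Fin 3 → ℕ), (∀ D ∈ T, Dt (insert p P) (k + 1) D ∧
      Real.log (wp (∏ i, D i)) ≤ L) ∧
      ∑ D ∈ T, 1 / (rad (∏ i, D i) : ℝ) = ∑ D ∈ E0, 1 / (rad (∏ i, D i) : ℝ) +
        3 / (p : ℝ) * ∑ f ∈ Icc 1 F, ∑ D ∈ E f, 1 / (rad (∏ i, D i) : ℝ) := by
  have hp0 : (0 : ℝ) < p := by exact_mod_cast hp.pos
  let W : Fin 3 × ℕ → Finset (Fin 3 → ℕ) := fun x => (E x.2).image (upd x.1 (p ^ (x.2 + 1)))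
  let I : Finset (Fin 3 × ℕ) := univ ×ˢ Icc 1 F
  -- the valuation
  have hval0 : ∀ D ∈ E0, ∀ j, ¬ p ∣ D j := fun D hD j h =>
    hpP ((hE0 D hD).1.sub p j hp h)
  have hvalE : ∀ f ∈ Icc 1 F, ∀ D ∈ E f, ∀ j, ¬ p ∣ D j := fun f hf D hD j h =>
    hpP ((hE f hf D hD).1.sub p j hp h)
  have hqpos : ∀ f : ℕ, 0 < p ^ (f + 1) := fun f => by have := hp.pos; positivity
  have hval : ∀ x ∈ I, ∀ D ∈ W x, (∀ j, j ≠ x.1 → ¬ p ∣ D j) ∧ (D x.1).factorization p = x.2 + 1 := by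
    intro x hx D hD
    rw [mem_image] at hD
    obtain ⟨D', hD', rfl⟩ := hD
    have hxf := (mem_product.1 hx).2
    refine ⟨fun j hj => ?_, ?_⟩
    · rw [upd_ne hj]
      exact hvalE x.2 hxf D' hD' j
    · rw [upd_self, Nat.factorization_mul ((hE x.2 hxf D' hD').1.pos _).ne' (hqpos _).ne',
        Finsupp.add_apply, Nat.factorization_eq_zero_of_not_dvd (hvalE x.2 hxf D' hD' _),
        hp.factorization_pow, Finsupp.single_eq_same, zero_add]
  have hdis : Disjoint E0 (I.biUnion W) := by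
    rw [disjoint_left]
    intro D hD hD'
    rw [mem_biUnion] at hD'
    obtain ⟨x, hx, hDx⟩ := hD'
    have h1 := (hval x hx D hDx).2
    rw [Nat.factorization_eq_zero_of_not_dvd (hval0 D hD _)] at h1
    omega
  have hpw : Set.PairwiseDisjoint (I : Set (Fin 3 × ℕ)) W := by
    intro x hx y hy hxy
    rw [Function.onFun, disjoint_left]
    intro D hD hD'
    obtain ⟨h1, h2⟩ := hval x hx D hD
    obtain ⟨h3, h4⟩ := hval y hy D hD'
    by_cases h5 : x.1 = y.1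
    · apply hxy
      rw [h5] at h2
      exact Prod.ext h5 (by omega)
    · have h6 := h3 x.1 h5
      rw [Nat.factorization_eq_zero_of_not_dvd h6] at h2
      omega
  refine ⟨E0 ∪ I.biUnion W, ?_, ?_⟩
  · intro D hD
    rw [mem_union, mem_biUnion] at hD
    rcases hD with hD | ⟨x, hx, hD⟩
    · exact ⟨(hE0 D hD).1.mono (subset_insert _ _), (hE0 D hD).2⟩
    · have hxf := (mem_product.1 hx).2
      rw [mem_image] at hD
      obtain ⟨D', hD', rfl⟩ := hD
      obtain ⟨g1, g2⟩ := hE x.2 hxf D' hD'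
      refine ⟨Dt_upd g1 hp hpP (mem_Icc.1 hxf).1 _, ?_⟩
      rw [wp_upd g1 hp hpP]
      have hw : 0 < wp (∏ i, D' i) := wp_pos (Finset.prod_pos fun i _ => g1.pos i)
      have hwR : (0 : ℝ) < (wp (∏ i, D' i) : ℝ) := by exact_mod_cast hw
      push_cast
      rw [Real.log_mul hwR.ne' (by positivity), Real.log_pow]
      linarith
  · rw [Finset.sum_union hdis, Finset.sum_biUnion hpw]
    congr 1
    have h1 : ∀ x ∈ I, ∑ D ∈ W x, 1 / (rad (∏ i, D i) : ℝ) =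
        1 / (p : ℝ) * ∑ D ∈ E x.2, 1 / (rad (∏ i, D i) : ℝ) := by
      intro x hx
      have hxf := (mem_product.1 hx).2
      rw [Finset.sum_image (fun D _ D' _ h => upd_inj (hqpos _) h), Finset.mul_sum]
      apply Finset.sum_congr rfl
      intro D hD
      obtain ⟨g1, -⟩ := hE x.2 hxf D hD
      rw [rad_upd g1 hp hpP]
      push_cast
      rw [one_div_mul_one_div, mul_comm]
    rw [Finset.sum_congr rfl h1, Finset.sum_product]
    simp only [Finset.sum_const, Finset.card_univ, Fintype.card_fin, nsmul_eq_mul]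
    rw [← Finset.mul_sum]
    push_cast
    ring

/-- the lower bound for the sum over the powerful triples -/
theorem LS {l m : ℝ} (hm : 0 ≤ m) (P : Finset ℕ) :
    (∀ p ∈ P, p.Prime ∧ Real.log p ≤ l ∧ 1 / ((p : ℝ) * Real.log p) ≤ m) →
    ∀ (k : ℕ) (L : ℝ), 0 ≤ L → ∃ T : Finset (Fin 3 → ℕ),
      (∀ D ∈ T, Dt P k D ∧ Real.log (wp (∏ i, D i)) ≤ L) ∧
      GG m l k (∑ p ∈ P, 1 / ((p : ℝ) * Real.log p)) L ≤
        ∑ D ∈ T, 1 / (rad (∏ i, D i) : ℝ) := by
  classical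
  have hzero : ∀ (P : Finset ℕ) (L S : ℝ), 0 ≤ L → ∃ T : Finset (Fin 3 → ℕ),
      (∀ D ∈ T, Dt P 0 D ∧ Real.log (wp (∏ i, D i)) ≤ L) ∧
      GG m l 0 S L ≤ ∑ D ∈ T, 1 / (rad (∏ i, D i) : ℝ) := by
    intro P L S hL
    refine ⟨{fun _ => 1}, ?_, ?_⟩
    · intro D hD
      rw [mem_singleton] at hD
      subst hD
      refine ⟨Dt_one P, ?_⟩
      simpa [wp, rad] using hL
    · rw [Finset.sum_singleton]
      simp [GG, rad]
  induction P using Finset.induction_on with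
  | empty =>
    intro _ k L hL
    rcases Nat.eq_zero_or_pos k with rfl | hk
    · exact hzero _ L _ hL
    · refine ⟨∅, by simp, ?_⟩
      rw [Finset.sum_empty, Finset.sum_empty]
      unfold GG
      have h1 : max (0 - (k : ℝ) * m) 0 = 0 := by
        apply max_eq_right
        have : 0 ≤ (k : ℝ) * m := by positivity
        linarith
      rw [h1, zero_pow (by omega)]
      simp
  | insert p P hpP ih =>
    intro hP k L hL
    have hP' : ∀ q ∈ P, q.Prime ∧ Real.log q ≤ l ∧ 1 / ((q : ℝ) * Real.log q) ≤ m :=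
      fun q hq => hP q (mem_insert_of_mem hq)
    obtain ⟨hp, hpl, hpm⟩ := hP p (mem_insert_self _ _)
    rcases Nat.eq_zero_or_pos k with rfl | hk
    · exact hzero _ L _ hL
    obtain ⟨k, rfl⟩ : ∃ k', k = k' + 1 := ⟨k - 1, by omega⟩
    have hp0 : (0 : ℝ) < p := by exact_mod_cast hp.pos
    have hlp : 0 < Real.log p := Real.log_pos (by exact_mod_cast hp.one_lt)
    obtain ⟨E0, hE0, hE0s⟩ := ih hP' (k + 1) L hL
    have hex : ∀ f : ℕ, ∃ T : Finset (Fin 3 → ℕ), f ∈ Icc 1 ⌊L / Real.log p⌋₊ →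
        ((∀ D ∈ T, Dt P k D ∧ Real.log (wp (∏ i, D i)) ≤ L - f * Real.log p) ∧
        GG m l k (∑ p ∈ P, 1 / ((p : ℝ) * Real.log p)) (L - f * Real.log p) ≤
          ∑ D ∈ T, 1 / (rad (∏ i, D i) : ℝ)) := by
      intro f
      by_cases hf : f ∈ Icc 1 ⌊L / Real.log p⌋₊
      · have h1 : (f : ℝ) ≤ L / Real.log p := (Nat.le_floor_iff (by positivity)).1 (mem_Icc.1 hf).2
        rw [le_div_iff₀ hlp] at h1
        obtain ⟨T, hT1, hT2⟩ := ih hP' k (L - f * Real.log p) (by linarith)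
        exact ⟨T, fun _ => ⟨hT1, hT2⟩⟩
      · exact ⟨∅, fun h => absurd h hf⟩
    choose E hE using hex
    obtain ⟨T, hT1, hT2⟩ := LS_step hp hpP E0 hE0 ⌊L / Real.log p⌋₊ E (fun f hf => (hE f hf).1)
    refine ⟨T, hT1, ?_⟩
    rw [hT2, Finset.sum_insert hpP, add_comm (1 / ((p : ℝ) * Real.log p))]
    refine (GG_step (S := ∑ p ∈ P, 1 / ((p : ℝ) * Real.log p)) hL hp0 hlp hpl hpm k).trans ?_
    apply add_le_add hE0s
    apply mul_le_mul_of_nonneg_left _ (by positivity)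
    exact Finset.sum_le_sum fun f hf => (hE f hf).2

end Pool.Agent.X4.RST
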