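import Mathlib
import Pool.Agent.X4.RST.Up

/-!
# The upper bound for the number of abc triples with `rad (abc) ≤ c ^ lam`
-/

set_option autoImplicit false

namespace Pool.Agent.X4.RST

open Finset Filter Pool.Agent.X4.HC

/-- the abc triples with `c ≤ X` and `rad (abc) ≤ c ^ lam` -/
def Sm (lam : ℝ) (X : ℕ) : Set (ℕ × ℕ) :=
  {t | 0 < t.1 ∧ 0 < t.2 ∧ Nat.Coprime t.1 t.2 ∧ t.1 + t.2 ≤ X ∧
    (rad (t.1 * t.2 * (t.1 + t.2)) : ℝ) ≤ ((t.1 + t.2 : ℕ) : ℝ) ^ lam}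

theorem Sm_finite (lam : ℝ) (X : ℕ) : (Sm lam X).Finite := by
  refine Set.Finite.subset (Finset.finite_toSet ((range (X + 1)) ×ˢ (range (X + 1)))) ?_
  rintro ⟨a, b⟩ ⟨h1, h2, h3, h4, h5⟩
  simp only at h1 h2 h4 h5
  simp only [coe_product, Set.mem_prod, coe_range, Set.mem_Iio]
  omega

/-- the part with `a ≤ b` and large radical -/
def Sb (lam : ℝ) (X : ℕ) : Set (ℕ × ℕ) :=
  {t | 0 < t.1 ∧ t.1 ≤ t.2 ∧ Nat.Coprime t.1 t.2 ∧ t.1 + t.2 ≤ X ∧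
    ((t.1 + t.2 : ℕ) : ℝ) ^ (2 : ℝ) < (rad (t.1 * t.2 * (t.1 + t.2)) : ℝ) ∧
    (rad (t.1 * t.2 * (t.1 + t.2)) : ℝ) ≤ ((t.1 + t.2 : ℕ) : ℝ) ^ lam}

theorem Sb_sub (lam : ℝ) (X : ℕ) : Sb lam X ⊆ Sm lam X := by
  rintro t ⟨h1, h2, h3, h4, h5, h6⟩
  exact ⟨h1, by omega, h3, h4, h6⟩

theorem Sb_le {lam : ℝ} (h2 : 2 < lam) (h3 : lam < 3) {δ K : ℝ}
    {X : ℕ} (hX : 1 ≤ X) (hK : ∀ W : ℝ, ((Tw X W).card : ℝ) ≤ K * (X : ℝ) ^ (1 + δ))
    {σ E : ℝ} (hσ0 : 0 < σ) (hσ1 : σ < 1) (hE : ∑ m ∈ Icc 1 X, wt 1 σ m ≤ E) :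
    ((Sb lam X).ncard : ℝ) ≤ ((Nat.log 2 X + 1 : ℕ) : ℝ) ^ 2 * (K * (X : ℝ) ^ (1 + δ) +
      64 * (X : ℝ) ^ (lam - 1) * (X : ℝ) ^ ((3 - lam) * σ) * E ^ 3) := by
  classical
  have hfin : (Sb lam X).Finite := (Sm_finite lam X).subset (Sb_sub lam X)
  rw [Set.ncard_eq_toFinset_card _ hfin]
  set S := hfin.toFinset with hS
  have hmem : ∀ t, t ∈ S ↔ t ∈ Sb lam X := fun t => by rw [hS, Set.Finite.mem_toFinset]
  set I := range (Nat.log 2 X + 1) ×ˢ range (Nat.log 2 X + 1) with hI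
  have hmaps : ∀ t ∈ S, (Nat.log 2 t.1, Nat.log 2 (t.1 + t.2)) ∈ I := by
    intro t ht
    rw [hmem] at ht
    obtain ⟨a0, a1, a2, a3, a4, a5⟩ := ht
    rw [hI, mem_product, mem_range, mem_range]
    have g1 : Nat.log 2 t.1 ≤ Nat.log 2 X := Nat.log_mono_right (by omega)
    have g2 : Nat.log 2 (t.1 + t.2) ≤ Nat.log 2 X := Nat.log_mono_right a3
    exact ⟨Nat.lt_succ_of_le g1, Nat.lt_succ_of_le g2⟩
  have hcard := Finset.card_eq_sum_card_fiberwise (s := S) (t := I)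
    (f := fun t : ℕ × ℕ => (Nat.log 2 t.1, Nat.log 2 (t.1 + t.2)))
    (fun t ht => hmaps t (mem_coe.1 ht))
  rw [hcard]
  push_cast
  set B : ℝ := K * (X : ℝ) ^ (1 + δ) +
      64 * (X : ℝ) ^ (lam - 1) * (X : ℝ) ^ ((3 - lam) * σ) * E ^ 3 with hB
  have hE0 : 0 ≤ E := le_trans (Finset.sum_nonneg fun n _ => wt_nonneg zero_le_one _ _) hE
  have hX0 : (0 : ℝ) < X := by exact_mod_cast hX
  have hB0 : 0 ≤ B := by
    have h4 : 0 ≤ K * (X : ℝ) ^ (1 + δ) := (Nat.cast_nonneg _).trans (hK 0)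
    rw [hB]
    positivity
  have hone : ∀ q ∈ I, (((S.filter fun t : ℕ × ℕ =>
      (Nat.log 2 t.1, Nat.log 2 (t.1 + t.2)) = q).card : ℕ) : ℝ) ≤ B := by
    intro q hq
    rcases (S.filter fun t : ℕ × ℕ => (Nat.log 2 t.1, Nat.log 2 (t.1 + t.2)) = q).eq_empty_or_nonempty
      with h | ⟨t0, ht0⟩
    · rw [h, card_empty, Nat.cast_zero]
      exact hB0
    · rw [mem_filter, hmem] at ht0
      obtain ⟨⟨a0, a1, a2, a3, a4, a5⟩, hq0⟩ := ht0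
      have e1 : Nat.log 2 t0.1 = q.1 := by rw [← hq0]
      have e2 : Nat.log 2 (t0.1 + t0.2) = q.2 := by rw [← hq0]
      refine box (A := 2 ^ q.1) (C := 2 ^ q.2) (δ := δ) h2 h3 hσ0 hσ1 hE (by positivity)
        (one_le_pow₀ (by norm_num)) ?_ ?_ hK _ ?_
      · have := Nat.pow_log_le_self 2 (show t0.1 + t0.2 ≠ 0 by omega)
        rw [e2] at this
        exact_mod_cast this.trans a3
      · have h4 := Nat.pow_log_le_self 2 (show t0.1 ≠ 0 by omega)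
        have h5 := Nat.lt_pow_succ_log_self (b := 2) (by norm_num) (t0.1 + t0.2)
        rw [e1] at h4
        rw [e2, pow_succ] at h5
        have h6 : 2 ^ q.1 ≤ 2 * 2 ^ q.2 := by omega
        exact_mod_cast h6
      · intro t ht
        rw [mem_filter, hmem] at ht
        obtain ⟨⟨b0, b1, b2, b3, b4, b5⟩, hq1⟩ := ht
        have e3 : Nat.log 2 t.1 = q.1 := by rw [← hq1]
        have e4 : Nat.log 2 (t.1 + t.2) = q.2 := by rw [← hq1]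
        have h4 := Nat.pow_log_le_self 2 (show t.1 ≠ 0 by omega)
        have h5 := Nat.lt_pow_succ_log_self (b := 2) (by norm_num) t.1
        have h6 := Nat.pow_log_le_self 2 (show t.1 + t.2 ≠ 0 by omega)
        have h7 := Nat.lt_pow_succ_log_self (b := 2) (by norm_num) (t.1 + t.2)
        rw [e3] at h4 h5
        rw [e4] at h6 h7
        rw [pow_succ, mul_comm] at h5 h7
        refine ⟨b0, b1, b2, b3, by exact_mod_cast h4, by exact_mod_cast h5, by exact_mod_cast h6,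
          by exact_mod_cast h7, b4, b5⟩
  refine (Finset.sum_le_sum hone).trans ?_
  rw [Finset.sum_const, hI, card_product, card_range, nsmul_eq_mul, sq]
  push_cast
  exact le_rfl

theorem up (lam : ℝ) (h2 : 2 < lam) (h3 : lam < 3) (δ : ℝ) (hδ : 0 < δ) : ∃ K : ℝ, 0 < K ∧
    ∀ X : ℕ, 1 ≤ X → ∀ σ E : ℝ, 0 < σ → σ < 1 → (∑ m ∈ Icc 1 X, wt 1 σ m ≤ E) →
      ((Sm lam X).ncard : ℝ) ≤ K * ((Nat.log 2 X + 1 : ℕ) : ℝ) ^ 2 * ((X : ℝ) ^ (1 + δ) +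
        (X : ℝ) ^ (lam - 1) * (X : ℝ) ^ ((3 - lam) * σ) * E ^ 3) := by
  obtain ⟨K, hK0, hK⟩ := card_Tw δ hδ
  obtain ⟨C, hC⟩ := Pool.Agent.W221.ABC7.count_FxB 1 2 δ (by norm_num) hδ
  have hF2 : Pool.Agent.W221.ABC7.Fx 2 = 1 := by
    unfold Pool.Agent.W221.ABC7.Fx
    norm_num
  refine ⟨2 * K + 128 + |C|, by positivity, fun X hX σ E hσ0 hσ1 hE => ?_⟩
  have hX0 : (0 : ℝ) < X := by exact_mod_cast hX
  have hE0 : 0 ≤ E := le_trans (Finset.sum_nonneg fun n _ => wt_nonneg zero_le_one _ _) hE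
  have h4 := Sb_le h2 h3 (δ := δ) hX (hK X) hσ0 hσ1 hE
  set Lg : ℝ := ((Nat.log 2 X + 1 : ℕ) : ℝ) ^ 2 with hLg
  have hLg1 : 1 ≤ Lg := by
    rw [hLg]
    apply one_le_pow₀
    exact_mod_cast Nat.le_add_left 1 _
  -- the small radicals
  have hsmall : (({t | t ∈ Sm lam X ∧ (rad (t.1 * t.2 * (t.1 + t.2)) : ℝ) ≤
      ((t.1 + t.2 : ℕ) : ℝ) ^ (2 : ℝ)}.ncard : ℕ) : ℝ) ≤ |C| * (X : ℝ) ^ (1 + δ) := by
    have h5 := hC X hX
    rw [hF2] at h5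
    have h6 : {t | t ∈ Sm lam X ∧ (rad (t.1 * t.2 * (t.1 + t.2)) : ℝ) ≤
        ((t.1 + t.2 : ℕ) : ℝ) ^ (2 : ℝ)}.ncard ≤ (Pool.Agent.W221.ABC7.ExcB 1 2 X).ncard := by
      refine Set.ncard_le_ncard_of_injOn (fun t : ℕ × ℕ => (t.1, t.2, t.1 + t.2)) ?_ ?_
        (Pool.Agent.W221.ABC7.excB_finite _ _ _)
      · rintro t ⟨⟨b1, b2, b3, b4, b5⟩, b6⟩
        refine ⟨b1, b2, b3, rfl, b4, ?_⟩
        rw [one_mul]
        exact b6
      · intro t _ u _ h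
        simp only [Prod.mk.injEq] at h
        exact Prod.ext h.1 h.2.1
    calc _ ≤ ((Pool.Agent.W221.ABC7.ExcB 1 2 X).ncard : ℝ) := by exact_mod_cast h6
      _ ≤ _ := h5
      _ ≤ |C| * (X : ℝ) ^ (1 + δ) := mul_le_mul_of_nonneg_right (le_abs_self C) (by positivity)
  -- the swap
  have hsw : ((fun t : ℕ × ℕ => (t.2, t.1)) '' Sb lam X).ncard ≤ (Sb lam X).ncard :=
    Set.ncard_image_le ((Sm_finite lam X).subset (Sb_sub lam X))
  have hfin : (Sb lam X).Finite := (Sm_finite lam X).subset (Sb_sub lam X)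
  have hcov : Sm lam X ⊆ (Sb lam X ∪ (fun t : ℕ × ℕ => (t.2, t.1)) '' Sb lam X) ∪
      {t | t ∈ Sm lam X ∧ (rad (t.1 * t.2 * (t.1 + t.2)) : ℝ) ≤
        ((t.1 + t.2 : ℕ) : ℝ) ^ (2 : ℝ)} := by
    intro t ht
    rcases le_or_gt (rad (t.1 * t.2 * (t.1 + t.2)) : ℝ) (((t.1 + t.2 : ℕ) : ℝ) ^ (2 : ℝ))
      with h | h
    · exact Or.inr ⟨ht, h⟩
    · left
      obtain ⟨b1, b2, b3, b4, b5⟩ := ht
      rcases le_total t.1 t.2 with h' | h'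
      · exact Or.inl ⟨b1, h', b3, b4, h, b5⟩
      · right
        refine ⟨(t.2, t.1), ⟨b2, h', b3.symm, ?_, ?_, ?_⟩, rfl⟩
        · simp only
          omega
        · simp only
          rw [mul_comm t.2 t.1, add_comm t.2 t.1]
          exact h
        · simp only
          rw [mul_comm t.2 t.1, add_comm t.2 t.1]
          exact b5
  have h7 : (Sm lam X).ncard ≤ (Sb lam X).ncard + (Sb lam X).ncard +
      {t | t ∈ Sm lam X ∧ (rad (t.1 * t.2 * (t.1 + t.2)) : ℝ) ≤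
        ((t.1 + t.2 : ℕ) : ℝ) ^ (2 : ℝ)}.ncard := by
    refine (Set.ncard_le_ncard hcov ((hfin.union (hfin.image _)).union
      ((Sm_finite lam X).subset fun t ht => ht.1))).trans ?_
    refine (Set.ncard_union_le _ _).trans ?_
    refine Nat.add_le_add_right ?_ _
    refine (Set.ncard_union_le _ _).trans ?_
    exact Nat.add_le_add_left hsw _
  have h8 : ((Sm lam X).ncard : ℝ) ≤ ((Sb lam X).ncard : ℝ) + ((Sb lam X).ncard : ℝ) +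
      (({t | t ∈ Sm lam X ∧ (rad (t.1 * t.2 * (t.1 + t.2)) : ℝ) ≤
        ((t.1 + t.2 : ℕ) : ℝ) ^ (2 : ℝ)}.ncard : ℕ) : ℝ) := by exact_mod_cast h7
  set P : ℝ := (X : ℝ) ^ (1 + δ) with hP
  set Q : ℝ := (X : ℝ) ^ (lam - 1) * (X : ℝ) ^ ((3 - lam) * σ) * E ^ 3 with hQ
  have hP0 : 0 ≤ P := by positivity
  have hQ0 : 0 ≤ Q := by positivity
  have e4 : 64 * (X : ℝ) ^ (lam - 1) * (X : ℝ) ^ ((3 - lam) * σ) * E ^ 3 = 64 * Q := by
    rw [hQ]; ring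
  rw [e4] at h4
  have h9 : |C| * P ≤ |C| * (Lg * P) := by
    apply mul_le_mul_of_nonneg_left _ (abs_nonneg C)
    nlinarith
  have h10 : 0 ≤ |C| * (Lg * Q) := by positivity
  have h11 : 0 ≤ K * (Lg * Q) := by positivity
  have h12 : 0 ≤ Lg * P := by positivity
  have e5 : (2 * K + 128 + |C|) * Lg * (P + Q) = 2 * (Lg * (K * P + 64 * Q)) + |C| * (Lg * P) +
      |C| * (Lg * Q) + 2 * (K * (Lg * Q)) + 128 * (Lg * P) := by ring
  rw [e5]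
  linarith

end Pool.Agent.X4.RST
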