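import Mathlib
import Pool.Agent.X4.RST.Rec
import Pool.Agent.X4.RST.Cnt
import Pool.Agent.X4.RST.Up2

/-!
# The lower bound, finite form
-/

set_option autoImplicit false

namespace Pool.Agent.X4.RST

open Finset Pool.Agent.X4.HC

theorem Dat_of_Dt {P : Finset ℕ} {k : ℕ} {D : Fin 3 → ℕ} (h : Dt P k D) :
    Dat P k (D 0, D 1, D 2) where
  p1 := h.pos 0
  p2 := h.pos 1
  p3 := h.pos 2
  c12 := h.cop 0 1 (by decide)
  c13 := h.cop 0 2 (by decide)
  c23 := h.cop 1 2 (by decide)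
  sub := by
    intro q hq hd
    rcases (Nat.Prime.dvd_mul hq).1 hd with h1 | h1
    · rcases (Nat.Prime.dvd_mul hq).1 h1 with h2 | h2
      · exact h.sub q 0 hq h2
      · exact h.sub q 1 hq h2
    · exact h.sub q 2 hq h1
  sq1 := fun q hq hd => h.sq q 0 hq hd
  sq2 := fun q hq hd => h.sq q 1 hq hd
  sq3 := fun q hq hd => h.sq q 2 hq hd
  card := by
    have := h.card
    rw [Fin.prod_univ_three] at this
    exact this

/-- the powerful part is determined -/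
theorem Pp_unique {P : Finset ℕ} {D D' n : ℕ} (hn : 0 < n) (hD0 : 0 < D) (hD0' : 0 < D')
    (h1 : ∀ q, q.Prime → q ∣ D → q ∈ P) (h1' : ∀ q, q.Prime → q ∣ D' → q ∈ P)
    (h2 : ∀ q, q.Prime → q ∣ D → q ^ 2 ∣ D) (h2' : ∀ q, q.Prime → q ∣ D' → q ^ 2 ∣ D')
    (h : Pp P D n) (h' : Pp P D' n) : D = D' := by
  have key : ∀ {D : ℕ}, 0 < D → (∀ q, q.Prime → q ∣ D → q ∈ P) → Pp P D n → ∀ q, q.Prime →
      q ∣ D → D.factorization q = n.factorization q := by
    intro D hD0 h1 h q hq hd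
    apply le_antisymm
    · exact (Nat.factorization_le_iff_dvd hD0.ne' hn.ne').2 h.dvd q
    · by_contra hlt
      rw [not_le] at hlt
      apply h.a q (h1 q hq hd) hd
      rw [← Nat.factorization_le_iff_dvd (by have := hq.pos; positivity) hn.ne']
      intro r
      rw [Nat.factorization_mul hq.pos.ne' hD0.ne', Finsupp.add_apply, hq.factorization]
      by_cases hr : r = q
      · subst hr
        rw [Finsupp.single_eq_same]
        omega
      · rw [Finsupp.single_eq_of_ne hr, zero_add]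
        exact (Nat.factorization_le_iff_dvd hD0.ne' hn.ne').2 h.dvd r
  apply Nat.eq_of_factorization_eq hD0.ne' hD0'.ne'
  intro q
  by_cases hq : q.Prime
  swap
  · rw [Nat.factorization_eq_zero_of_not_prime _ hq, Nat.factorization_eq_zero_of_not_prime _ hq]
  by_cases hd : q ∣ D
  · have hd' : q ∣ D' := by
      by_contra hcon
      exact h'.b q (h1 q hq hd) hcon ((h2 q hq hd).trans h.dvd)
    rw [key hD0 h1 h q hq hd, key hD0' h1' h' q hq hd']
  · have hd' : ¬ q ∣ D' := by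
      intro hcon
      exact h.b q (h1' q hq hcon) hd ((h2' q hq hcon).trans h'.dvd)
    rw [Nat.factorization_eq_zero_of_not_dvd hd, Nat.factorization_eq_zero_of_not_dvd hd']

/-- a divisor bounds the radical -/
theorem rad_mul_wp_le {D n : ℕ} (hn : 0 < n) (h : D ∣ n) : rad n * wp D ≤ n := by
  obtain ⟨m, rfl⟩ := h
  have hD : 0 < D := Nat.pos_of_mul_pos_right hn
  have hm : 0 < m := Nat.pos_of_mul_pos_left hn
  have h1 : rad (D * m) ∣ rad D * rad m := by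
    unfold rad
    rw [Nat.primeFactors_mul hD.ne' hm.ne']
    have : (∏ p ∈ D.primeFactors ∪ m.primeFactors, p) *
        (∏ p ∈ D.primeFactors ∩ m.primeFactors, p) =
        (∏ p ∈ D.primeFactors, p) * ∏ p ∈ m.primeFactors, p := Finset.prod_union_inter
    exact Dvd.intro _ this
  have h2 : rad (D * m) ≤ rad D * m := by
    have h3 := Nat.le_of_dvd (Nat.mul_pos (rad_pos D) (rad_pos m)) h1
    have h4 := Nat.le_of_dvd hm (rad_dvd m)
    exact h3.trans (Nat.mul_le_mul_left _ h4)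
  calc rad (D * m) * wp D ≤ rad D * m * wp D := Nat.mul_le_mul_right _ h2
    _ = (wp D * rad D) * m := by ring
    _ = D * m := by rw [wp_mul]

/-- the exponent of two -/
theorem exists_two {w : ℕ} {W : ℝ} (hw : 0 < w) (hW : (w : ℝ) ≤ W) :
    ∃ j : ℕ, W ≤ (w : ℝ) * 2 ^ j ∧ (w : ℝ) * 2 ^ j ≤ 2 * W := by
  have hw0 : (1 : ℝ) ≤ w := by exact_mod_cast hw
  have hW0 : 0 < W := by linarith
  have hex : ∃ j : ℕ, W ≤ (w : ℝ) * 2 ^ j := by
    obtain ⟨j, hj⟩ := pow_unbounded_of_one_lt W (show (1 : ℝ) < 2 by norm_num)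
    refine ⟨j, hj.le.trans ?_⟩
    have : (0 : ℝ) < 2 ^ j := by positivity
    nlinarith
  classical
  refine ⟨Nat.find hex, Nat.find_spec hex, ?_⟩
  rcases Nat.eq_zero_or_pos (Nat.find hex) with h | h
  · rw [h, pow_zero, mul_one]
    linarith
  · have h1 := Nat.find_min hex (show Nat.find hex - 1 < Nat.find hex by omega)
    rw [not_le] at h1
    obtain ⟨i, hi⟩ : ∃ i, Nat.find hex = i + 1 := ⟨Nat.find hex - 1, by omega⟩
    rw [hi] at h1 ⊢
    rw [Nat.add_sub_cancel] at h1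
    rw [pow_succ]
    linarith

/-- the good pairs have small radical -/
theorem TG_sub {H : ℕ} {P : Finset ℕ} {D1 D2 D3 j : ℕ} {lam : ℝ} (h2 : 2 < lam)
    (hH : 0 < H) (hc : Cp Q0 D1 D2 D3 (j + 1))
    (hW : 4 * (H : ℝ) ^ (3 - lam) ≤ (wp (D1 * D2 * D3) : ℝ) * 2 ^ j) {t : ℕ × ℕ}
    (ht : Gd H P (D1, D2, D3) (j + 1) t) : t ∈ Sm lam (4 * H) := by
  have ha1 := mem_Ioc.1 ht.a1
  have ha2 := mem_Ioc.1 ht.a2
  refine ⟨by omega, by omega, ht.cop, by omega, ?_⟩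
  have hH0 : (0 : ℝ) < H := by exact_mod_cast hH
  set n := t.1 * t.2 * (t.1 + t.2) with hn
  have hn0 : 0 < n := by
    have h3 : 0 < t.1 := by omega
    have h4 : 0 < t.2 := by omega
    positivity
  -- divisibility
  have c1e : Nat.Coprime D1 (2 ^ (j + 1)) :=
    Nat.Coprime.pow_right _ (Nat.Coprime.coprime_mul_right_right hc.c1)
  have c2e : Nat.Coprime D2 (2 ^ (j + 1)) :=
    Nat.Coprime.coprime_dvd_right (pow_dvd_pow 2 (by omega)) hc.c2e
  have c3e : Nat.Coprime D3 (2 ^ (j + 1)) :=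
    Nat.Coprime.coprime_dvd_right (pow_dvd_pow 2 (by omega)) hc.c3e
  have he : 2 ^ (j + 1) ∣ t.1 + t.2 := by
    have h3 : t.1 + t.2 ≡ 2 ^ (j + 1) [MOD 2 ^ (j + 1)] :=
      ht.e3.of_dvd (pow_dvd_pow 2 (by omega))
    exact Nat.modEq_zero_iff_dvd.1 (h3.trans (Nat.modEq_zero_iff_dvd.2 dvd_rfl))
  have h3e : D3 * 2 ^ (j + 1) ∣ t.1 + t.2 := c3e.mul_dvd_of_dvd_of_dvd ht.g3.dvd he
  have hdvd : D1 * D2 * D3 * 2 ^ (j + 1) ∣ n := by
    rw [mul_assoc]
    exact mul_dvd_mul (mul_dvd_mul ht.g1.dvd ht.g2.dvd) h3e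
  have h4 := rad_mul_wp_le hn0 hdvd
  have hcop : Nat.Coprime (D1 * D2 * D3) (2 ^ (j + 1)) :=
    Nat.Coprime.mul_left (Nat.Coprime.mul_left c1e c2e) c3e
  rw [wp_mul2 hcop, wp_pp Nat.prime_two] at h4
  have h5 : (rad n : ℝ) * ((wp (D1 * D2 * D3) : ℝ) * 2 ^ j) ≤ n := by exact_mod_cast h4
  have h6 : (n : ℝ) ≤ 16 * (H : ℝ) ^ 3 := by
    have h7 : n ≤ (2 * H) * (2 * H) * (4 * H) := by
      rw [hn]
      exact Nat.mul_le_mul (Nat.mul_le_mul ha1.2 ha2.2) (by omega)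
    have h8 : (n : ℝ) ≤ (((2 * H) * (2 * H) * (4 * H) : ℕ) : ℝ) := by exact_mod_cast h7
    refine h8.trans (le_of_eq ?_)
    push_cast
    ring
  have h9 : (rad n : ℝ) * (4 * (H : ℝ) ^ (3 - lam)) ≤ 16 * (H : ℝ) ^ 3 :=
    (mul_le_mul_of_nonneg_left hW (Nat.cast_nonneg _)).trans (h5.trans h6)
  have h10 : (H : ℝ) ^ (3 - lam) * (H : ℝ) ^ lam = (H : ℝ) ^ 3 := by
    rw [← Real.rpow_add hH0, ← Real.rpow_natCast]
    congr 1
    push_cast
    ring
  have hp : (0 : ℝ) < (H : ℝ) ^ (3 - lam) := by positivity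
  have h11 : (rad n : ℝ) ≤ 4 * (H : ℝ) ^ lam := by
    rw [← h10] at h9
    have h12 : (rad n : ℝ) * (4 * (H : ℝ) ^ (3 - lam)) ≤
        (4 * (H : ℝ) ^ lam) * (4 * (H : ℝ) ^ (3 - lam)) := by
      refine h9.trans (le_of_eq ?_)
      ring
    exact le_of_mul_le_mul_right h12 (by positivity)
  refine h11.trans ?_
  have h13 : (4 : ℝ) ≤ 2 ^ lam := by
    calc (4 : ℝ) = 2 ^ (2 : ℝ) := by norm_num
      _ ≤ 2 ^ lam := Real.rpow_le_rpow_of_exponent_le (by norm_num) h2.le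
  calc 4 * (H : ℝ) ^ lam ≤ 2 ^ lam * (H : ℝ) ^ lam := by gcongr
    _ = (2 * (H : ℝ)) ^ lam := by rw [Real.mul_rpow (by norm_num) hH0.le]
    _ ≤ ((t.1 + t.2 : ℕ) : ℝ) ^ lam := by
        apply Real.rpow_le_rpow (by positivity) _ (by linarith)
        have : 2 * H ≤ t.1 + t.2 := by omega
        exact_mod_cast this

theorem rad_le_pow {P : Finset ℕ} {k Y : ℕ} {D : Fin 3 → ℕ} (h : Dt P k D)
    (hP : ∀ p ∈ P, p ≤ Y) : rad (∏ i, D i) ≤ Y ^ k := by
  unfold rad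
  calc ∏ p ∈ (∏ i, D i).primeFactors, p ≤ ∏ _p ∈ (∏ i, D i).primeFactors, Y := by
        apply Finset.prod_le_prod (fun _ _ => Nat.zero_le _)
        intro p hp
        have hpp := Nat.prime_of_mem_primeFactors hp
        have hpd := Nat.dvd_of_mem_primeFactors hp
        obtain ⟨i, -, hi⟩ := (Prime.dvd_finsetProd_iff hpp.prime D).1 hpd
        exact hP p (h.sub p i hpp hi)
    _ = Y ^ k := by rw [Finset.prod_const, h.card]

open Classical in
/-- the lower bound, finite form -/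
theorem lo {lam : ℝ} (h2 : 2 < lam) {H k y Y : ℕ} (hH : 0 < H) {P : Finset ℕ}
    (hP : ∀ p ∈ P, p.Prime ∧ y < p ∧ p ≤ Y) (hy : 1024 ≤ y) (hk : 1024 * k ≤ y)
    (hyY : y ≤ Y) (hY : 1024 * Q0 ^ 2 ≤ Y)
    (hV : 64 * (Q0 : ℝ) * (H : ℝ) ^ (3 - lam) * (Y : ℝ) ^ (k + 2) ≤ H)
    (hV2 : 16384 * (Q0 : ℝ) ^ 2 * (H : ℝ) ^ (3 - lam) * (Y : ℝ) ^ k *
      (1 + Real.log ((2 * H : ℕ) : ℝ)) ≤ H) (T : Finset (Fin 3 → ℕ))
    (hT : ∀ D ∈ T, Dt P k D ∧ Real.log (wp (∏ i, D i)) ≤ Real.log (4 * (H : ℝ) ^ (3 - lam))) :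
    (H : ℝ) ^ (lam - 1) / (512 * (Q0 : ℝ) ^ 2) * ∑ D ∈ T, 1 / (rad (∏ i, D i) : ℝ) ≤
      ((Sm lam (4 * H)).ncard : ℝ) := by
  have hH0 : (0 : ℝ) < H := by exact_mod_cast hH
  have hQ0 : (0 : ℝ) < Q0 := by exact_mod_cast Q0_pos
  have hW0 : (0 : ℝ) < 4 * (H : ℝ) ^ (3 - lam) := by positivity
  have hwpos : ∀ D ∈ T, 0 < wp (∏ i, D i) := fun D hD =>
    wp_pos (Finset.prod_pos fun i _ => (hT D hD).1.pos i)
  have hwW : ∀ D ∈ T, (wp (∏ i, D i) : ℝ) ≤ 4 * (H : ℝ) ^ (3 - lam) := by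
    intro D hD
    have : (0 : ℝ) < (wp (∏ i, D i) : ℝ) := by exact_mod_cast hwpos D hD
    exact (Real.log_le_log_iff this hW0).1 (hT D hD).2
  have hj : ∀ D : Fin 3 → ℕ, ∃ j : ℕ, D ∈ T → (4 * (H : ℝ) ^ (3 - lam) ≤
      (wp (∏ i, D i) : ℝ) * 2 ^ j ∧ (wp (∏ i, D i) : ℝ) * 2 ^ j ≤ 2 * (4 * (H : ℝ) ^ (3 - lam))) := by
    intro D
    by_cases hD : D ∈ T
    · obtain ⟨j, hj⟩ := exists_two (hwpos D hD) (hwW D hD)
      exact ⟨j, fun _ => hj⟩
    · exact ⟨0, fun h => absurd h hD⟩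
  choose j hj using hj
  let U : (Fin 3 → ℕ) → Finset (ℕ × ℕ) := fun D => TG H P (D 0, D 1, D 2) (j D + 1)
  have hCp : ∀ D ∈ T, Cp Q0 (D 0) (D 1) (D 2) (j D + 1) := fun D hD =>
    Dat_Cp (Dat_of_Dt (hT D hD).1) (fun p hp => ⟨(hP p hp).1, by
      have := (hP p hp).2.1; omega⟩) _
  -- the single counts
  have hone : ∀ D ∈ T, (H : ℝ) ^ (lam - 1) / (512 * (Q0 : ℝ) ^ 2) * (1 / (rad (∏ i, D i) : ℝ)) ≤
      ((U D).card : ℝ) := by
    intro D hD
    obtain ⟨hj1, hj2⟩ := hj D hD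
    have hrad : rad (∏ i, D i) ≤ Y ^ k := rad_le_pow (hT D hD).1 (fun p hp => (hP p hp).2.2)
    have hradR : (rad (∏ i, D i) : ℝ) ≤ (Y : ℝ) ^ k := by exact_mod_cast hrad
    have hr0 : (0 : ℝ) < (rad (∏ i, D i) : ℝ) := by exact_mod_cast rad_pos _
    have hprod : (∏ i, D i) = D 0 * D 1 * D 2 := Fin.prod_univ_three D
    set V : ℝ := ((D 0 * D 1 * D 2 * 2 ^ (j D + 1 + 1) : ℕ) : ℝ) with hVd
    have hVe : V = 4 * ((wp (∏ i, D i) : ℝ) * 2 ^ (j D)) * (rad (∏ i, D i) : ℝ) := by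
      have h3 : (wp (∏ i, D i) : ℝ) * (rad (∏ i, D i) : ℝ) = ((D 0 * D 1 * D 2 : ℕ) : ℝ) := by
        rw [← hprod]
        exact_mod_cast wp_mul (∏ i, D i)
      rw [hVd]
      push_cast at h3 ⊢
      rw [← h3]
      ring
    have hVle : V ≤ 32 * (H : ℝ) ^ (3 - lam) * (rad (∏ i, D i) : ℝ) := by
      rw [hVe]
      apply mul_le_mul_of_nonneg_right _ hr0.le
      linarith
    have hV0 : 0 < V := by
      rw [hVd]
      have := (hT D hD).1.pos
      have h0 := this 0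
      have h1 := this 1
      have h3 := this 2
      exact_mod_cast (by positivity)
    have hYR : (0 : ℝ) ≤ Y := Nat.cast_nonneg _
    have hlog0 : 0 ≤ 1 + Real.log ((2 * H : ℕ) : ℝ) := by
      have : 0 ≤ Real.log ((2 * H : ℕ) : ℝ) := Real.log_natCast_nonneg _
      linarith
    have h := cnt (H := H) (k := k) (e := j D + 1) (y := y) (Y := Y) (P := P) (D1 := D 0)
      (D2 := D 1) (D3 := D 2) (Dat_of_Dt (hT D hD).1) hP hy hk hyY hY ?_ ?_
    · refine le_trans ?_ h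
      rw [← hVd]
      have e1 : (H : ℝ) ^ (lam - 1) * (H : ℝ) ^ (3 - lam) = (H : ℝ) ^ 2 := by
        rw [← Real.rpow_add hH0, ← Real.rpow_natCast]
        congr 1
        push_cast
        ring
      calc (H : ℝ) ^ (lam - 1) / (512 * (Q0 : ℝ) ^ 2) * (1 / (rad (∏ i, D i) : ℝ)) =
          ((H : ℝ) ^ (lam - 1) * (H : ℝ) ^ (3 - lam)) /
            (16 * (Q0 : ℝ) ^ 2 * (32 * (H : ℝ) ^ (3 - lam) * (rad (∏ i, D i) : ℝ))) := by
            have : (0 : ℝ) < (H : ℝ) ^ (3 - lam) := by positivity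
            field_simp
            ring
        _ ≤ _ := by
            rw [e1]
            apply div_le_div_of_nonneg_left (by positivity) (by positivity)
            exact mul_le_mul_of_nonneg_left hVle (by positivity)
    · have h3 : 2 * (Q0 : ℝ) * V * (Y : ℝ) ^ 2 ≤ H := by
        refine le_trans ?_ hV
        calc 2 * (Q0 : ℝ) * V * (Y : ℝ) ^ 2 ≤
            2 * (Q0 : ℝ) * (32 * (H : ℝ) ^ (3 - lam) * (Y : ℝ) ^ k) * (Y : ℝ) ^ 2 := by
              have := hVle.trans (mul_le_mul_of_nonneg_left hradR (by positivity))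
              gcongr
          _ = _ := by ring
      rw [hVd] at h3
      exact_mod_cast h3
    · rw [← hVd]
      refine le_trans ?_ hV2
      calc 512 * (Q0 : ℝ) ^ 2 * V * (1 + Real.log ((2 * H : ℕ) : ℝ)) ≤
          512 * (Q0 : ℝ) ^ 2 * (32 * (H : ℝ) ^ (3 - lam) * (Y : ℝ) ^ k) *
            (1 + Real.log ((2 * H : ℕ) : ℝ)) := by
            have := hVle.trans (mul_le_mul_of_nonneg_left hradR (by positivity))
            gcongr
        _ = _ := by ring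
  -- disjointness
  have hdis : Set.PairwiseDisjoint (T : Set (Fin 3 → ℕ)) U := by
    intro D hD D' hD' hne
    rw [Function.onFun, disjoint_left]
    intro t ht ht'
    apply hne
    have g := mem_TG.1 ht
    have g' := mem_TG.1 ht'
    have d := (hT D hD).1
    have d' := (hT D' hD').1
    have ha1 := mem_Ioc.1 g.a1
    have ha2 := mem_Ioc.1 g.a2
    have e0 : D 0 = D' 0 := Pp_unique (by omega) (d.pos 0) (d'.pos 0) (fun q => d.sub q 0)
      (fun q => d'.sub q 0) (fun q => d.sq q 0) (fun q => d'.sq q 0) g.g1 g'.g1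
    have e1 : D 1 = D' 1 := Pp_unique (by omega) (d.pos 1) (d'.pos 1) (fun q => d.sub q 1)
      (fun q => d'.sub q 1) (fun q => d.sq q 1) (fun q => d'.sq q 1) g.g2 g'.g2
    have e2 : D 2 = D' 2 := Pp_unique (by omega) (d.pos 2) (d'.pos 2) (fun q => d.sub q 2)
      (fun q => d'.sub q 2) (fun q => d.sq q 2) (fun q => d'.sq q 2) g.g3 g'.g3
    funext i
    fin_cases i
    · exact e0
    · exact e1
    · exact e2
  have hsub : ((T.biUnion U : Finset (ℕ × ℕ)) : Set (ℕ × ℕ)) ⊆ Sm lam (4 * H) := by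
    intro t ht
    rw [mem_coe, mem_biUnion] at ht
    obtain ⟨D, hD, hDt⟩ := ht
    apply TG_sub h2 hH (hCp D hD) _ (mem_TG.1 hDt)
    have := (hj D hD).1
    rw [Fin.prod_univ_three] at this
    exact this
  have hcard : (T.biUnion U).card ≤ (Sm lam (4 * H)).ncard := by
    rw [← Set.ncard_coe_finset]
    exact Set.ncard_le_ncard hsub (Sm_finite _ _)
  rw [Finset.card_biUnion hdis] at hcard
  calc (H : ℝ) ^ (lam - 1) / (512 * (Q0 : ℝ) ^ 2) * ∑ D ∈ T, 1 / (rad (∏ i, D i) : ℝ) =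
      ∑ D ∈ T, (H : ℝ) ^ (lam - 1) / (512 * (Q0 : ℝ) ^ 2) * (1 / (rad (∏ i, D i) : ℝ)) := by
        rw [Finset.mul_sum]
    _ ≤ ∑ D ∈ T, ((U D).card : ℝ) := Finset.sum_le_sum hone
    _ ≤ _ := by exact_mod_cast hcard

end Pool.Agent.X4.RST
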