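import Mathlib
import Pool.Agent.X4.RST.Mert
import Pool.Agent.X4.RST.Sum
import Pool.Agent.X4.RST.Lem

/-!
# The asymptotic lower bound
-/

set_option autoImplicit false

namespace Pool.Agent.X4.RST

open Finset Filter

theorem fac_le (k : ℕ) (hk : 1 ≤ k) :
    (k.factorial : ℝ) * Real.exp ((k : ℝ) - 1) ≤ k * (k : ℝ) ^ k := by
  induction k, hk using Nat.le_induction with
  | base => simp
  | succ k hk ih =>
    have hk0 : (0 : ℝ) < k := by exact_mod_cast hk
    have h1 : Real.exp 1 * (k : ℝ) ^ (k + 1) ≤ ((k : ℝ) + 1) ^ (k + 1) := by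
      have h2 : 1 / ((k : ℝ) + 1) ≤ Real.log (((k : ℝ) + 1) / k) := by
        have := Real.one_sub_inv_le_log_of_pos (show 0 < ((k : ℝ) + 1) / k by positivity)
        refine le_trans (le_of_eq ?_) this
        field_simp
        ring
      have h3 : Real.exp 1 ≤ (((k : ℝ) + 1) / k) ^ (k + 1) := by
        have h4 : (((k : ℝ) + 1) / k) ^ (k + 1) =
            Real.exp (((k : ℝ) + 1) * Real.log (((k : ℝ) + 1) / k)) := by
          rw [← Real.rpow_natCast, Real.rpow_def_of_pos (by positivity)]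
          congr 1
          push_cast
          ring
        rw [h4]
        apply Real.exp_le_exp.2
        calc (1 : ℝ) = ((k : ℝ) + 1) * (1 / ((k : ℝ) + 1)) := by field_simp
          _ ≤ _ := mul_le_mul_of_nonneg_left h2 (by positivity)
      rw [div_pow, le_div_iff₀ (by positivity)] at h3
      exact h3
    have h5 : (((k + 1).factorial : ℕ) : ℝ) * Real.exp (((k + 1 : ℕ) : ℝ) - 1) =
        ((k : ℝ) + 1) * Real.exp 1 * ((k.factorial : ℝ) * Real.exp ((k : ℝ) - 1)) := by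
      rw [Nat.factorial_succ]
      push_cast
      have : Real.exp ((k : ℝ) + 1 - 1) = Real.exp 1 * Real.exp ((k : ℝ) - 1) := by
        rw [← Real.exp_add]
        congr 1
        ring
      rw [this]
      ring
    rw [h5]
    have he : 0 < Real.exp 1 := Real.exp_pos 1
    calc ((k : ℝ) + 1) * Real.exp 1 * ((k.factorial : ℝ) * Real.exp ((k : ℝ) - 1)) ≤
        ((k : ℝ) + 1) * Real.exp 1 * (k * (k : ℝ) ^ k) :=
          mul_le_mul_of_nonneg_left ih (by positivity)
      _ = ((k : ℝ) + 1) * (Real.exp 1 * (k : ℝ) ^ (k + 1)) := by ring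
      _ ≤ ((k : ℝ) + 1) * ((k : ℝ) + 1) ^ (k + 1) := mul_le_mul_of_nonneg_left h1 (by positivity)
      _ = _ := by push_cast; ring

theorem one_sub_ge {x : ℝ} (hx : 0 ≤ x) (hx2 : x ≤ 1 / 2) : Real.exp (-(2 * x)) ≤ 1 - x := by
  rw [Real.exp_neg]
  have h1 : 1 + 2 * x ≤ Real.exp (2 * x) := by
    have := Real.add_one_le_exp (2 * x)
    linarith
  rw [inv_le_comm₀ (Real.exp_pos _) (by linarith)]
  refine le_trans ?_ h1
  rw [inv_le_iff_one_le_mul₀ (by linarith)]
  nlinarith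

/-- the lower bound for `GG` -/
theorem GG_ge {ε m l S Λ r : ℝ} {k : ℕ} (hε : 0 ≤ ε) (hε1 : ε ≤ 1 / 10) (hk : 1 ≤ k)
    (hkr : (k : ℝ) ≤ r) {a b : ℝ} (ha : 0 ≤ a) (hb : 0 ≤ b)
    (ha1 : a ≤ S - k * m) (hb1 : b ≤ Λ - k * l) (hab : r ^ 2 * (1 - 5 * ε) ≤ 3 * (a * b)) :
    Real.exp (2 * ((k : ℝ) - 1) - 10 * ε * k - 2 * Real.log k) ≤ GG m l k S Λ := by
  have hk0 : (0 : ℝ) < k := by exact_mod_cast hk
  have hfac : (0 : ℝ) < (k.factorial : ℝ) := by exact_mod_cast Nat.factorial_pos k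
  have h1 : (k : ℝ) ^ 2 * (1 - 5 * ε) ≤ 3 * (a * b) := by
    refine le_trans ?_ hab
    apply mul_le_mul_of_nonneg_right _ (by linarith)
    exact pow_le_pow_left₀ hk0.le hkr 2
  have h2 : (3 * (a * b)) ^ k / (k.factorial : ℝ) ^ 2 ≤ GG m l k S Λ := by
    unfold GG
    rw [mul_pow, mul_pow, ← mul_assoc]
    apply div_le_div_of_nonneg_right _ (by positivity)
    have g1 : a ^ k ≤ max (S - k * m) 0 ^ k := pow_le_pow_left₀ ha (ha1.trans (le_max_left _ _)) k
    have g2 : b ^ k ≤ max (Λ - k * l) 0 ^ k := pow_le_pow_left₀ hb (hb1.trans (le_max_left _ _)) k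
    have g3 : 0 ≤ max (S - k * m) 0 := le_max_right _ _
    gcongr
  refine le_trans ?_ h2
  have h3 : ((k : ℝ) ^ 2 * (1 - 5 * ε)) ^ k / (k.factorial : ℝ) ^ 2 ≤
      (3 * (a * b)) ^ k / (k.factorial : ℝ) ^ 2 := by
    apply div_le_div_of_nonneg_right _ (by positivity)
    apply pow_le_pow_left₀ _ h1
    apply mul_nonneg (by positivity)
    linarith
  refine le_trans ?_ h3
  have h4 : ((k : ℝ) ^ 2 * (1 - 5 * ε)) ^ k / (k.factorial : ℝ) ^ 2 =
      (1 - 5 * ε) ^ k * ((k : ℝ) ^ k / (k.factorial : ℝ)) ^ 2 := by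
    rw [mul_pow, div_pow, ← pow_mul, ← pow_mul, mul_comm 2 k]
    ring
  rw [h4]
  have h5 : Real.exp ((k : ℝ) - 1) / k ≤ (k : ℝ) ^ k / (k.factorial : ℝ) := by
    rw [div_le_div_iff₀ hk0 hfac]
    have := fac_le k hk
    linarith
  have h6 : Real.exp (-(10 * ε)) ≤ 1 - 5 * ε := by
    have := one_sub_ge (x := 5 * ε) (by linarith) (by linarith)
    refine le_trans (le_of_eq ?_) this
    congr 1
    ring
  have h7 : Real.exp (2 * ((k : ℝ) - 1) - 10 * ε * k - 2 * Real.log k) =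
      Real.exp (-(10 * ε)) ^ k * (Real.exp ((k : ℝ) - 1) / k) ^ 2 := by
    rw [← Real.exp_nat_mul, div_pow, ← Real.exp_nat_mul, Real.exp_sub, Real.exp_sub,
      ← Real.log_rpow hk0, Real.exp_log (by positivity), ← mul_div_assoc, ← Real.exp_add,
      ← Real.exp_sub, Real.rpow_two]
    congr 2
    push_cast
    ring
  rw [h7]
  gcongr
  exact pow_nonneg (by linarith) k

/-- the root `√(6 x / log x)` -/
noncomputable def rt (x : ℝ) : ℝ := √(6 * x / Real.log x)

theorem log_div_tendsto : Tendsto (fun x : ℝ => Real.log x / x) atTop (nhds 0) := by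
  have := Real.isLittleO_log_id_atTop.tendsto_div_nhds_zero
  simpa using this

theorem rt_tendsto : Tendsto rt atTop atTop := by
  apply Real.tendsto_sqrt_atTop.comp
  have h : Tendsto (fun x : ℝ => x / Real.log x) atTop atTop := by
    have h1 : Tendsto (fun x : ℝ => Real.log x / x) atTop (nhdsWithin 0 (Set.Ioi 0)) := by
      rw [tendsto_nhdsWithin_iff]
      refine ⟨log_div_tendsto, ?_⟩
      filter_upwards [eventually_gt_atTop 1] with x hx
      exact div_pos (Real.log_pos hx) (by linarith)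
    have h2 := h1.inv_tendsto_nhdsGT_zero
    refine h2.congr fun x => ?_
    rw [Pi.inv_apply, inv_div]
  refine (h.const_mul_atTop (show (0 : ℝ) < 6 by norm_num)).congr fun x => ?_
  ring

/-- the asymptotic lower bound -/
theorem asy (ε : ℝ) (hε : 0 < ε) (hε1 : ε ≤ 1 / 10) : ∃ A : ℕ, 1 ≤ A ∧ ∀ᶠ x : ℝ in atTop,
    ∃ k y : ℕ, 1024 ≤ y ∧ 1024 * k ≤ y ∧ y ≤ y ^ A ∧ 1024 * Q0 ^ 2 ≤ y ^ A ∧
      ((k : ℝ) + 2) * (A * Real.log y) ≤ ε * x ∧
      Real.exp ((1 - 20 * ε) * (2 * rt x)) ≤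
        GG (1 / (y * Real.log y)) (A * Real.log y) k (PS y (y ^ A)) x := by
  set A : ℕ := ⌈1 / ε⌉₊ with hA
  have hA1 : 1 / ε ≤ A := Nat.le_ceil _
  have hA0 : 1 ≤ A := by
    rw [hA, Nat.one_le_ceil_iff]
    positivity
  have hAR : (0 : ℝ) < A := by exact_mod_cast hA0
  have hAinv : 1 / (A : ℝ) ≤ ε := by
    rw [div_le_iff₀ hAR]
    rw [div_le_iff₀ hε] at hA1
    linarith
  refine ⟨A, hA0, ?_⟩
  set s : ℝ := (1 + ε) / 2 with hs
  have hs0 : 0 < s := by positivity
  have hyt : Tendsto (fun x : ℝ => ⌊x ^ s⌋₊) atTop atTop :=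
    tendsto_nat_floor_atTop.comp (tendsto_rpow_atTop hs0)
  have hkt : Tendsto (fun x : ℝ => ⌊rt x⌋₊) atTop atTop :=
    tendsto_nat_floor_atTop.comp rt_tendsto
  set η : ℝ := min ε (1 / 1024) with hη
  have hη0 : 0 < η := by positivity
  -- `k ≤ η y`
  have hky : ∀ᶠ x : ℝ in atTop, √6 * x ^ (1 / 2 : ℝ) ≤ η * (x ^ s - 1) := by
    have h1 : Tendsto (fun x : ℝ => x ^ (s - 1 / 2)) atTop atTop :=
      tendsto_rpow_atTop (by rw [hs]; linarith)
    filter_upwards [h1.eventually_ge_atTop ((√6 + η) / η), eventually_ge_atTop 1] with x h2 h3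
    rw [div_le_iff₀ hη0] at h2
    have hx0 : 0 < x := by linarith
    have h4 : x ^ s = x ^ (1 / 2 : ℝ) * x ^ (s - 1 / 2) := by
      rw [← Real.rpow_add hx0]
      congr 1
      ring
    have h5 : (1 : ℝ) ≤ x ^ (1 / 2 : ℝ) := Real.one_le_rpow h3 (by norm_num)
    have h6 : (√6 + η) * x ^ (1 / 2 : ℝ) ≤ x ^ (s - 1 / 2) * η * x ^ (1 / 2 : ℝ) :=
      mul_le_mul_of_nonneg_right h2 (by linarith)
    rw [h4]
    nlinarith
  -- `(k + 2) A log y ≤ ε x`
  have hkl : ∀ᶠ x : ℝ in atTop, (√6 * x ^ (1 / 2 : ℝ) + 2) * (A * (s * Real.log x)) ≤ ε * x := by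
    have h1 : Tendsto (fun x : ℝ => Real.log x / x ^ (1 / 2 : ℝ)) atTop (nhds 0) :=
      (isLittleO_log_rpow_atTop (by norm_num)).tendsto_div_nhds_zero
    have hc0 : 0 < ε / ((√6 + 2) * (A * s)) := by positivity
    filter_upwards [h1.eventually_lt_const hc0, eventually_ge_atTop 1] with x h2 h3
    have hx0 : 0 < x := by linarith
    have h5 : (1 : ℝ) ≤ x ^ (1 / 2 : ℝ) := Real.one_le_rpow h3 (by norm_num)
    rw [div_lt_div_iff₀ (by linarith) (by positivity)] at h2
    have h6 : x ^ (1 / 2 : ℝ) * x ^ (1 / 2 : ℝ) = x := by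
      rw [← Real.rpow_add hx0]
      norm_num
    have hlog : 0 ≤ Real.log x := Real.log_nonneg h3
    calc (√6 * x ^ (1 / 2 : ℝ) + 2) * (A * (s * Real.log x)) ≤
        ((√6 + 2) * x ^ (1 / 2 : ℝ)) * (A * (s * Real.log x)) := by
          apply mul_le_mul_of_nonneg_right _ (by positivity)
          nlinarith
      _ = x ^ (1 / 2 : ℝ) * (Real.log x * ((√6 + 2) * (A * s))) := by ring
      _ ≤ x ^ (1 / 2 : ℝ) * (ε * x ^ (1 / 2 : ℝ)) :=
          mul_le_mul_of_nonneg_left h2.le (by positivity)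
      _ = ε * (x ^ (1 / 2 : ℝ) * x ^ (1 / 2 : ℝ)) := by ring
      _ = ε * x := by rw [h6]
  -- the error terms
  have herr : ∀ᶠ r : ℝ in atTop, 4 + 2 * Real.log r ≤ 30 * ε * r := by
    filter_upwards [log_div_tendsto.eventually_lt_const (show 0 < 10 * ε by positivity),
      eventually_ge_atTop (4 / (10 * ε)), eventually_gt_atTop 0] with r h1 h2 h3
    rw [div_lt_iff₀ h3] at h1
    rw [div_le_iff₀ (by positivity)] at h2
    linarith
  filter_upwards [hyt.eventually (PS_low ε hε A hA0), hyt.eventually (eventually_ge_atTop 1024),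
    hyt.eventually (eventually_ge_atTop (1024 * Q0 ^ 2)), hky, hkl, rt_tendsto.eventually herr,
    hkt.eventually (eventually_ge_atTop 1), eventually_ge_atTop (Real.exp 1)]
    with x h1 h2 h3 h4 h5 h6 h7 h8
  set y : ℕ := ⌊x ^ s⌋₊ with hy
  set k : ℕ := ⌊rt x⌋₊ with hk
  have hx1 : 1 < x := lt_of_lt_of_le (by
    have := Real.add_one_le_exp (1 : ℝ)
    linarith) h8
  have hx0 : 0 < x := by linarith
  have hlx : 1 ≤ Real.log x := by
    rw [Real.le_log_iff_exp_le hx0]
    exact h8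
  have hr0 : 0 ≤ rt x := Real.sqrt_nonneg _
  have hkr : (k : ℝ) ≤ rt x := Nat.floor_le hr0
  have hkr' : rt x - 1 ≤ k := by
    have := Nat.lt_floor_add_one (rt x)
    rw [← hk] at this
    linarith
  have hyA : y ≤ y ^ A := Nat.le_self_pow (by omega) y
  have hyu : (y : ℝ) ≤ x ^ s := Nat.floor_le (by positivity)
  have hyl : x ^ s - 1 ≤ y := by
    have := Nat.lt_floor_add_one (x ^ s)
    rw [← hy] at this
    linarith
  have hy0 : (0 : ℝ) < y := by exact_mod_cast (by omega : 0 < y)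
  have hly0 : 0 < Real.log y := Real.log_pos (by exact_mod_cast (by omega : 1 < y))
  have hly : Real.log y ≤ s * Real.log x := by
    rw [← Real.log_rpow hx0]
    exact Real.log_le_log hy0 hyu
  have hrx : rt x ≤ √6 * x ^ (1 / 2 : ℝ) := by
    unfold rt
    rw [← Real.sqrt_eq_rpow, ← Real.sqrt_mul (by norm_num)]
    apply Real.sqrt_le_sqrt
    rw [div_le_iff₀ (by linarith)]
    nlinarith
  have hkyη : (k : ℝ) ≤ η * y := by
    refine (hkr.trans hrx).trans (h4.trans ?_)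
    exact mul_le_mul_of_nonneg_left hyl hη0.le
  have hk1024 : 1024 * k ≤ y := by
    have : (k : ℝ) ≤ 1 / 1024 * y :=
      hkyη.trans (mul_le_mul_of_nonneg_right (min_le_right _ _) hy0.le)
    have h9 : (1024 : ℝ) * k ≤ y := by linarith
    exact_mod_cast h9
  have hkε : (k : ℝ) ≤ ε * y :=
    hkyη.trans (mul_le_mul_of_nonneg_right (min_le_left _ _) hy0.le)
  have hkl2 : ((k : ℝ) + 2) * (A * Real.log y) ≤ ε * x := by
    refine le_trans ?_ h5
    have := hkr.trans hrx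
    gcongr
  refine ⟨k, y, h2, hk1024, hyA, h3.trans hyA, hkl2, ?_⟩
  -- the main estimate
  have hk0 : (0 : ℝ) < k := by exact_mod_cast h7
  have ha1 : (1 - 3 * ε) / Real.log y ≤ PS y (y ^ A) - k * (1 / (y * Real.log y)) := by
    have e1 : (k : ℝ) * (1 / (y * Real.log y)) ≤ ε / Real.log y := by
      rw [mul_one_div, div_le_div_iff₀ (by positivity) hly0]
      nlinarith
    have e2 : (1 - 2 * ε) / Real.log y ≤ PS y (y ^ A) := by
      refine le_trans ?_ h1
      apply div_le_div_of_nonneg_right _ hly0.le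
      linarith
    have e3 : (1 - 3 * ε) / Real.log y = (1 - 2 * ε) / Real.log y - ε / Real.log y := by ring
    linarith
  have hb1 : (1 - ε) * x ≤ x - k * (A * Real.log y) := by
    have : (k : ℝ) * (A * Real.log y) ≤ ((k : ℝ) + 2) * (A * Real.log y) := by
      apply mul_le_mul_of_nonneg_right _ (by positivity)
      linarith
    linarith
  have hr2 : rt x ^ 2 = 6 * x / Real.log x := by
    unfold rt
    exact Real.sq_sqrt (by positivity)
  have hab : rt x ^ 2 * (1 - 5 * ε) ≤ 3 * ((1 - 3 * ε) / Real.log y * ((1 - ε) * x)) := by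
    rw [hr2]
    have e1 : 3 * ((1 - 3 * ε) / Real.log y * ((1 - ε) * x)) =
        3 * ((1 - 3 * ε) * (1 - ε)) * x / Real.log y := by ring
    have e2 : 3 * ((1 - 3 * ε) * (1 - ε)) * x / (s * Real.log x) ≤
        3 * ((1 - 3 * ε) * (1 - ε)) * x / Real.log y := by
      apply div_le_div_of_nonneg_left _ hly0 hly
      have : 0 ≤ (1 - 3 * ε) * (1 - ε) := mul_nonneg (by linarith) (by linarith)
      positivity
    rw [e1]
    refine le_trans ?_ e2
    rw [hs, div_mul_eq_mul_div, div_le_div_iff₀ (by linarith) (by positivity)]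
    have e3 : (1 - 5 * ε) * (1 + ε) ≤ (1 - 3 * ε) * (1 - ε) := by nlinarith
    have e4 : 0 ≤ x * Real.log x := by positivity
    nlinarith
  have hG := GG_ge (m := 1 / (y * Real.log y)) (l := A * Real.log y) (S := PS y (y ^ A)) (Λ := x)
    hε.le hε1 h7 hkr (a := (1 - 3 * ε) / Real.log y) (b := (1 - ε) * x)
    (div_nonneg (by linarith) hly0.le) (mul_nonneg (by linarith) hx0.le) ha1 hb1 hab
  refine le_trans ?_ hG
  apply Real.exp_le_exp.2
  have hlk : Real.log k ≤ Real.log (rt x) := Real.log_le_log hk0 hkr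
  have h10 : 10 * ε * k ≤ 10 * ε * rt x := by gcongr
  nlinarith

end Pool.Agent.X4.RST
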