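import Mathlib
import Pool.Agent.X4.RST.Asy

/-!
# Limits
-/

set_option autoImplicit false

namespace Pool.Agent.X4.RST

open Filter Topology

/-- `√(x / log x)` -/
noncomputable def gr (x : ℝ) : ℝ := √(x / Real.log x)

theorem div_log_tendsto : Tendsto (fun x : ℝ => x / Real.log x) atTop atTop := by
  have h1 : Tendsto (fun x : ℝ => Real.log x / x) atTop (𝓝[>] 0) := by
    rw [tendsto_nhdsWithin_iff]
    refine ⟨log_div_tendsto, ?_⟩
    filter_upwards [eventually_gt_atTop 1] with x hx
    exact div_pos (Real.log_pos hx) (by linarith)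
  have h2 := h1.inv_tendsto_nhdsGT_zero
  refine h2.congr fun x => ?_
  rw [Pi.inv_apply, inv_div]

theorem gr_tendsto : Tendsto gr atTop atTop := Real.tendsto_sqrt_atTop.comp div_log_tendsto

theorem log_div_gr : Tendsto (fun x : ℝ => Real.log x / gr x) atTop (𝓝 0) := by
  have h1 : Tendsto (fun x : ℝ => Real.log x ^ 3 / x) atTop (𝓝 0) := by
    have := (Real.isLittleO_pow_log_id_atTop (n := 3)).tendsto_div_nhds_zero
    simpa using this
  have h2 : Tendsto (fun x : ℝ => √(Real.log x ^ 3 / x)) atTop (𝓝 (√0)) :=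
    (Real.continuous_sqrt.tendsto 0).comp h1
  rw [Real.sqrt_zero] at h2
  refine h2.congr' ?_
  filter_upwards [eventually_gt_atTop 1] with x hx
  have hl : 0 < Real.log x := Real.log_pos hx
  have hx0 : 0 < x := by linarith
  unfold gr
  rw [eq_div_iff (by positivity), ← Real.sqrt_mul (by positivity)]
  have : Real.log x ^ 3 / x * (x / Real.log x) = Real.log x ^ 2 := by
    field_simp
  rw [this, Real.sqrt_sq hl.le]

variable {α : Type*} {F : Filter α}

theorem log_ratio {a l : α → ℝ} {κ : ℝ} (hκ : 0 < κ) (hl : Tendsto l F atTop)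
    (h : Tendsto (fun x => a x / l x) F (𝓝 κ)) :
    Tendsto (fun x => Real.log (a x) / Real.log (l x)) F (𝓝 1) := by
  have hll : Tendsto (fun x => Real.log (l x)) F atTop := Real.tendsto_log_atTop.comp hl
  have h1 : Tendsto (fun x => Real.log (a x / l x)) F (𝓝 (Real.log κ)) :=
    h.log hκ.ne'
  have h2 : Tendsto (fun x => Real.log (a x / l x) / Real.log (l x)) F (𝓝 0) :=
    h1.div_atTop hll
  have h3 : Tendsto (fun x => Real.log (a x / l x) / Real.log (l x) + 1) F (𝓝 (0 + 1)) :=
    h2.add_const 1
  rw [zero_add] at h3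
  refine h3.congr' ?_
  filter_upwards [h.eventually_const_lt hκ, hl.eventually_gt_atTop 1,
    hll.eventually_gt_atTop 0] with x h4 h5 h6
  have ha : 0 < a x := by
    have := (div_pos_iff_of_pos_right (show 0 < l x by linarith)).1 h4
    exact this
  rw [Real.log_div ha.ne' (by linarith)]
  field_simp
  ring

theorem rt_ratio {a l : α → ℝ} {κ : ℝ} (hκ : 0 < κ) (hl : Tendsto l F atTop)
    (h : Tendsto (fun x => a x / l x) F (𝓝 κ)) :
    Tendsto (fun x => rt (a x) / gr (l x)) F (𝓝 (√(6 * κ))) := by
  have h1 := log_ratio hκ hl h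
  have h2 : Tendsto (fun x => 6 * (a x / l x) / (Real.log (a x) / Real.log (l x))) F
      (𝓝 (6 * κ / 1)) := (h.const_mul 6).div h1 one_ne_zero
  rw [div_one] at h2
  have h3 : Tendsto (fun x => √(6 * (a x / l x) / (Real.log (a x) / Real.log (l x)))) F
      (𝓝 (√(6 * κ))) := (Real.continuous_sqrt.tendsto _).comp h2
  refine h3.congr' ?_
  have hll : Tendsto (fun x => Real.log (l x)) F atTop := Real.tendsto_log_atTop.comp hl
  filter_upwards [h1.eventually_const_lt one_pos, hl.eventually_gt_atTop 1,
    hll.eventually_gt_atTop 0] with x h4 h5 h6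
  have ha : 0 < Real.log (a x) := (div_pos_iff_of_pos_right h6).1 h4
  unfold rt gr
  rw [← Real.sqrt_div' _ (by positivity)]
  congr 1
  field_simp

/-- the second term of the upper bound -/
theorem u_ratio {κ : ℝ} (hκ : 0 < κ) :
    Tendsto (fun x : ℝ => (√(κ * (x * Real.log x)) / Real.log (√(κ * (x * Real.log x)))) / gr x)
      atTop (𝓝 (2 * √κ)) := by
  have hll : Tendsto (fun x => Real.log (Real.log x)) atTop atTop :=
    Real.tendsto_log_atTop.comp Real.tendsto_log_atTop
  have h1 : Tendsto (fun x => Real.log (Real.log x) / Real.log x) atTop (𝓝 0) :=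
    log_div_tendsto.comp Real.tendsto_log_atTop
  have h2 : Tendsto (fun x => Real.log κ / Real.log x) atTop (𝓝 0) :=
    tendsto_const_nhds.div_atTop Real.tendsto_log_atTop
  have h3 : Tendsto (fun x => (Real.log κ / Real.log x + 1 + Real.log (Real.log x) / Real.log x) / 2)
      atTop (𝓝 ((0 + 1 + 0) / 2)) := ((h2.add_const 1).add h1).div_const 2
  have h4 : Tendsto (fun x => √κ / ((Real.log κ / Real.log x + 1 +
      Real.log (Real.log x) / Real.log x) / 2)) atTop (𝓝 (√κ / ((0 + 1 + 0) / 2))) :=
    tendsto_const_nhds.div h3 (by norm_num)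
  have e : √κ / ((0 + 1 + 0) / 2) = 2 * √κ := by ring
  rw [e] at h4
  refine h4.congr' ?_
  filter_upwards [eventually_gt_atTop (Real.exp 1), h3.eventually_const_lt (by norm_num :
    (0 : ℝ) < (0 + 1 + 0) / 2)] with x hx h5
  have hx1 : 1 < x := lt_trans (by have := Real.add_one_le_exp (1 : ℝ); linarith) hx
  have hx0 : 0 < x := by linarith
  have hl : 0 < Real.log x := Real.log_pos hx1
  have hlu : Real.log (√(κ * (x * Real.log x))) =
      (Real.log κ + Real.log x + Real.log (Real.log x)) / 2 := by
    rw [Real.log_sqrt (by positivity), Real.log_mul hκ.ne' (by positivity),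
      Real.log_mul hx0.ne' hl.ne']
    ring
  rw [hlu]
  have e1 : (Real.log κ / Real.log x + 1 + Real.log (Real.log x) / Real.log x) / 2 =
      (Real.log κ + Real.log x + Real.log (Real.log x)) / 2 / Real.log x := by
    field_simp
  rw [e1] at h5 ⊢
  have h6 : 0 < (Real.log κ + Real.log x + Real.log (Real.log x)) / 2 :=
    (div_pos_iff_of_pos_right hl).1 h5
  have e2 : √(κ * (x * Real.log x)) = √κ * Real.log x * gr x := by
    unfold gr
    rw [Real.sqrt_mul hκ.le, mul_assoc]
    congr 1
    rw [← Real.sqrt_sq hl.le, ← Real.sqrt_mul (by positivity), Real.sqrt_sq hl.le]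
    congr 1
    field_simp
  have hg : 0 < gr x := by unfold gr; positivity
  rw [e2]
  field_simp

end Pool.Agent.X4.RST
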