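import Mathlib
import Pool.Agent.X4.RST.Lo
import Pool.Agent.X4.RST.Tend

/-!
# The second order law
-/

set_option autoImplicit false

namespace Pool.Agent.X4.RST

open Finset Filter Topology Pool.Agent.X4.HC

theorem Sm_mono {lam : ℝ} {X X' : ℕ} (h : X ≤ X') : (Sm lam X).ncard ≤ (Sm lam X').ncard := by
  apply Set.ncard_le_ncard _ (Sm_finite lam X')
  rintro t ⟨h1, h2, h3, h4, h5⟩
  exact ⟨h1, h2, h3, by omega, h5⟩

theorem log_tend : Tendsto (fun X : ℕ => Real.log (X : ℝ)) atTop atTop :=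
  Real.tendsto_log_atTop.comp tendsto_natCast_atTop_atTop

/-- the lower bound -/
theorem lower {lam : ℝ} (h2 : 2 < lam) (h3 : lam < 3) (ε : ℝ) (hε : 0 < ε) (hε1 : ε ≤ 1 / 10) :
    ∀ᶠ H : ℕ in atTop, (H : ℝ) ^ (lam - 1) / (512 * (Q0 : ℝ) ^ 2) *
      Real.exp ((1 - 20 * ε) * (2 * rt (Real.log (4 * (H : ℝ) ^ (3 - lam))))) ≤
        ((Sm lam (4 * H)).ncard : ℝ) := by
  -- a smaller `ε`
  obtain ⟨δ, hδ0, hδε, hδl⟩ : ∃ δ : ℝ, 0 < δ ∧ δ ≤ ε ∧ δ ≤ (lam - 2) / 2 :=
    ⟨min ε ((lam - 2) / 2), lt_min hε (by linarith), min_le_left _ _, min_le_right _ _⟩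
  obtain ⟨A, hA, hasy⟩ := asy δ hδ0 (hδε.trans hε1)
  have hΛ : Tendsto (fun H : ℕ => Real.log (4 * (H : ℝ) ^ (3 - lam))) atTop atTop := by
    apply Real.tendsto_log_atTop.comp
    apply Tendsto.const_mul_atTop (by norm_num)
    exact (tendsto_rpow_atTop (by linarith)).comp tendsto_natCast_atTop_atTop
  have hQ0 : (0 : ℝ) < Q0 := by exact_mod_cast Q0_pos
  -- sizes
  have hsz1 : ∀ᶠ H : ℕ in atTop, 64 * (Q0 : ℝ) * 4 ≤ (H : ℝ) ^ ((lam - 2) / 2) :=
    ((tendsto_rpow_atTop (by linarith)).comp tendsto_natCast_atTop_atTop).eventually_ge_atTop _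
  have hsz2 : ∀ᶠ H : ℕ in atTop, 16384 * (Q0 : ℝ) ^ 2 * 4 * (1 + Real.log ((2 * H : ℕ) : ℝ)) ≤
      (H : ℝ) ^ ((lam - 2) / 2) := by
    have g1 : Tendsto (fun x : ℝ => Real.log x / x ^ ((lam - 2) / 2)) atTop (𝓝 0) :=
      (isLittleO_log_rpow_atTop (by linarith)).tendsto_div_nhds_zero
    set K : ℝ := 16384 * (Q0 : ℝ) ^ 2 * 4 with hK
    have hK0 : 0 < K := by positivity
    have g2 := (g1.comp tendsto_natCast_atTop_atTop).eventually_lt_const
      (show 0 < 1 / (2 * K) by positivity)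
    have g3 : ∀ᶠ H : ℕ in atTop, 2 * K * (1 + Real.log 2) ≤ (H : ℝ) ^ ((lam - 2) / 2) :=
      ((tendsto_rpow_atTop (by linarith)).comp tendsto_natCast_atTop_atTop).eventually_ge_atTop _
    filter_upwards [g2, g3, eventually_ge_atTop 1] with H g4 g5 g6
    have hH0 : (0 : ℝ) < H := by exact_mod_cast g6
    have hp : 0 < (H : ℝ) ^ ((lam - 2) / 2) := by positivity
    simp only [Function.comp_apply] at g4
    rw [div_lt_div_iff₀ hp (by positivity), one_mul] at g4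
    push_cast
    rw [Real.log_mul (by norm_num) hH0.ne']
    linarith
  filter_upwards [hΛ.eventually hasy, hsz1, hsz2, eventually_ge_atTop 1] with H h4 h5 h6 h7
  obtain ⟨k, y, hy, hky, hyY, hYQ, hkl, hG⟩ := h4
  set Λ : ℝ := Real.log (4 * (H : ℝ) ^ (3 - lam)) with hΛdef
  have hH0 : (0 : ℝ) < H := by exact_mod_cast h7
  have hH1 : (1 : ℝ) ≤ H := by exact_mod_cast h7
  have hpos : 0 < 4 * (H : ℝ) ^ (3 - lam) := by positivity
  have hΛ0 : 0 ≤ Λ := by
    apply Real.log_nonneg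
    have : (1 : ℝ) ≤ (H : ℝ) ^ (3 - lam) := Real.one_le_rpow hH1 (by linarith)
    linarith
  have hy0 : (0 : ℝ) < y := by exact_mod_cast (by omega : 0 < y)
  have hly0 : 0 < Real.log y := Real.log_pos (by exact_mod_cast (by omega : 1 < y))
  set P : Finset ℕ := (Finset.Ioc y (y ^ A)).filter Nat.Prime with hP
  have hPm : ∀ p ∈ P, p.Prime ∧ y < p ∧ p ≤ y ^ A := by
    intro p hp
    rw [hP, mem_filter, Finset.mem_Ioc] at hp
    exact ⟨hp.2, hp.1.1, hp.1.2⟩
  obtain ⟨T, hT, hTs⟩ := LS (l := A * Real.log y) (m := 1 / (y * Real.log y)) (by positivity) P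
    (by
      intro p hp
      obtain ⟨g1, g2, g3⟩ := hPm p hp
      have hp0 : (0 : ℝ) < p := by exact_mod_cast g1.pos
      have g4 : (y : ℝ) ≤ p := by exact_mod_cast g2.le
      have g5 : Real.log y ≤ Real.log p := Real.log_le_log hy0 g4
      refine ⟨g1, ?_, ?_⟩
      · rw [← Real.log_pow]
        apply Real.log_le_log hp0
        exact_mod_cast g3
      · apply one_div_le_one_div_of_le (by positivity)
        gcongr) k Λ hΛ0
  -- the size of the power
  have hYpow : ∀ j : ℕ, j ≤ k + 2 → ((y ^ A : ℕ) : ℝ) ^ j ≤ 4 * (H : ℝ) ^ ((lam - 2) / 2) := by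
    intro j hj
    have g1 : ((y ^ A : ℕ) : ℝ) ^ j ≤ ((y ^ A : ℕ) : ℝ) ^ (k + 2) := by
      apply pow_le_pow_right₀ _ hj
      exact_mod_cast Nat.one_le_pow _ _ (by omega)
    refine g1.trans ?_
    have g2 : ((y ^ A : ℕ) : ℝ) ^ (k + 2) = Real.exp (((k : ℝ) + 2) * (A * Real.log y)) := by
      push_cast
      rw [← pow_mul, ← Real.rpow_natCast, Real.rpow_def_of_pos hy0]
      congr 1
      push_cast
      ring
    rw [g2]
    calc Real.exp (((k : ℝ) + 2) * (A * Real.log y)) ≤ Real.exp (δ * Λ) := Real.exp_le_exp.2 hkl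
      _ = (4 * (H : ℝ) ^ (3 - lam)) ^ δ := by
          rw [Real.rpow_def_of_pos hpos, hΛdef, mul_comm]
      _ = 4 ^ δ * (H : ℝ) ^ ((3 - lam) * δ) := by
          rw [Real.mul_rpow (by norm_num) (by positivity), ← Real.rpow_mul hH0.le]
      _ ≤ 4 ^ (1 : ℝ) * (H : ℝ) ^ ((lam - 2) / 2) := by
          apply mul_le_mul _ _ (by positivity) (by positivity)
          · apply Real.rpow_le_rpow_of_exponent_le (by norm_num)
            linarith
          · apply Real.rpow_le_rpow_of_exponent_le hH1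
            nlinarith
      _ = _ := by rw [Real.rpow_one]
  have hHH : (H : ℝ) ^ (3 - lam) * ((H : ℝ) ^ ((lam - 2) / 2) * (H : ℝ) ^ ((lam - 2) / 2)) = H := by
    rw [← Real.rpow_add hH0, ← Real.rpow_add hH0]
    nth_rewrite 2 [← Real.rpow_one (H : ℝ)]
    congr 1
    ring
  have hlo := lo h2 (H := H) (k := k) (y := y) (Y := y ^ A) (by omega) hPm hy hky hyY hYQ
    (by
      calc 64 * (Q0 : ℝ) * (H : ℝ) ^ (3 - lam) * ((y ^ A : ℕ) : ℝ) ^ (k + 2) ≤
          64 * (Q0 : ℝ) * (H : ℝ) ^ (3 - lam) * (4 * (H : ℝ) ^ ((lam - 2) / 2)) :=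
            mul_le_mul_of_nonneg_left (hYpow (k + 2) le_rfl) (by positivity)
        _ = (H : ℝ) ^ (3 - lam) * ((64 * (Q0 : ℝ) * 4) * (H : ℝ) ^ ((lam - 2) / 2)) := by ring
        _ ≤ (H : ℝ) ^ (3 - lam) * ((H : ℝ) ^ ((lam - 2) / 2) * (H : ℝ) ^ ((lam - 2) / 2)) := by
            gcongr
        _ = H := hHH)
    (by
      have hlog0 : 0 ≤ 1 + Real.log ((2 * H : ℕ) : ℝ) := by
        have : 0 ≤ Real.log ((2 * H : ℕ) : ℝ) := Real.log_natCast_nonneg _
        linarith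
      calc 16384 * (Q0 : ℝ) ^ 2 * (H : ℝ) ^ (3 - lam) * ((y ^ A : ℕ) : ℝ) ^ k *
          (1 + Real.log ((2 * H : ℕ) : ℝ)) ≤
          16384 * (Q0 : ℝ) ^ 2 * (H : ℝ) ^ (3 - lam) * (4 * (H : ℝ) ^ ((lam - 2) / 2)) *
          (1 + Real.log ((2 * H : ℕ) : ℝ)) := by
            have := hYpow k (by omega)
            gcongr
        _ = (H : ℝ) ^ (3 - lam) * ((16384 * (Q0 : ℝ) ^ 2 * 4 *
            (1 + Real.log ((2 * H : ℕ) : ℝ))) * (H : ℝ) ^ ((lam - 2) / 2)) := by ring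
        _ ≤ (H : ℝ) ^ (3 - lam) * ((H : ℝ) ^ ((lam - 2) / 2) * (H : ℝ) ^ ((lam - 2) / 2)) := by
            gcongr
        _ = H := hHH) T hT
  refine le_trans ?_ hlo
  apply mul_le_mul_of_nonneg_left _ (by positivity)
  refine le_trans ?_ hTs
  refine le_trans ?_ hG
  apply Real.exp_le_exp.2
  have : 0 ≤ rt Λ := Real.sqrt_nonneg _
  nlinarith

/-- the upper bound -/
theorem upper {lam : ℝ} (h2 : 2 < lam) (h3 : lam < 3) (ε : ℝ) (hε : 0 < ε) :
    ∃ K : ℝ, 0 < K ∧ ∀ᶠ X : ℕ in atTop, ((Sm lam X).ncard : ℝ) ≤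
      K * (Real.log X + 1) ^ 2 * ((X : ℝ) ^ (lam - 1) *
        Real.exp ((3 - lam) * Real.log X / √((3 - lam) / 6 * (Real.log X * Real.log (Real.log X))) +
          3 * (1 + ε) * (√((3 - lam) / 6 * (Real.log X * Real.log (Real.log X))) /
            Real.log (√((3 - lam) / 6 * (Real.log X * Real.log (Real.log X))))))) := by
  obtain ⟨K, hK0, hK⟩ := up lam h2 h3 (lam - 2) (by linarith)
  refine ⟨18 * K, by positivity, ?_⟩
  set κ : ℝ := (3 - lam) / 6 with hκ
  have hκ0 : 0 < κ := by rw [hκ]; linarith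
  have hut : Tendsto (fun x : ℝ => √(κ * (x * Real.log x))) atTop atTop := by
    apply Real.tendsto_sqrt_atTop.comp
    apply Tendsto.const_mul_atTop hκ0
    exact tendsto_id.atTop_mul_atTop₀ Real.tendsto_log_atTop
  have hlu := Real.tendsto_log_atTop.comp hut
  filter_upwards [(hlu.comp log_tend).eventually (L1 ε hε), log_tend.eventually_ge_atTop 1,
    (hut.comp log_tend).eventually_gt_atTop 1, eventually_ge_atTop 1] with X h4 h5 h6 h7
  simp only [Function.comp_apply] at h4 h6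
  set u : ℝ := √(κ * (Real.log X * Real.log (Real.log X))) with hu
  have hu0 : 0 < u := by linarith
  have hX0 : (0 : ℝ) < X := by exact_mod_cast h7
  have hX1 : (1 : ℝ) ≤ X := by exact_mod_cast h7
  have hexp : Real.exp (Real.log u) = u := Real.exp_log hu0
  have hσ : Real.exp (-Real.log u) = 1 / u := by rw [Real.exp_neg, hexp, one_div]
  have h8 := hK X h7 (1 / u) (Real.exp ((1 + ε) * (u / Real.log u))) (by positivity)
    (by rw [div_lt_one hu0]; exact h6) (by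
      have := h4 X
      rw [hσ, hexp] at this
      exact this)
  refine h8.trans ?_
  have hXl : (X : ℝ) = Real.exp (Real.log X) := (Real.exp_log hX0).symm
  have e1 : (X : ℝ) ^ ((3 - lam) * (1 / u)) = Real.exp ((3 - lam) * Real.log X / u) := by
    rw [Real.rpow_def_of_pos hX0]
    congr 1
    ring
  have e2 : Real.exp ((1 + ε) * (u / Real.log u)) ^ 3 =
      Real.exp (3 * (1 + ε) * (u / Real.log u)) := by
    rw [← Real.exp_nat_mul]
    congr 1
    push_cast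
    ring
  rw [e1, e2]
  set B : ℝ := Real.exp ((3 - lam) * Real.log X / u + 3 * (1 + ε) * (u / Real.log u)) with hB
  have e3 : (X : ℝ) ^ (lam - 1) * Real.exp ((3 - lam) * Real.log X / u) *
      Real.exp (3 * (1 + ε) * (u / Real.log u)) = (X : ℝ) ^ (lam - 1) * B := by
    rw [hB, Real.exp_add]
    ring
  rw [e3]
  have hlogu : 0 < Real.log u := Real.log_pos h6
  have hB1 : 1 ≤ B := by
    rw [hB]
    apply Real.one_le_exp
    have : 0 ≤ (3 - lam) * Real.log X / u := by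
      apply div_nonneg _ hu0.le
      exact mul_nonneg (by linarith) (by linarith)
    have : 0 ≤ 3 * (1 + ε) * (u / Real.log u) := by positivity
    linarith
  have hp : 0 < (X : ℝ) ^ (lam - 1) := by positivity
  have e4 : (X : ℝ) ^ (1 + (lam - 2)) = (X : ℝ) ^ (lam - 1) := by
    congr 1
    ring
  rw [e4]
  have h9 : (X : ℝ) ^ (lam - 1) + (X : ℝ) ^ (lam - 1) * B ≤ 2 * ((X : ℝ) ^ (lam - 1) * B) := by
    nlinarith
  have h10 : ((Nat.log 2 X + 1 : ℕ) : ℝ) ≤ 3 * (Real.log X + 1) := by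
    have g1 : (Nat.log 2 X : ℝ) ≤ Real.log X / Real.log 2 := by
      rw [le_div_iff₀ (Real.log_pos (by norm_num)), ← Real.log_pow]
      apply Real.log_le_log (by positivity)
      have := Nat.pow_log_le_self 2 (show X ≠ 0 by omega)
      exact_mod_cast this
    have g2 : Real.log X / Real.log 2 ≤ 3 * Real.log X := by
      rw [div_le_iff₀ (Real.log_pos (by norm_num))]
      have := Real.log_two_gt_d9
      nlinarith
    push_cast
    linarith
  have h11 : ((Nat.log 2 X + 1 : ℕ) : ℝ) ^ 2 ≤ 9 * (Real.log X + 1) ^ 2 := by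
    calc ((Nat.log 2 X + 1 : ℕ) : ℝ) ^ 2 ≤ (3 * (Real.log X + 1)) ^ 2 :=
          pow_le_pow_left₀ (Nat.cast_nonneg _) h10 2
      _ = _ := by ring
  calc K * ((Nat.log 2 X + 1 : ℕ) : ℝ) ^ 2 * ((X : ℝ) ^ (lam - 1) + (X : ℝ) ^ (lam - 1) * B) ≤
      K * (9 * (Real.log X + 1) ^ 2) * (2 * ((X : ℝ) ^ (lam - 1) * B)) := by
        gcongr
    _ = 18 * K * (Real.log X + 1) ^ 2 * ((X : ℝ) ^ (lam - 1) * B) := by ring

end Pool.Agent.X4.RST
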