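import Mathlib
import Pool.Agent.X4.RST.Main

/-!
# The second order law
-/

set_option autoImplicit false

namespace Pool.Agent.X4.RST

open Finset Filter Topology Pool.Agent.X4.HC

theorem lam_ratio {lam : ℝ} :
    Tendsto (fun X : ℕ => Real.log (4 * ((X / 4 : ℕ) : ℝ) ^ (3 - lam)) / Real.log X) atTop
      (𝓝 (3 - lam)) := by
  have hb : ∀ᶠ X : ℕ in atTop, Real.log X - Real.log 8 ≤ Real.log ((X / 4 : ℕ) : ℝ) ∧
      Real.log ((X / 4 : ℕ) : ℝ) ≤ Real.log X := by
    filter_upwards [eventually_ge_atTop 8] with X hX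
    have hX0 : (0 : ℝ) < X := by exact_mod_cast (by omega : 0 < X)
    have h1 : (X : ℝ) ≤ 8 * ((X / 4 : ℕ) : ℝ) := by exact_mod_cast (by omega : X ≤ 8 * (X / 4))
    have h2 : ((X / 4 : ℕ) : ℝ) ≤ X := by exact_mod_cast Nat.div_le_self X 4
    have h3 : (0 : ℝ) < ((X / 4 : ℕ) : ℝ) := by linarith
    refine ⟨?_, Real.log_le_log h3 h2⟩
    have := Real.log_le_log hX0 h1
    rw [Real.log_mul (by norm_num) h3.ne'] at this
    linarith
  have hr : Tendsto (fun X : ℕ => Real.log ((X / 4 : ℕ) : ℝ) / Real.log X) atTop (𝓝 1) := by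
    have h1 : Tendsto (fun X : ℕ => 1 - Real.log 8 / Real.log X) atTop (𝓝 (1 - 0)) :=
      tendsto_const_nhds.sub (tendsto_const_nhds.div_atTop log_tend)
    rw [sub_zero] at h1
    refine tendsto_of_tendsto_of_tendsto_of_le_of_le' h1 tendsto_const_nhds ?_ ?_
    · filter_upwards [hb, log_tend.eventually_gt_atTop 0] with X h2 h3
      rw [le_div_iff₀ h3]
      have : (1 - Real.log 8 / Real.log X) * Real.log X = Real.log X - Real.log 8 := by
        field_simp
      rw [this]
      exact h2.1
    · filter_upwards [hb, log_tend.eventually_gt_atTop 0] with X h2 h3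
      rw [div_le_one h3]
      exact h2.2
  have h4 : Tendsto (fun X : ℕ => Real.log 4 / Real.log X +
      (3 - lam) * (Real.log ((X / 4 : ℕ) : ℝ) / Real.log X)) atTop (𝓝 (0 + (3 - lam) * 1)) :=
    (tendsto_const_nhds.div_atTop log_tend).add (hr.const_mul _)
  rw [zero_add, mul_one] at h4
  refine h4.congr' ?_
  filter_upwards [eventually_ge_atTop 8] with X hX
  have h5 : (0 : ℝ) < ((X / 4 : ℕ) : ℝ) := by exact_mod_cast (by omega : 0 < X / 4)
  rw [Real.log_mul (by norm_num) (by positivity), Real.log_rpow h5]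
  ring

theorem Sm_pos {lam : ℝ} (h2 : 2 < lam) {X : ℕ} (hX : 2 ≤ X) : 0 < (Sm lam X).ncard := by
  apply (Set.ncard_pos (Sm_finite lam X)).2
  refine ⟨(1, 1), by norm_num, by norm_num, by norm_num, hX, ?_⟩
  have h1 : rad (1 * 1 * (1 + 1)) = 2 := by
    unfold rad
    norm_num
  simp only
  rw [h1]
  calc ((2 : ℕ) : ℝ) = (((1 + 1 : ℕ) : ℕ) : ℝ) ^ (1 : ℝ) := by norm_num
    _ ≤ _ := Real.rpow_le_rpow_of_exponent_le (by norm_num) (by linarith)

/-- the second order law -/
theorem second_order {lam : ℝ} (h2 : 2 < lam) (h3 : lam < 3) :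
    Tendsto (fun X : ℕ => (Real.log ((Sm lam X).ncard : ℝ) - (lam - 1) * Real.log X) /
      √(Real.log X / Real.log (Real.log X))) atTop (𝓝 (√(24 * (3 - lam)))) := by
  set c : ℝ := √(24 * (3 - lam)) with hc
  have hc0 : 0 < c := Real.sqrt_pos.2 (by linarith)
  have hc2 : c = 2 * √(6 * (3 - lam)) := by
    rw [hc, show 24 * (3 - lam) = 2 ^ 2 * (6 * (3 - lam)) by ring, Real.sqrt_mul (by norm_num),
      Real.sqrt_sq (by norm_num)]
  have hgr : Tendsto (fun X : ℕ => gr (Real.log X)) atTop atTop := gr_tendsto.comp log_tend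
  have hQ0 : (0 : ℝ) < Q0 := by exact_mod_cast Q0_pos
  have hH : Tendsto (fun X : ℕ => X / 4) atTop atTop := by
    apply Nat.tendsto_div_const_atTop
    norm_num
  change Tendsto (fun X : ℕ => (Real.log ((Sm lam X).ncard : ℝ) - (lam - 1) * Real.log X) /
      gr (Real.log X)) atTop (𝓝 c)
  rw [tendsto_order]
  constructor
  · intro a ha
    obtain ⟨ε, hε0, hε1, hεa⟩ : ∃ ε : ℝ, 0 < ε ∧ ε ≤ 1 / 10 ∧ a < (1 - 20 * ε) * c := by
      refine ⟨min (1 / 10) ((c - a) / (40 * c)), by
        have : 0 < (c - a) / (40 * c) := div_pos (by linarith) (by positivity)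
        positivity, min_le_left _ _, ?_⟩
      have h4 : min (1 / 10) ((c - a) / (40 * c)) ≤ (c - a) / (40 * c) := min_le_right _ _
      have h5 : min (1 / 10) ((c - a) / (40 * c)) * (40 * c) ≤ c - a := by
        rwa [le_div_iff₀ (by positivity)] at h4
      nlinarith
    set C : ℝ := (lam - 1) * Real.log 8 + Real.log (512 * (Q0 : ℝ) ^ 2) with hC
    have h4 := rt_ratio (show 0 < 3 - lam by linarith) log_tend (lam_ratio (lam := lam))
    have h5 : Tendsto (fun X : ℕ => -(C / gr (Real.log X)) + (1 - 20 * ε) * (2 *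
        (rt (Real.log (4 * ((X / 4 : ℕ) : ℝ) ^ (3 - lam))) / gr (Real.log X)))) atTop
        (𝓝 (-0 + (1 - 20 * ε) * (2 * √(6 * (3 - lam))))) :=
      (tendsto_const_nhds.div_atTop hgr).neg.add ((h4.const_mul 2).const_mul _)
    rw [neg_zero, zero_add, ← hc2] at h5
    filter_upwards [h5.eventually_const_lt hεa, hH.eventually (lower h2 h3 ε hε0 hε1),
      hgr.eventually_gt_atTop 0, eventually_ge_atTop 8] with X h6 h7 h8 h9
    refine h6.trans_le ?_
    have hX0 : (0 : ℝ) < X := by exact_mod_cast (by omega : 0 < X)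
    set H : ℕ := X / 4 with hHd
    have hH0 : (0 : ℝ) < (H : ℝ) := by exact_mod_cast (by omega : 0 < X / 4)
    have h10 : Real.log X - Real.log 8 ≤ Real.log H := by
      have h1 : (X : ℝ) ≤ 8 * (H : ℝ) := by exact_mod_cast (by omega : X ≤ 8 * (X / 4))
      have := Real.log_le_log hX0 h1
      rw [Real.log_mul (by norm_num) hH0.ne'] at this
      linarith
    have h11 : ((Sm lam (4 * H)).ncard : ℝ) ≤ ((Sm lam X).ncard : ℝ) := by
      exact_mod_cast Sm_mono (lam := lam) (show 4 * H ≤ X by omega)
    have h12 := h7.trans h11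
    have hpos : 0 < (H : ℝ) ^ (lam - 1) / (512 * (Q0 : ℝ) ^ 2) *
      Real.exp ((1 - 20 * ε) * (2 * rt (Real.log (4 * (H : ℝ) ^ (3 - lam))))) := by positivity
    have h13 := Real.log_le_log hpos h12
    rw [Real.log_mul (by positivity) (by positivity), Real.log_exp,
      Real.log_div (by positivity) (by positivity), Real.log_rpow hH0] at h13
    have h14 : (lam - 1) * (Real.log X - Real.log 8) ≤ (lam - 1) * Real.log H :=
      mul_le_mul_of_nonneg_left h10 (by linarith)
    rw [le_div_iff₀ h8]
    have e1 : (-(C / gr (Real.log X)) + (1 - 20 * ε) * (2 *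
        (rt (Real.log (4 * (H : ℝ) ^ (3 - lam))) / gr (Real.log X)))) * gr (Real.log X) =
        -C + (1 - 20 * ε) * (2 * rt (Real.log (4 * (H : ℝ) ^ (3 - lam)))) := by
      field_simp
    rw [e1, hC]
    linarith
  · intro b hb
    obtain ⟨ε, hε0, hεb⟩ : ∃ ε : ℝ, 0 < ε ∧ c / 2 + (1 + ε) * (c / 2) < b := by
      refine ⟨(b - c) / c, div_pos (by linarith) hc0, ?_⟩
      have : (1 + (b - c) / c) * (c / 2) = c / 2 + (b - c) / 2 := by
        field_simp
      rw [this]
      linarith
    obtain ⟨K, hK0, hK⟩ := upper h2 h3 ε hε0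
    set κ : ℝ := (3 - lam) / 6 with hκ
    have hκ0 : 0 < κ := by rw [hκ]; linarith
    have hκc : 6 * √κ = c / 2 := by
      rw [hc2, show 2 * √(6 * (3 - lam)) / 2 = √(6 * (3 - lam)) by ring,
        show 6 * (3 - lam) = 6 ^ 2 * κ by rw [hκ]; ring, Real.sqrt_mul (by norm_num),
        Real.sqrt_sq (by norm_num)]
    have h4 : Tendsto (fun X : ℕ => Real.log (Real.log X) / gr (Real.log X)) atTop (𝓝 0) :=
      log_div_gr.comp log_tend
    have h5 := (u_ratio hκ0).comp log_tend
    have h6 : Tendsto (fun X : ℕ => (Real.log K + 2 * Real.log 2) / gr (Real.log X) +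
        2 * (Real.log (Real.log X) / gr (Real.log X)) + 6 * √κ + 3 * (1 + ε) *
          (√(κ * (Real.log X * Real.log (Real.log X))) /
            Real.log (√(κ * (Real.log X * Real.log (Real.log X)))) / gr (Real.log X))) atTop
        (𝓝 (0 + 2 * 0 + 6 * √κ + 3 * (1 + ε) * (2 * √κ))) :=
      ((((tendsto_const_nhds.div_atTop hgr).add (h4.const_mul 2)).add_const _)).add
        (h5.const_mul _)
    have e1 : 0 + 2 * 0 + 6 * √κ + 3 * (1 + ε) * (2 * √κ) = c / 2 + (1 + ε) * (c / 2) := by
      rw [← hκc]; ring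
    rw [e1] at h6
    filter_upwards [h6.eventually_lt_const hεb, hK, hgr.eventually_gt_atTop 0,
      eventually_ge_atTop 1, log_tend.eventually_gt_atTop (Real.exp 1)] with X h7 h8 h9 h10 h11
    refine lt_of_le_of_lt ?_ h7
    have hX0 : (0 : ℝ) < X := by exact_mod_cast h10
    have hl1 : 1 < Real.log X := lt_trans (by
      have := Real.add_one_le_exp (1 : ℝ); linarith) h11
    have hl0 : 0 < Real.log X := by linarith
    have hll : 0 < Real.log (Real.log X) := Real.log_pos hl1
    set u : ℝ := √(κ * (Real.log X * Real.log (Real.log X))) with hu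
    have hu0 : 0 < u := by rw [hu]; positivity
    rw [div_le_iff₀ h9]
    have e2 : ((Real.log K + 2 * Real.log 2) / gr (Real.log X) +
        2 * (Real.log (Real.log X) / gr (Real.log X)) + 6 * √κ + 3 * (1 + ε) *
          (u / Real.log u / gr (Real.log X))) * gr (Real.log X) =
        Real.log K + 2 * Real.log 2 + 2 * Real.log (Real.log X) + 6 * √κ * gr (Real.log X) +
          3 * (1 + ε) * (u / Real.log u) := by
      field_simp
    rw [e2]
    -- the first term
    have e3 : (3 - lam) * Real.log X / u = 6 * √κ * gr (Real.log X) := by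
      rw [div_eq_iff hu0.ne', hu]
      unfold gr
      have g1 : √(κ * (Real.log X * Real.log (Real.log X))) =
          √κ * √(Real.log X * Real.log (Real.log X)) := Real.sqrt_mul hκ0.le _
      rw [g1]
      have g2 : √(Real.log X / Real.log (Real.log X)) * √(Real.log X * Real.log (Real.log X)) =
          Real.log X := by
        rw [← Real.sqrt_mul (by positivity)]
        have : Real.log X / Real.log (Real.log X) * (Real.log X * Real.log (Real.log X)) =
            Real.log X ^ 2 := by
          field_simp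
        rw [this, Real.sqrt_sq hl0.le]
      calc (3 - lam) * Real.log X = 6 * κ * Real.log X := by rw [hκ]; ring
        _ = 6 * (√κ * √κ) * (√(Real.log X / Real.log (Real.log X)) *
            √(Real.log X * Real.log (Real.log X))) := by rw [g2, Real.mul_self_sqrt hκ0.le]
        _ = _ := by ring
    rw [e3] at h8
    have h0 : 0 < (Sm lam X).ncard := Sm_pos h2 (by
      have : Real.exp 1 < Real.log X := h11
      by_contra hcon
      have h20 : X = 1 := by omega
      rw [h20] at hl1
      simp at hl1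
      linarith)
    have hN : (0 : ℝ) < ((Sm lam X).ncard : ℝ) := by exact_mod_cast h0
    have h12 := Real.log_le_log hN h8
    rw [Real.log_mul (by positivity) (by positivity), Real.log_mul (by positivity) (by positivity),
      Real.log_mul (by positivity) (by positivity), Real.log_exp, Real.log_rpow hX0,
      Real.log_pow] at h12
    have h13 : Real.log (Real.log X + 1) ≤ Real.log 2 + Real.log (Real.log X) := by
      rw [← Real.log_mul (by norm_num) hl0.ne']
      apply Real.log_le_log (by positivity)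
      linarith
    push_cast at h12
    linarith

end Pool.Agent.X4.RST
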