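import Mathlib
import Pool.Agent.X4.RST.Main

/-!
# The lower bound with constant factors and a power of two
-/

set_option autoImplicit false

namespace Pool.Agent.X4.RST

open Finset Filter Topology Pool.Agent.X4.HC

/-- the target set: pairs in the box with small radical and `2 ^ m ∣ a + b` -/
def Tg (K lam : ℝ) (m H : ℕ) : Set (ℕ × ℕ) :=
  {t | t.1 ∈ Ioc H (2 * H) ∧ t.2 ∈ Ioc H (2 * H) ∧ Nat.Coprime t.1 t.2 ∧ 2 ^ m ∣ t.1 + t.2 ∧
    (rad (t.1 * t.2 * (t.1 + t.2)) : ℝ) * (K * (H : ℝ) ^ (3 - lam)) ≤ 16 * (H : ℝ) ^ 3}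

theorem Tg_finite (K lam : ℝ) (m H : ℕ) : (Tg K lam m H).Finite := by
  refine Set.Finite.subset (Finset.finite_toSet (Ioc H (2 * H) ×ˢ Ioc H (2 * H))) ?_
  rintro t ⟨h1, h2, -⟩
  rw [mem_coe, mem_product]
  exact ⟨h1, h2⟩

theorem TG_subK {H : ℕ} {P : Finset ℕ} {D1 D2 D3 j m : ℕ} {lam K : ℝ} (hm : m ≤ j + 1)
    (hc : Cp Q0 D1 D2 D3 (j + 1))
    (hW : K * (H : ℝ) ^ (3 - lam) ≤ (wp (D1 * D2 * D3) : ℝ) * 2 ^ j) {t : ℕ × ℕ}
    (ht : Gd H P (D1, D2, D3) (j + 1) t) : t ∈ Tg K lam m H := by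
  have ha1 := mem_Ioc.1 ht.a1
  have ha2 := mem_Ioc.1 ht.a2
  set n := t.1 * t.2 * (t.1 + t.2) with hn
  have hn0 : 0 < n := by
    have h3 : 0 < t.1 := by omega
    have h4 : 0 < t.2 := by omega
    positivity
  -- divisibility
  have c1e : Nat.Coprime D1 (2 ^ (j + 1)) :=
    Nat.Coprime.pow_right _ (Nat.Coprime.coprime_mul_right_right hc.c1)
  have c2e : Nat.Coprime D2 (2 ^ (j + 1)) :=
    Nat.Coprime.coprime_dvd_right (pow_dvd_pow 2 (by omega)) hc.c2e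
  have c3e : Nat.Coprime D3 (2 ^ (j + 1)) :=
    Nat.Coprime.coprime_dvd_right (pow_dvd_pow 2 (by omega)) hc.c3e
  have he : 2 ^ (j + 1) ∣ t.1 + t.2 := by
    have h3 : t.1 + t.2 ≡ 2 ^ (j + 1) [MOD 2 ^ (j + 1)] :=
      ht.e3.of_dvd (pow_dvd_pow 2 (by omega))
    exact Nat.modEq_zero_iff_dvd.1 (h3.trans (Nat.modEq_zero_iff_dvd.2 dvd_rfl))
  have h3e : D3 * 2 ^ (j + 1) ∣ t.1 + t.2 := c3e.mul_dvd_of_dvd_of_dvd ht.g3.dvd he
  have hdvd : D1 * D2 * D3 * 2 ^ (j + 1) ∣ n := by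
    rw [mul_assoc]
    exact mul_dvd_mul (mul_dvd_mul ht.g1.dvd ht.g2.dvd) h3e
  have h4 := rad_mul_wp_le hn0 hdvd
  have hcop : Nat.Coprime (D1 * D2 * D3) (2 ^ (j + 1)) :=
    Nat.Coprime.mul_left (Nat.Coprime.mul_left c1e c2e) c3e
  rw [wp_mul2 hcop, wp_pp Nat.prime_two] at h4
  have h5 : (rad n : ℝ) * ((wp (D1 * D2 * D3) : ℝ) * 2 ^ j) ≤ n := by exact_mod_cast h4
  have h6 : (n : ℝ) ≤ 16 * (H : ℝ) ^ 3 := by
    have h7 : n ≤ (2 * H) * (2 * H) * (4 * H) := by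
      rw [hn]
      exact Nat.mul_le_mul (Nat.mul_le_mul ha1.2 ha2.2) (by omega)
    have h8 : (n : ℝ) ≤ (((2 * H) * (2 * H) * (4 * H) : ℕ) : ℝ) := by exact_mod_cast h7
    refine h8.trans (le_of_eq ?_)
    push_cast
    ring
  exact ⟨ht.a1, ht.a2, ht.cop, (pow_dvd_pow 2 hm).trans he,
    (mul_le_mul_of_nonneg_left hW (Nat.cast_nonneg _)).trans (h5.trans h6)⟩

open Classical in
/-- the lower bound, finite form -/
theorem loK {lam K K' : ℝ} {m : ℕ} (hK' : 0 < K') (hKK : K' ≤ K) (hKm : K' * 2 ^ m ≤ 2 * K)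
    {H k y Y : ℕ} (hH : 0 < H) {P : Finset ℕ}
    (hP : ∀ p ∈ P, p.Prime ∧ y < p ∧ p ≤ Y) (hy : 1024 ≤ y) (hk : 1024 * k ≤ y)
    (hyY : y ≤ Y) (hY : 1024 * Q0 ^ 2 ≤ Y)
    (hV : 16 * K * (Q0 : ℝ) * (H : ℝ) ^ (3 - lam) * (Y : ℝ) ^ (k + 2) ≤ H)
    (hV2 : 4096 * K * (Q0 : ℝ) ^ 2 * (H : ℝ) ^ (3 - lam) * (Y : ℝ) ^ k *
      (1 + Real.log ((2 * H : ℕ) : ℝ)) ≤ H) (T : Finset (Fin 3 → ℕ))
    (hT : ∀ D ∈ T, Dt P k D ∧ Real.log (wp (∏ i, D i)) ≤ Real.log (K' * (H : ℝ) ^ (3 - lam))) :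
    (H : ℝ) ^ (lam - 1) / (128 * K * (Q0 : ℝ) ^ 2) * ∑ D ∈ T, 1 / (rad (∏ i, D i) : ℝ) ≤
      ((Tg K lam m H).ncard : ℝ) := by
  have hK0 : 0 < K := hK'.trans_le hKK
  have hH0 : (0 : ℝ) < H := by exact_mod_cast hH
  have hQ0 : (0 : ℝ) < Q0 := by exact_mod_cast Q0_pos
  have hW0 : (0 : ℝ) < K' * (H : ℝ) ^ (3 - lam) := by positivity
  have hwpos : ∀ D ∈ T, 0 < wp (∏ i, D i) := fun D hD =>
    wp_pos (Finset.prod_pos fun i _ => (hT D hD).1.pos i)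
  have hwW' : ∀ D ∈ T, (wp (∏ i, D i) : ℝ) ≤ K' * (H : ℝ) ^ (3 - lam) := by
    intro D hD
    have : (0 : ℝ) < (wp (∏ i, D i) : ℝ) := by exact_mod_cast hwpos D hD
    exact (Real.log_le_log_iff this hW0).1 (hT D hD).2
  have hHp : (0 : ℝ) < (H : ℝ) ^ (3 - lam) := by positivity
  have hwW : ∀ D ∈ T, (wp (∏ i, D i) : ℝ) ≤ K * (H : ℝ) ^ (3 - lam) := fun D hD =>
    (hwW' D hD).trans (mul_le_mul_of_nonneg_right hKK hHp.le)
  have hj : ∀ D : Fin 3 → ℕ, ∃ j : ℕ, D ∈ T → (K * (H : ℝ) ^ (3 - lam) ≤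
      (wp (∏ i, D i) : ℝ) * 2 ^ j ∧ (wp (∏ i, D i) : ℝ) * 2 ^ j ≤ 2 * (K * (H : ℝ) ^ (3 - lam))) := by
    intro D
    by_cases hD : D ∈ T
    · obtain ⟨j, hj⟩ := exists_two (hwpos D hD) (hwW D hD)
      exact ⟨j, fun _ => hj⟩
    · exact ⟨0, fun h => absurd h hD⟩
  choose j hj using hj
  let U : (Fin 3 → ℕ) → Finset (ℕ × ℕ) := fun D => TG H P (D 0, D 1, D 2) (j D + 1)
  have hCp : ∀ D ∈ T, Cp Q0 (D 0) (D 1) (D 2) (j D + 1) := fun D hD =>
    Dat_Cp (Dat_of_Dt (hT D hD).1) (fun p hp => ⟨(hP p hp).1, by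
      have := (hP p hp).2.1; omega⟩) _
  -- the single counts
  have hone : ∀ D ∈ T, (H : ℝ) ^ (lam - 1) / (128 * K * (Q0 : ℝ) ^ 2) * (1 / (rad (∏ i, D i) : ℝ)) ≤
      ((U D).card : ℝ) := by
    intro D hD
    obtain ⟨hj1, hj2⟩ := hj D hD
    have hrad : rad (∏ i, D i) ≤ Y ^ k := rad_le_pow (hT D hD).1 (fun p hp => (hP p hp).2.2)
    have hradR : (rad (∏ i, D i) : ℝ) ≤ (Y : ℝ) ^ k := by exact_mod_cast hrad
    have hr0 : (0 : ℝ) < (rad (∏ i, D i) : ℝ) := by exact_mod_cast rad_pos _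
    have hprod : (∏ i, D i) = D 0 * D 1 * D 2 := Fin.prod_univ_three D
    set V : ℝ := ((D 0 * D 1 * D 2 * 2 ^ (j D + 1 + 1) : ℕ) : ℝ) with hVd
    have hVe : V = 4 * ((wp (∏ i, D i) : ℝ) * 2 ^ (j D)) * (rad (∏ i, D i) : ℝ) := by
      have h3 : (wp (∏ i, D i) : ℝ) * (rad (∏ i, D i) : ℝ) = ((D 0 * D 1 * D 2 : ℕ) : ℝ) := by
        rw [← hprod]
        exact_mod_cast wp_mul (∏ i, D i)
      rw [hVd]
      push_cast at h3 ⊢
      rw [← h3]
      ring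
    have hVle : V ≤ 8 * K * (H : ℝ) ^ (3 - lam) * (rad (∏ i, D i) : ℝ) := by
      rw [hVe]
      apply mul_le_mul_of_nonneg_right _ hr0.le
      linarith
    have hV0 : 0 < V := by
      rw [hVd]
      have := (hT D hD).1.pos
      have h0 := this 0
      have h1 := this 1
      have h3 := this 2
      exact_mod_cast (by positivity)
    have hYR : (0 : ℝ) ≤ Y := Nat.cast_nonneg _
    have hlog0 : 0 ≤ 1 + Real.log ((2 * H : ℕ) : ℝ) := by
      have : 0 ≤ Real.log ((2 * H : ℕ) : ℝ) := Real.log_natCast_nonneg _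
      linarith
    have h := cnt (H := H) (k := k) (e := j D + 1) (y := y) (Y := Y) (P := P) (D1 := D 0)
      (D2 := D 1) (D3 := D 2) (Dat_of_Dt (hT D hD).1) hP hy hk hyY hY ?_ ?_
    · refine le_trans ?_ h
      rw [← hVd]
      have e1 : (H : ℝ) ^ (lam - 1) * (H : ℝ) ^ (3 - lam) = (H : ℝ) ^ 2 := by
        rw [← Real.rpow_add hH0, ← Real.rpow_natCast]
        congr 1
        push_cast
        ring
      calc (H : ℝ) ^ (lam - 1) / (128 * K * (Q0 : ℝ) ^ 2) * (1 / (rad (∏ i, D i) : ℝ)) =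
          ((H : ℝ) ^ (lam - 1) * (H : ℝ) ^ (3 - lam)) /
            (16 * (Q0 : ℝ) ^ 2 * (8 * K * (H : ℝ) ^ (3 - lam) * (rad (∏ i, D i) : ℝ))) := by
            have : (0 : ℝ) < (H : ℝ) ^ (3 - lam) := by positivity
            field_simp
            ring
        _ ≤ _ := by
            rw [e1]
            apply div_le_div_of_nonneg_left (by positivity) (by positivity)
            exact mul_le_mul_of_nonneg_left hVle (by positivity)
    · have h3 : 2 * (Q0 : ℝ) * V * (Y : ℝ) ^ 2 ≤ H := by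
        refine le_trans ?_ hV
        calc 2 * (Q0 : ℝ) * V * (Y : ℝ) ^ 2 ≤
            2 * (Q0 : ℝ) * (8 * K * (H : ℝ) ^ (3 - lam) * (Y : ℝ) ^ k) * (Y : ℝ) ^ 2 := by
              have := hVle.trans (mul_le_mul_of_nonneg_left hradR (by positivity))
              gcongr
          _ = _ := by ring
      rw [hVd] at h3
      exact_mod_cast h3
    · rw [← hVd]
      refine le_trans ?_ hV2
      calc 512 * (Q0 : ℝ) ^ 2 * V * (1 + Real.log ((2 * H : ℕ) : ℝ)) ≤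
          512 * (Q0 : ℝ) ^ 2 * (8 * K * (H : ℝ) ^ (3 - lam) * (Y : ℝ) ^ k) *
            (1 + Real.log ((2 * H : ℕ) : ℝ)) := by
            have := hVle.trans (mul_le_mul_of_nonneg_left hradR (by positivity))
            gcongr
        _ = _ := by ring
  -- disjointness
  have hdis : Set.PairwiseDisjoint (T : Set (Fin 3 → ℕ)) U := by
    intro D hD D' hD' hne
    rw [Function.onFun, disjoint_left]
    intro t ht ht'
    apply hne
    have g := mem_TG.1 ht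
    have g' := mem_TG.1 ht'
    have d := (hT D hD).1
    have d' := (hT D' hD').1
    have ha1 := mem_Ioc.1 g.a1
    have ha2 := mem_Ioc.1 g.a2
    have e0 : D 0 = D' 0 := Pp_unique (by omega) (d.pos 0) (d'.pos 0) (fun q => d.sub q 0)
      (fun q => d'.sub q 0) (fun q => d.sq q 0) (fun q => d'.sq q 0) g.g1 g'.g1
    have e1 : D 1 = D' 1 := Pp_unique (by omega) (d.pos 1) (d'.pos 1) (fun q => d.sub q 1)
      (fun q => d'.sub q 1) (fun q => d.sq q 1) (fun q => d'.sq q 1) g.g2 g'.g2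
    have e2 : D 2 = D' 2 := Pp_unique (by omega) (d.pos 2) (d'.pos 2) (fun q => d.sub q 2)
      (fun q => d'.sub q 2) (fun q => d.sq q 2) (fun q => d'.sq q 2) g.g3 g'.g3
    funext i
    fin_cases i
    · exact e0
    · exact e1
    · exact e2
  have hsub : ((T.biUnion U : Finset (ℕ × ℕ)) : Set (ℕ × ℕ)) ⊆ Tg K lam m H := by
    intro t ht
    rw [mem_coe, mem_biUnion] at ht
    obtain ⟨D, hD, hDt⟩ := ht
    have hjm : m ≤ j D + 1 := by
      by_contra hcon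
      rw [not_le] at hcon
      have g1 := (hj D hD).1
      have g2 : (wp (∏ i, D i) : ℝ) * 2 ^ (j D) ≤ K' * (H : ℝ) ^ (3 - lam) * 2 ^ (j D) :=
        mul_le_mul_of_nonneg_right (hwW' D hD) (by positivity)
      have g3 : (2 : ℝ) ^ (j D + 2) ≤ 2 ^ m := pow_le_pow_right₀ (by norm_num) (by omega)
      have g4 : K ≤ K' * 2 ^ (j D) := by
        have : K * (H : ℝ) ^ (3 - lam) ≤ (K' * 2 ^ (j D)) * (H : ℝ) ^ (3 - lam) := by
          calc K * (H : ℝ) ^ (3 - lam) ≤ K' * (H : ℝ) ^ (3 - lam) * 2 ^ (j D) := g1.trans g2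
            _ = _ := by ring
        exact le_of_mul_le_mul_right this hHp
      have g5 : K' * 2 ^ (j D + 2) ≤ K' * 2 ^ m := mul_le_mul_of_nonneg_left g3 hK'.le
      have g6 : K' * 2 ^ (j D + 2) = 4 * (K' * 2 ^ (j D)) := by ring
      linarith
    apply TG_subK hjm (hCp D hD) _ (mem_TG.1 hDt)
    have := (hj D hD).1
    rw [Fin.prod_univ_three] at this
    exact this
  have hcard : (T.biUnion U).card ≤ (Tg K lam m H).ncard := by
    rw [← Set.ncard_coe_finset]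
    exact Set.ncard_le_ncard hsub (Tg_finite _ _ _ _)
  rw [Finset.card_biUnion hdis] at hcard
  calc (H : ℝ) ^ (lam - 1) / (128 * K * (Q0 : ℝ) ^ 2) * ∑ D ∈ T, 1 / (rad (∏ i, D i) : ℝ) =
      ∑ D ∈ T, (H : ℝ) ^ (lam - 1) / (128 * K * (Q0 : ℝ) ^ 2) * (1 / (rad (∏ i, D i) : ℝ)) := by
        rw [Finset.mul_sum]
    _ ≤ ∑ D ∈ T, ((U D).card : ℝ) := Finset.sum_le_sum hone
    _ ≤ _ := by exact_mod_cast hcard


/-- the lower bound -/
theorem lowerK {lam K K' : ℝ} {m : ℕ} (hK' : 1 ≤ K') (hKK : K' ≤ K)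
    (hKm : K' * 2 ^ m ≤ 2 * K) (h2 : 2 < lam) (h3 : lam < 3) (ε : ℝ) (hε : 0 < ε) (hε1 : ε ≤ 1 / 10) :
    ∀ᶠ H : ℕ in atTop, (H : ℝ) ^ (lam - 1) / (128 * K * (Q0 : ℝ) ^ 2) *
      Real.exp ((1 - 20 * ε) * (2 * rt (Real.log (K' * (H : ℝ) ^ (3 - lam))))) ≤
        ((Tg K lam m H).ncard : ℝ) := by
  have hK'0 : 0 < K' := by linarith
  have hK0 : 0 < K := by linarith
  -- a smaller `ε`
  obtain ⟨δ, hδ0, hδε, hδl⟩ : ∃ δ : ℝ, 0 < δ ∧ δ ≤ ε ∧ δ ≤ (lam - 2) / 2 :=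
    ⟨min ε ((lam - 2) / 2), lt_min hε (by linarith), min_le_left _ _, min_le_right _ _⟩
  obtain ⟨A, hA, hasy⟩ := asy δ hδ0 (hδε.trans hε1)
  have hΛ : Tendsto (fun H : ℕ => Real.log (K' * (H : ℝ) ^ (3 - lam))) atTop atTop := by
    apply Real.tendsto_log_atTop.comp
    apply Tendsto.const_mul_atTop hK'0
    exact (tendsto_rpow_atTop (by linarith)).comp tendsto_natCast_atTop_atTop
  have hQ0 : (0 : ℝ) < Q0 := by exact_mod_cast Q0_pos
  -- sizes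
  have hsz1 : ∀ᶠ H : ℕ in atTop, 16 * K * (Q0 : ℝ) * K' ≤ (H : ℝ) ^ ((lam - 2) / 2) :=
    ((tendsto_rpow_atTop (by linarith)).comp tendsto_natCast_atTop_atTop).eventually_ge_atTop _
  have hsz2 : ∀ᶠ H : ℕ in atTop, 4096 * K * (Q0 : ℝ) ^ 2 * K' * (1 + Real.log ((2 * H : ℕ) : ℝ)) ≤
      (H : ℝ) ^ ((lam - 2) / 2) := by
    have g1 : Tendsto (fun x : ℝ => Real.log x / x ^ ((lam - 2) / 2)) atTop (𝓝 0) :=
      (isLittleO_log_rpow_atTop (by linarith)).tendsto_div_nhds_zero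
    set Kc : ℝ := 4096 * K * (Q0 : ℝ) ^ 2 * K' with hKc
    have hKc0 : 0 < Kc := by positivity
    have g2 := (g1.comp tendsto_natCast_atTop_atTop).eventually_lt_const
      (show 0 < 1 / (2 * Kc) by positivity)
    have g3 : ∀ᶠ H : ℕ in atTop, 2 * Kc * (1 + Real.log 2) ≤ (H : ℝ) ^ ((lam - 2) / 2) :=
      ((tendsto_rpow_atTop (by linarith)).comp tendsto_natCast_atTop_atTop).eventually_ge_atTop _
    filter_upwards [g2, g3, eventually_ge_atTop 1] with H g4 g5 g6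
    have hH0 : (0 : ℝ) < H := by exact_mod_cast g6
    have hp : 0 < (H : ℝ) ^ ((lam - 2) / 2) := by positivity
    simp only [Function.comp_apply] at g4
    rw [div_lt_div_iff₀ hp (by positivity), one_mul] at g4
    push_cast
    rw [Real.log_mul (by norm_num) hH0.ne']
    linarith
  filter_upwards [hΛ.eventually hasy, hsz1, hsz2, eventually_ge_atTop 1] with H h4 h5 h6 h7
  obtain ⟨k, y, hy, hky, hyY, hYQ, hkl, hG⟩ := h4
  set Λ : ℝ := Real.log (K' * (H : ℝ) ^ (3 - lam)) with hΛdef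
  have hH0 : (0 : ℝ) < H := by exact_mod_cast h7
  have hH1 : (1 : ℝ) ≤ H := by exact_mod_cast h7
  have hpos : 0 < K' * (H : ℝ) ^ (3 - lam) := by positivity
  have hΛ0 : 0 ≤ Λ := by
    apply Real.log_nonneg
    have : (1 : ℝ) ≤ (H : ℝ) ^ (3 - lam) := Real.one_le_rpow hH1 (by linarith)
    nlinarith
  have hy0 : (0 : ℝ) < y := by exact_mod_cast (by omega : 0 < y)
  have hly0 : 0 < Real.log y := Real.log_pos (by exact_mod_cast (by omega : 1 < y))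
  set P : Finset ℕ := (Finset.Ioc y (y ^ A)).filter Nat.Prime with hP
  have hPm : ∀ p ∈ P, p.Prime ∧ y < p ∧ p ≤ y ^ A := by
    intro p hp
    rw [hP, mem_filter, Finset.mem_Ioc] at hp
    exact ⟨hp.2, hp.1.1, hp.1.2⟩
  obtain ⟨T, hT, hTs⟩ := LS (l := A * Real.log y) (m := 1 / (y * Real.log y)) (by positivity) P
    (by
      intro p hp
      obtain ⟨g1, g2, g3⟩ := hPm p hp
      have hp0 : (0 : ℝ) < p := by exact_mod_cast g1.pos
      have g4 : (y : ℝ) ≤ p := by exact_mod_cast g2.le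
      have g5 : Real.log y ≤ Real.log p := Real.log_le_log hy0 g4
      refine ⟨g1, ?_, ?_⟩
      · rw [← Real.log_pow]
        apply Real.log_le_log hp0
        exact_mod_cast g3
      · apply one_div_le_one_div_of_le (by positivity)
        gcongr) k Λ hΛ0
  -- the size of the power
  have hYpow : ∀ j : ℕ, j ≤ k + 2 → ((y ^ A : ℕ) : ℝ) ^ j ≤ K' * (H : ℝ) ^ ((lam - 2) / 2) := by
    intro j hj
    have g1 : ((y ^ A : ℕ) : ℝ) ^ j ≤ ((y ^ A : ℕ) : ℝ) ^ (k + 2) := by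
      apply pow_le_pow_right₀ _ hj
      exact_mod_cast Nat.one_le_pow _ _ (by omega)
    refine g1.trans ?_
    have g2 : ((y ^ A : ℕ) : ℝ) ^ (k + 2) = Real.exp (((k : ℝ) + 2) * (A * Real.log y)) := by
      push_cast
      rw [← pow_mul, ← Real.rpow_natCast, Real.rpow_def_of_pos hy0]
      congr 1
      push_cast
      ring
    rw [g2]
    calc Real.exp (((k : ℝ) + 2) * (A * Real.log y)) ≤ Real.exp (δ * Λ) := Real.exp_le_exp.2 hkl
      _ = (K' * (H : ℝ) ^ (3 - lam)) ^ δ := by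
          rw [Real.rpow_def_of_pos hpos, hΛdef, mul_comm]
      _ = K' ^ δ * (H : ℝ) ^ ((3 - lam) * δ) := by
          rw [Real.mul_rpow hK'0.le (by positivity), ← Real.rpow_mul hH0.le]
      _ ≤ K' ^ (1 : ℝ) * (H : ℝ) ^ ((lam - 2) / 2) := by
          apply mul_le_mul _ _ (by positivity) (by positivity)
          · apply Real.rpow_le_rpow_of_exponent_le hK'
            linarith
          · apply Real.rpow_le_rpow_of_exponent_le hH1
            nlinarith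
      _ = _ := by rw [Real.rpow_one]
  have hHH : (H : ℝ) ^ (3 - lam) * ((H : ℝ) ^ ((lam - 2) / 2) * (H : ℝ) ^ ((lam - 2) / 2)) = H := by
    rw [← Real.rpow_add hH0, ← Real.rpow_add hH0]
    nth_rewrite 2 [← Real.rpow_one (H : ℝ)]
    congr 1
    ring
  have hlo := loK (m := m) hK'0 hKK hKm (H := H) (k := k) (y := y) (Y := y ^ A) (by omega) hPm hy hky hyY hYQ
    (by
      calc 16 * K * (Q0 : ℝ) * (H : ℝ) ^ (3 - lam) * ((y ^ A : ℕ) : ℝ) ^ (k + 2) ≤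
          16 * K * (Q0 : ℝ) * (H : ℝ) ^ (3 - lam) * (K' * (H : ℝ) ^ ((lam - 2) / 2)) :=
            mul_le_mul_of_nonneg_left (hYpow (k + 2) le_rfl) (by positivity)
        _ = (H : ℝ) ^ (3 - lam) * ((16 * K * (Q0 : ℝ) * K') * (H : ℝ) ^ ((lam - 2) / 2)) := by ring
        _ ≤ (H : ℝ) ^ (3 - lam) * ((H : ℝ) ^ ((lam - 2) / 2) * (H : ℝ) ^ ((lam - 2) / 2)) := by
            gcongr
        _ = H := hHH)
    (by
      have hlog0 : 0 ≤ 1 + Real.log ((2 * H : ℕ) : ℝ) := by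
        have : 0 ≤ Real.log ((2 * H : ℕ) : ℝ) := Real.log_natCast_nonneg _
        linarith
      calc 4096 * K * (Q0 : ℝ) ^ 2 * (H : ℝ) ^ (3 - lam) * ((y ^ A : ℕ) : ℝ) ^ k *
          (1 + Real.log ((2 * H : ℕ) : ℝ)) ≤
          4096 * K * (Q0 : ℝ) ^ 2 * (H : ℝ) ^ (3 - lam) * (K' * (H : ℝ) ^ ((lam - 2) / 2)) *
          (1 + Real.log ((2 * H : ℕ) : ℝ)) := by
            have := hYpow k (by omega)
            gcongr
        _ = (H : ℝ) ^ (3 - lam) * ((4096 * K * (Q0 : ℝ) ^ 2 * K' *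
            (1 + Real.log ((2 * H : ℕ) : ℝ))) * (H : ℝ) ^ ((lam - 2) / 2)) := by ring
        _ ≤ (H : ℝ) ^ (3 - lam) * ((H : ℝ) ^ ((lam - 2) / 2) * (H : ℝ) ^ ((lam - 2) / 2)) := by
            gcongr
        _ = H := hHH) T hT
  refine le_trans ?_ hlo
  apply mul_le_mul_of_nonneg_left _ (by positivity)
  refine le_trans ?_ hTs
  refine le_trans ?_ hG
  apply Real.exp_le_exp.2
  have : 0 ≤ rt Λ := Real.sqrt_nonneg _
  nlinarith

end Pool.Agent.X4.RST
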