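import Mathlib
import Pool.Agent.X4.RST.Main

/-!
# The upper bound with a constant factor
-/

set_option autoImplicit false

namespace Pool.Agent.X4.RST

open Finset Filter Topology Pool.Agent.X4.HC

/-- one dyadic box -/
theorem boxB {lam σ E A C K δ B : ℝ} (hB : 1 ≤ B) {X : ℕ} (h2 : 2 < lam) (h3 : lam < 3) (hσ0 : 0 < σ)
    (hσ1 : σ < 1) (hE : ∑ m ∈ Icc 1 X, wt 1 σ m ≤ E) (hA : 0 < A) (hC : 1 ≤ C) (hCX : C ≤ X)
    (hAC : A ≤ 2 * C) (hK : ∀ W : ℝ, ((Tw X W).card : ℝ) ≤ K * (X : ℝ) ^ (1 + δ))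
    (S : Finset (ℕ × ℕ))
    (hS : ∀ t ∈ S, 0 < t.1 ∧ t.1 ≤ t.2 ∧ Nat.Coprime t.1 t.2 ∧ t.1 + t.2 ≤ X ∧
      A ≤ (t.1 : ℝ) ∧ (t.1 : ℝ) < 2 * A ∧
      C ≤ ((t.1 + t.2 : ℕ) : ℝ) ∧ ((t.1 + t.2 : ℕ) : ℝ) < 2 * C ∧
      ((t.1 + t.2 : ℕ) : ℝ) ^ (2 : ℝ) < (rad (t.1 * t.2 * (t.1 + t.2)) : ℝ) ∧
      (rad (t.1 * t.2 * (t.1 + t.2)) : ℝ) ≤ B * ((t.1 + t.2 : ℕ) : ℝ) ^ lam) :
    (S.card : ℝ) ≤ K * (X : ℝ) ^ (1 + δ) +
      64 * B * (X : ℝ) ^ (lam - 1) * (X : ℝ) ^ ((3 - lam) * σ) * E ^ 3 := by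
  classical
  have hB0 : 0 < B := by linarith
  have hC0 : 0 < C := by linarith
  have hX0 : (0 : ℝ) < X := by linarith
  set W : ℝ := A * C ^ (2 - lam) / (8 * B) with hW
  have hW0 : 0 < W := by positivity
  have hmaps : ∀ t ∈ S, ((wp t.1, wp t.2, wp (t.1 + t.2)) : ℕ × ℕ × ℕ) ∈ Tw X W := by
    intro t ht
    obtain ⟨a0, a1, a2, a3, a4, a5, a6, a7, a8, a9⟩ := hS t ht
    have hb0 : 0 < t.2 := by omega
    have w1 := wp_mul t.1
    have w2 := wp_mul t.2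
    have w3 := wp_mul (t.1 + t.2)
    have p1 := wp_pos a0
    have p2 := wp_pos hb0
    have p3 : 0 < wp (t.1 + t.2) := wp_pos (by omega)
    have q1 := rad_pos t.1
    have q2 := rad_pos t.2
    have q3 := rad_pos (t.1 + t.2)
    rw [rad3 a2] at a8 a9
    have hc0 : (0 : ℝ) < ((t.1 + t.2 : ℕ) : ℝ) := by linarith
    have ha0 : (0 : ℝ) < t.1 := by exact_mod_cast a0
    have hb0' : (0 : ℝ) < t.2 := by exact_mod_cast hb0
    set ww : ℕ := wp t.1 * wp t.2 * wp (t.1 + t.2) with hww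
    have hprod : (ww : ℝ) * ((rad t.1 * rad t.2 * rad (t.1 + t.2) : ℕ) : ℝ) =
        t.1 * t.2 * ((t.1 + t.2 : ℕ) : ℝ) := by
      have : ww * (rad t.1 * rad t.2 * rad (t.1 + t.2)) = t.1 * t.2 * (t.1 + t.2) := by
        calc ww * (rad t.1 * rad t.2 * rad (t.1 + t.2)) =
            (wp t.1 * rad t.1) * (wp t.2 * rad t.2) * (wp (t.1 + t.2) * rad (t.1 + t.2)) := by
              rw [hww]; ring
          _ = _ := by rw [w1, w2, w3]
      exact_mod_cast this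
    set R : ℝ := ((rad t.1 * rad t.2 * rad (t.1 + t.2) : ℕ) : ℝ) with hR
    have hR0 : 0 < R := by rw [hR]; exact_mod_cast (by positivity)
    have hw0 : (0 : ℝ) < ww := by exact_mod_cast (by positivity)
    rw [mem_Tw]
    -- upper bound
    have hup : ww ≤ X := by
      have h5 : (ww : ℝ) * ((t.1 + t.2 : ℕ) : ℝ) ^ (2 : ℝ) ≤ t.1 * t.2 * ((t.1 + t.2 : ℕ) : ℝ) := by
        rw [← hprod]
        exact mul_le_mul_of_nonneg_left a8.le hw0.le
      rw [Real.rpow_two] at h5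
      have h6 : (t.2 : ℝ) ≤ ((t.1 + t.2 : ℕ) : ℝ) := by exact_mod_cast Nat.le_add_left _ _
      have h7 : (ww : ℝ) * ((t.1 + t.2 : ℕ) : ℝ) ≤ t.1 * t.2 := by
        have h8 : (ww : ℝ) * ((t.1 + t.2 : ℕ) : ℝ) * ((t.1 + t.2 : ℕ) : ℝ) ≤
            t.1 * t.2 * ((t.1 + t.2 : ℕ) : ℝ) := by
          calc (ww : ℝ) * ((t.1 + t.2 : ℕ) : ℝ) * ((t.1 + t.2 : ℕ) : ℝ) =
              (ww : ℝ) * ((t.1 + t.2 : ℕ) : ℝ) ^ 2 := by ring
            _ ≤ _ := h5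
        exact le_of_mul_le_mul_right h8 hc0
      have h9 : (t.1 : ℝ) * t.2 ≤ t.1 * ((t.1 + t.2 : ℕ) : ℝ) :=
        mul_le_mul_of_nonneg_left h6 ha0.le
      have h10 : (ww : ℝ) ≤ t.1 := le_of_mul_le_mul_right (h7.trans h9) hc0
      have h11 : ww ≤ t.1 := by exact_mod_cast h10
      omega
    have hlow : W ≤ (ww : ℝ) := by
      have h5 : (t.1 : ℝ) * t.2 * ((t.1 + t.2 : ℕ) : ℝ) ≤
          (ww : ℝ) * (B * ((t.1 + t.2 : ℕ) : ℝ) ^ lam) := by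
        rw [← hprod]
        exact mul_le_mul_of_nonneg_left a9 hw0.le
      have h6 : ((t.1 + t.2 : ℕ) : ℝ) / 2 ≤ t.2 := by
        have : ((t.1 + t.2 : ℕ) : ℝ) ≤ 2 * t.2 := by exact_mod_cast (by omega)
        linarith
      have h7 : ((t.1 + t.2 : ℕ) : ℝ) ^ lam =
          ((t.1 + t.2 : ℕ) : ℝ) ^ 2 * ((t.1 + t.2 : ℕ) : ℝ) ^ (lam - 2) := by
        rw [← Real.rpow_natCast, ← Real.rpow_add hc0]
        congr 1
        push_cast
        ring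
      have h8 : ((t.1 + t.2 : ℕ) : ℝ) ^ (lam - 2) ≤ 2 * C ^ (lam - 2) := by
        calc ((t.1 + t.2 : ℕ) : ℝ) ^ (lam - 2) ≤ (2 * C) ^ (lam - 2) :=
              Real.rpow_le_rpow hc0.le a7.le (by linarith)
          _ = 2 ^ (lam - 2) * C ^ (lam - 2) := Real.mul_rpow (by norm_num) hC0.le
          _ ≤ 2 ^ (1 : ℝ) * C ^ (lam - 2) := by
              apply mul_le_mul_of_nonneg_right _ (by positivity)
              apply Real.rpow_le_rpow_of_exponent_le (by norm_num) (by linarith)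
          _ = _ := by rw [Real.rpow_one]
      have h9 : A * (((t.1 + t.2 : ℕ) : ℝ) / 2) * ((t.1 + t.2 : ℕ) : ℝ) ≤
          (ww : ℝ) * (B * (((t.1 + t.2 : ℕ) : ℝ) ^ 2 * (2 * C ^ (lam - 2)))) := by
        calc A * (((t.1 + t.2 : ℕ) : ℝ) / 2) * ((t.1 + t.2 : ℕ) : ℝ) ≤
            (t.1 : ℝ) * t.2 * ((t.1 + t.2 : ℕ) : ℝ) := by gcongr
          _ ≤ _ := h5
          _ = (ww : ℝ) * (B * (((t.1 + t.2 : ℕ) : ℝ) ^ 2 *
              ((t.1 + t.2 : ℕ) : ℝ) ^ (lam - 2))) := by rw [h7]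
          _ ≤ _ := by gcongr
      have h10 : A / 4 ≤ (ww : ℝ) * (B * C ^ (lam - 2)) := by
        have hc2 : 0 < ((t.1 + t.2 : ℕ) : ℝ) ^ 2 := by positivity
        have h11 : (A / 4) * (2 * ((t.1 + t.2 : ℕ) : ℝ) ^ 2) ≤
            ((ww : ℝ) * (B * C ^ (lam - 2))) * (2 * ((t.1 + t.2 : ℕ) : ℝ) ^ 2) := by
          calc (A / 4) * (2 * ((t.1 + t.2 : ℕ) : ℝ) ^ 2) =
              A * (((t.1 + t.2 : ℕ) : ℝ) / 2) * ((t.1 + t.2 : ℕ) : ℝ) := by ring
            _ ≤ _ := h9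
            _ = _ := by ring
        exact le_of_mul_le_mul_right h11 (by positivity)
      have h12 : C ^ (2 - lam) * C ^ (lam - 2) = 1 := by
        rw [← Real.rpow_add hC0]
        norm_num
      have hCp : 0 < C ^ (2 - lam) := by positivity
      have h13 : A / (8 * B) ≤ (ww : ℝ) * C ^ (lam - 2) := by
        rw [div_le_iff₀ (by positivity)]
        linarith
      calc W = C ^ (2 - lam) * (A / (8 * B)) := by rw [hW]; ring
        _ ≤ C ^ (2 - lam) * ((ww : ℝ) * C ^ (lam - 2)) := mul_le_mul_of_nonneg_left h13 hCp.le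
        _ = (C ^ (2 - lam) * C ^ (lam - 2)) * ww := by ring
        _ = ww := by rw [h12, one_mul]
    refine ⟨⟨p1, ?_⟩, ⟨p2, ?_⟩, ⟨p3, ?_⟩, hup, hlow⟩
    · have := Nat.le_of_dvd a0 (wp_dvd t.1)
      show wp t.1 ≤ X
      omega
    · have := Nat.le_of_dvd hb0 (wp_dvd t.2)
      show wp t.2 ≤ X
      omega
    · have := Nat.le_of_dvd (by omega : 0 < t.1 + t.2) (wp_dvd (t.1 + t.2))
      show wp (t.1 + t.2) ≤ X
      omega
  have hcard := Finset.card_eq_sum_card_fiberwise (s := S) (t := Tw X W)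
    (f := fun t : ℕ × ℕ => ((wp t.1, wp t.2, wp (t.1 + t.2)) : ℕ × ℕ × ℕ))
    (fun t ht => hmaps t (mem_coe.1 ht))
  have hfib : ∀ w ∈ Tw X W, (((S.filter fun t =>
      ((wp t.1, wp t.2, wp (t.1 + t.2)) : ℕ × ℕ × ℕ) = w).card : ℕ) : ℝ) ≤
      8 * A * C *
        (1 / (((w.1 * rad w.1) * (w.2.1 * rad w.2.1) * (w.2.2 * rad w.2.2) : ℕ) : ℝ)) + 1 := by
    intro w hw
    rw [mem_Tw] at hw
    rw [mul_one_div]
    apply fiber hA hC0 (Nat.mul_pos hw.1.1 (rad_pos _)) (Nat.mul_pos hw.2.1.1 (rad_pos _))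
      (Nat.mul_pos hw.2.2.1.1 (rad_pos _))
    intro t ht
    rw [mem_filter] at ht
    obtain ⟨a0, a1, a2, a3, a4, a5, a6, a7, a8, a9⟩ := hS t ht.1
    have hb0 : 0 < t.2 := by omega
    rw [← ht.2]
    exact ⟨a0, hb0, a2, a5, a6, a7, wp_rad_dvd a0, wp_rad_dvd hb0, wp_rad_dvd (by omega)⟩
  rw [hcard]
  push_cast
  refine (Finset.sum_le_sum hfib).trans ?_
  rw [Finset.sum_add_distrib, ← Finset.mul_sum]
  have h5 := main_Tw (X := X) hσ1 hW0 hE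
  have h6 := hK W
  have h7 : 8 * A * C * ∑ w ∈ Tw X W,
      1 / (((w.1 * rad w.1) * (w.2.1 * rad w.2.1) * (w.2.2 * rad w.2.2) : ℕ) : ℝ) ≤
      64 * B * (X : ℝ) ^ (lam - 1) * (X : ℝ) ^ ((3 - lam) * σ) * E ^ 3 := by
    have hE0 : 0 ≤ E := le_trans (Finset.sum_nonneg fun n _ => wt_nonneg zero_le_one _ _) hE
    have h8 : 8 * A * C * W ^ (σ - 1) = 64 * B * C ^ (lam - 1) * W ^ σ := by
      have e1 : W ^ (σ - 1) = W ^ σ / W := by rw [Real.rpow_sub hW0, Real.rpow_one]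
      have e2 : 8 * A * C = 64 * B * C ^ (lam - 1) * W := by
        rw [hW]
        have e3 : C ^ (lam - 1) * C ^ (2 - lam) = C := by
          rw [← Real.rpow_add hC0]
          norm_num
        calc 8 * A * C = 8 * A * (C ^ (lam - 1) * C ^ (2 - lam)) := by rw [e3]
          _ = _ := by
              field_simp
              ring
      rw [e1, e2]
      field_simp
    have h9 : C ^ (lam - 1) ≤ (X : ℝ) ^ (lam - 1) :=
      Real.rpow_le_rpow hC0.le hCX (by linarith)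
    have h10 : W ^ σ ≤ (X : ℝ) ^ ((3 - lam) * σ) := by
      rw [Real.rpow_mul hX0.le]
      apply Real.rpow_le_rpow hW0.le _ hσ0.le
      calc W ≤ C * C ^ (2 - lam) := by
            rw [hW, div_le_iff₀ (by positivity)]
            have g1 : 0 < C ^ (2 - lam) := by positivity
            have g2 : A ≤ C * (8 * B) := by nlinarith
            calc A * C ^ (2 - lam) ≤ (C * (8 * B)) * C ^ (2 - lam) :=
                  mul_le_mul_of_nonneg_right g2 g1.le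
              _ = _ := by ring
        _ = C ^ (3 - lam) := by
            rw [show (3 - lam : ℝ) = 1 + (2 - lam) by ring, Real.rpow_add hC0, Real.rpow_one]
        _ ≤ _ := Real.rpow_le_rpow hC0.le hCX (by linarith)
    calc 8 * A * C * ∑ w ∈ Tw X W,
        1 / (((w.1 * rad w.1) * (w.2.1 * rad w.2.1) * (w.2.2 * rad w.2.2) : ℕ) : ℝ) ≤
        8 * A * C * (W ^ (σ - 1) * E ^ 3) := mul_le_mul_of_nonneg_left h5 (by positivity)
      _ = 8 * A * C * W ^ (σ - 1) * E ^ 3 := by ring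
      _ = 64 * B * C ^ (lam - 1) * W ^ σ * E ^ 3 := by rw [h8]
      _ ≤ _ := by gcongr
  have h11 : ∑ _w ∈ Tw X W, (1 : ℝ) = ((Tw X W).card : ℝ) := by simp
  rw [h11]
  linarith

/-- the abc triples with `c ≤ X` and `rad (abc) ≤ c ^ lam` -/
def SmB (B lam : ℝ) (X : ℕ) : Set (ℕ × ℕ) :=
  {t | 0 < t.1 ∧ 0 < t.2 ∧ Nat.Coprime t.1 t.2 ∧ t.1 + t.2 ≤ X ∧
    (rad (t.1 * t.2 * (t.1 + t.2)) : ℝ) ≤ B * ((t.1 + t.2 : ℕ) : ℝ) ^ lam}

theorem SmB_finite (B lam : ℝ) (X : ℕ) : (SmB B lam X).Finite := by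
  refine Set.Finite.subset (Finset.finite_toSet ((range (X + 1)) ×ˢ (range (X + 1)))) ?_
  rintro ⟨a, b⟩ ⟨h1, h2, h3, h4, h5⟩
  simp only at h1 h2 h4 h5
  simp only [coe_product, Set.mem_prod, coe_range, Set.mem_Iio]
  omega

/-- the part with `a ≤ b` and large radical -/
def SbB (B lam : ℝ) (X : ℕ) : Set (ℕ × ℕ) :=
  {t | 0 < t.1 ∧ t.1 ≤ t.2 ∧ Nat.Coprime t.1 t.2 ∧ t.1 + t.2 ≤ X ∧
    ((t.1 + t.2 : ℕ) : ℝ) ^ (2 : ℝ) < (rad (t.1 * t.2 * (t.1 + t.2)) : ℝ) ∧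
    (rad (t.1 * t.2 * (t.1 + t.2)) : ℝ) ≤ B * ((t.1 + t.2 : ℕ) : ℝ) ^ lam}

theorem SbB_sub (B lam : ℝ) (X : ℕ) : SbB B lam X ⊆ SmB B lam X := by
  rintro t ⟨h1, h2, h3, h4, h5, h6⟩
  exact ⟨h1, by omega, h3, h4, h6⟩

theorem SbB_le {B lam : ℝ} (hB1 : 1 ≤ B) (h2 : 2 < lam) (h3 : lam < 3) {δ K : ℝ}
    {X : ℕ} (hX : 1 ≤ X) (hK : ∀ W : ℝ, ((Tw X W).card : ℝ) ≤ K * (X : ℝ) ^ (1 + δ))
    {σ E : ℝ} (hσ0 : 0 < σ) (hσ1 : σ < 1) (hE : ∑ m ∈ Icc 1 X, wt 1 σ m ≤ E) :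
    ((SbB B lam X).ncard : ℝ) ≤ ((Nat.log 2 X + 1 : ℕ) : ℝ) ^ 2 * (K * (X : ℝ) ^ (1 + δ) +
      64 * B * (X : ℝ) ^ (lam - 1) * (X : ℝ) ^ ((3 - lam) * σ) * E ^ 3) := by
  classical
  have hfin : (SbB B lam X).Finite := (SmB_finite B lam X).subset (SbB_sub B lam X)
  rw [Set.ncard_eq_toFinset_card _ hfin]
  set S := hfin.toFinset with hS
  have hmem : ∀ t, t ∈ S ↔ t ∈ SbB B lam X := fun t => by rw [hS, Set.Finite.mem_toFinset]
  set I := range (Nat.log 2 X + 1) ×ˢ range (Nat.log 2 X + 1) with hI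
  have hmaps : ∀ t ∈ S, (Nat.log 2 t.1, Nat.log 2 (t.1 + t.2)) ∈ I := by
    intro t ht
    rw [hmem] at ht
    obtain ⟨a0, a1, a2, a3, a4, a5⟩ := ht
    rw [hI, mem_product, mem_range, mem_range]
    have g1 : Nat.log 2 t.1 ≤ Nat.log 2 X := Nat.log_mono_right (by omega)
    have g2 : Nat.log 2 (t.1 + t.2) ≤ Nat.log 2 X := Nat.log_mono_right a3
    exact ⟨Nat.lt_succ_of_le g1, Nat.lt_succ_of_le g2⟩
  have hcard := Finset.card_eq_sum_card_fiberwise (s := S) (t := I)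
    (f := fun t : ℕ × ℕ => (Nat.log 2 t.1, Nat.log 2 (t.1 + t.2)))
    (fun t ht => hmaps t (mem_coe.1 ht))
  rw [hcard]
  push_cast
  set Bd : ℝ := K * (X : ℝ) ^ (1 + δ) +
      64 * B * (X : ℝ) ^ (lam - 1) * (X : ℝ) ^ ((3 - lam) * σ) * E ^ 3 with hBd
  have hE0 : 0 ≤ E := le_trans (Finset.sum_nonneg fun n _ => wt_nonneg zero_le_one _ _) hE
  have hX0 : (0 : ℝ) < X := by exact_mod_cast hX
  have hBd0 : 0 ≤ Bd := by
    have h4 : 0 ≤ K * (X : ℝ) ^ (1 + δ) := (Nat.cast_nonneg _).trans (hK 0)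
    rw [hBd]
    have : 0 ≤ B := by linarith
    positivity
  have hone : ∀ q ∈ I, (((S.filter fun t : ℕ × ℕ =>
      (Nat.log 2 t.1, Nat.log 2 (t.1 + t.2)) = q).card : ℕ) : ℝ) ≤ Bd := by
    intro q hq
    rcases (S.filter fun t : ℕ × ℕ => (Nat.log 2 t.1, Nat.log 2 (t.1 + t.2)) = q).eq_empty_or_nonempty
      with h | ⟨t0, ht0⟩
    · rw [h, card_empty, Nat.cast_zero]
      exact hBd0
    · rw [mem_filter, hmem] at ht0
      obtain ⟨⟨a0, a1, a2, a3, a4, a5⟩, hq0⟩ := ht0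
      have e1 : Nat.log 2 t0.1 = q.1 := by rw [← hq0]
      have e2 : Nat.log 2 (t0.1 + t0.2) = q.2 := by rw [← hq0]
      refine boxB (A := 2 ^ q.1) (C := 2 ^ q.2) (δ := δ) hB1 h2 h3 hσ0 hσ1 hE (by positivity)
        (one_le_pow₀ (by norm_num)) ?_ ?_ hK _ ?_
      · have := Nat.pow_log_le_self 2 (show t0.1 + t0.2 ≠ 0 by omega)
        rw [e2] at this
        exact_mod_cast this.trans a3
      · have h4 := Nat.pow_log_le_self 2 (show t0.1 ≠ 0 by omega)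
        have h5 := Nat.lt_pow_succ_log_self (b := 2) (by norm_num) (t0.1 + t0.2)
        rw [e1] at h4
        rw [e2, pow_succ] at h5
        have h6 : 2 ^ q.1 ≤ 2 * 2 ^ q.2 := by omega
        exact_mod_cast h6
      · intro t ht
        rw [mem_filter, hmem] at ht
        obtain ⟨⟨b0, b1, b2, b3, b4, b5⟩, hq1⟩ := ht
        have e3 : Nat.log 2 t.1 = q.1 := by rw [← hq1]
        have e4 : Nat.log 2 (t.1 + t.2) = q.2 := by rw [← hq1]
        have h4 := Nat.pow_log_le_self 2 (show t.1 ≠ 0 by omega)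
        have h5 := Nat.lt_pow_succ_log_self (b := 2) (by norm_num) t.1
        have h6 := Nat.pow_log_le_self 2 (show t.1 + t.2 ≠ 0 by omega)
        have h7 := Nat.lt_pow_succ_log_self (b := 2) (by norm_num) (t.1 + t.2)
        rw [e3] at h4 h5
        rw [e4] at h6 h7
        rw [pow_succ, mul_comm] at h5 h7
        refine ⟨b0, b1, b2, b3, by exact_mod_cast h4, by exact_mod_cast h5, by exact_mod_cast h6,
          by exact_mod_cast h7, b4, b5⟩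
  refine (Finset.sum_le_sum hone).trans ?_
  rw [Finset.sum_const, hI, card_product, card_range, nsmul_eq_mul, sq]
  push_cast
  exact le_rfl

theorem upB (B lam : ℝ) (hB1 : 1 ≤ B) (h2 : 2 < lam) (h3 : lam < 3) (δ : ℝ) (hδ : 0 < δ) : ∃ K : ℝ, 0 < K ∧
    ∀ X : ℕ, 1 ≤ X → ∀ σ E : ℝ, 0 < σ → σ < 1 → (∑ m ∈ Icc 1 X, wt 1 σ m ≤ E) →
      ((SmB B lam X).ncard : ℝ) ≤ K * ((Nat.log 2 X + 1 : ℕ) : ℝ) ^ 2 * ((X : ℝ) ^ (1 + δ) +
        (X : ℝ) ^ (lam - 1) * (X : ℝ) ^ ((3 - lam) * σ) * E ^ 3) := by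
  obtain ⟨K, hK0, hK⟩ := card_Tw δ hδ
  obtain ⟨C, hC⟩ := Pool.Agent.W221.ABC7.count_FxB 1 2 δ (by norm_num) hδ
  have hF2 : Pool.Agent.W221.ABC7.Fx 2 = 1 := by
    unfold Pool.Agent.W221.ABC7.Fx
    norm_num
  have hB0 : 0 < B := by linarith
  refine ⟨2 * K + 128 * B + |C|, by positivity, fun X hX σ E hσ0 hσ1 hE => ?_⟩
  have hX0 : (0 : ℝ) < X := by exact_mod_cast hX
  have hE0 : 0 ≤ E := le_trans (Finset.sum_nonneg fun n _ => wt_nonneg zero_le_one _ _) hE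
  have h4 := SbB_le hB1 h2 h3 (δ := δ) hX (hK X) hσ0 hσ1 hE
  set Lg : ℝ := ((Nat.log 2 X + 1 : ℕ) : ℝ) ^ 2 with hLg
  have hLg1 : 1 ≤ Lg := by
    rw [hLg]
    apply one_le_pow₀
    exact_mod_cast Nat.le_add_left 1 _
  -- the small radicals
  have hsmall : (({t | t ∈ SmB B lam X ∧ (rad (t.1 * t.2 * (t.1 + t.2)) : ℝ) ≤
      ((t.1 + t.2 : ℕ) : ℝ) ^ (2 : ℝ)}.ncard : ℕ) : ℝ) ≤ |C| * (X : ℝ) ^ (1 + δ) := by
    have h5 := hC X hX
    rw [hF2] at h5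
    have h6 : {t | t ∈ SmB B lam X ∧ (rad (t.1 * t.2 * (t.1 + t.2)) : ℝ) ≤
        ((t.1 + t.2 : ℕ) : ℝ) ^ (2 : ℝ)}.ncard ≤ (Pool.Agent.W221.ABC7.ExcB 1 2 X).ncard := by
      refine Set.ncard_le_ncard_of_injOn (fun t : ℕ × ℕ => (t.1, t.2, t.1 + t.2)) ?_ ?_
        (Pool.Agent.W221.ABC7.excB_finite _ _ _)
      · rintro t ⟨⟨b1, b2, b3, b4, b5⟩, b6⟩
        refine ⟨b1, b2, b3, rfl, b4, ?_⟩
        rw [one_mul]
        exact b6
      · intro t _ u _ h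
        simp only [Prod.mk.injEq] at h
        exact Prod.ext h.1 h.2.1
    calc _ ≤ ((Pool.Agent.W221.ABC7.ExcB 1 2 X).ncard : ℝ) := by exact_mod_cast h6
      _ ≤ _ := h5
      _ ≤ |C| * (X : ℝ) ^ (1 + δ) := mul_le_mul_of_nonneg_right (le_abs_self C) (by positivity)
  -- the swap
  have hsw : ((fun t : ℕ × ℕ => (t.2, t.1)) '' SbB B lam X).ncard ≤ (SbB B lam X).ncard :=
    Set.ncard_image_le ((SmB_finite B lam X).subset (SbB_sub B lam X))
  have hfin : (SbB B lam X).Finite := (SmB_finite B lam X).subset (SbB_sub B lam X)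
  have hcov : SmB B lam X ⊆ (SbB B lam X ∪ (fun t : ℕ × ℕ => (t.2, t.1)) '' SbB B lam X) ∪
      {t | t ∈ SmB B lam X ∧ (rad (t.1 * t.2 * (t.1 + t.2)) : ℝ) ≤
        ((t.1 + t.2 : ℕ) : ℝ) ^ (2 : ℝ)} := by
    intro t ht
    rcases le_or_gt (rad (t.1 * t.2 * (t.1 + t.2)) : ℝ) (((t.1 + t.2 : ℕ) : ℝ) ^ (2 : ℝ))
      with h | h
    · exact Or.inr ⟨ht, h⟩
    · left
      obtain ⟨b1, b2, b3, b4, b5⟩ := ht
      rcases le_total t.1 t.2 with h' | h'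
      · exact Or.inl ⟨b1, h', b3, b4, h, b5⟩
      · right
        refine ⟨(t.2, t.1), ⟨b2, h', b3.symm, ?_, ?_, ?_⟩, rfl⟩
        · simp only
          omega
        · simp only
          rw [mul_comm t.2 t.1, add_comm t.2 t.1]
          exact h
        · simp only
          rw [mul_comm t.2 t.1, add_comm t.2 t.1]
          exact b5
  have h7 : (SmB B lam X).ncard ≤ (SbB B lam X).ncard + (SbB B lam X).ncard +
      {t | t ∈ SmB B lam X ∧ (rad (t.1 * t.2 * (t.1 + t.2)) : ℝ) ≤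
        ((t.1 + t.2 : ℕ) : ℝ) ^ (2 : ℝ)}.ncard := by
    refine (Set.ncard_le_ncard hcov ((hfin.union (hfin.image _)).union
      ((SmB_finite B lam X).subset fun t ht => ht.1))).trans ?_
    refine (Set.ncard_union_le _ _).trans ?_
    refine Nat.add_le_add_right ?_ _
    refine (Set.ncard_union_le _ _).trans ?_
    exact Nat.add_le_add_left hsw _
  have h8 : ((SmB B lam X).ncard : ℝ) ≤ ((SbB B lam X).ncard : ℝ) + ((SbB B lam X).ncard : ℝ) +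
      (({t | t ∈ SmB B lam X ∧ (rad (t.1 * t.2 * (t.1 + t.2)) : ℝ) ≤
        ((t.1 + t.2 : ℕ) : ℝ) ^ (2 : ℝ)}.ncard : ℕ) : ℝ) := by exact_mod_cast h7
  set P : ℝ := (X : ℝ) ^ (1 + δ) with hP
  set Q : ℝ := (X : ℝ) ^ (lam - 1) * (X : ℝ) ^ ((3 - lam) * σ) * E ^ 3 with hQ
  have hP0 : 0 ≤ P := by positivity
  have hQ0 : 0 ≤ Q := by positivity
  have e4 : 64 * B * (X : ℝ) ^ (lam - 1) * (X : ℝ) ^ ((3 - lam) * σ) * E ^ 3 = 64 * B * Q := by
    rw [hQ]; ring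
  rw [e4] at h4
  have h9 : |C| * P ≤ |C| * (Lg * P) := by
    apply mul_le_mul_of_nonneg_left _ (abs_nonneg C)
    nlinarith
  have h10 : 0 ≤ |C| * (Lg * Q) := by positivity
  have h11 : 0 ≤ K * (Lg * Q) := by positivity
  have h12 : 0 ≤ B * (Lg * P) := by positivity
  have e5 : (2 * K + 128 * B + |C|) * Lg * (P + Q) = 2 * (Lg * (K * P + 64 * B * Q)) +
      |C| * (Lg * P) + |C| * (Lg * Q) + 2 * (K * (Lg * Q)) + 128 * (B * (Lg * P)) := by ring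
  rw [e5]
  linarith

/-- the upper bound -/
theorem upperB {B lam : ℝ} (hB1 : 1 ≤ B) (h2 : 2 < lam) (h3 : lam < 3) (ε : ℝ) (hε : 0 < ε) :
    ∃ K : ℝ, 0 < K ∧ ∀ᶠ X : ℕ in atTop, ((SmB B lam X).ncard : ℝ) ≤
      K * (Real.log X + 1) ^ 2 * ((X : ℝ) ^ (lam - 1) *
        Real.exp ((3 - lam) * Real.log X / √((3 - lam) / 6 * (Real.log X * Real.log (Real.log X))) +
          3 * (1 + ε) * (√((3 - lam) / 6 * (Real.log X * Real.log (Real.log X))) /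
            Real.log (√((3 - lam) / 6 * (Real.log X * Real.log (Real.log X))))))) := by
  obtain ⟨K, hK0, hK⟩ := upB B lam hB1 h2 h3 (lam - 2) (by linarith)
  refine ⟨18 * K, by positivity, ?_⟩
  set κ : ℝ := (3 - lam) / 6 with hκ
  have hκ0 : 0 < κ := by rw [hκ]; linarith
  have hut : Tendsto (fun x : ℝ => √(κ * (x * Real.log x))) atTop atTop := by
    apply Real.tendsto_sqrt_atTop.comp
    apply Tendsto.const_mul_atTop hκ0
    exact tendsto_id.atTop_mul_atTop₀ Real.tendsto_log_atTop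
  have hlu := Real.tendsto_log_atTop.comp hut
  filter_upwards [(hlu.comp log_tend).eventually (L1 ε hε), log_tend.eventually_ge_atTop 1,
    (hut.comp log_tend).eventually_gt_atTop 1, eventually_ge_atTop 1] with X h4 h5 h6 h7
  simp only [Function.comp_apply] at h4 h6
  set u : ℝ := √(κ * (Real.log X * Real.log (Real.log X))) with hu
  have hu0 : 0 < u := by linarith
  have hX0 : (0 : ℝ) < X := by exact_mod_cast h7
  have hX1 : (1 : ℝ) ≤ X := by exact_mod_cast h7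
  have hexp : Real.exp (Real.log u) = u := Real.exp_log hu0
  have hσ : Real.exp (-Real.log u) = 1 / u := by rw [Real.exp_neg, hexp, one_div]
  have h8 := hK X h7 (1 / u) (Real.exp ((1 + ε) * (u / Real.log u))) (by positivity)
    (by rw [div_lt_one hu0]; exact h6) (by
      have := h4 X
      rw [hσ, hexp] at this
      exact this)
  refine h8.trans ?_
  have hXl : (X : ℝ) = Real.exp (Real.log X) := (Real.exp_log hX0).symm
  have e1 : (X : ℝ) ^ ((3 - lam) * (1 / u)) = Real.exp ((3 - lam) * Real.log X / u) := by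
    rw [Real.rpow_def_of_pos hX0]
    congr 1
    ring
  have e2 : Real.exp ((1 + ε) * (u / Real.log u)) ^ 3 =
      Real.exp (3 * (1 + ε) * (u / Real.log u)) := by
    rw [← Real.exp_nat_mul]
    congr 1
    push_cast
    ring
  rw [e1, e2]
  set Bx : ℝ := Real.exp ((3 - lam) * Real.log X / u + 3 * (1 + ε) * (u / Real.log u)) with hBx
  have e3 : (X : ℝ) ^ (lam - 1) * Real.exp ((3 - lam) * Real.log X / u) *
      Real.exp (3 * (1 + ε) * (u / Real.log u)) = (X : ℝ) ^ (lam - 1) * Bx := by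
    rw [hBx, Real.exp_add]
    ring
  rw [e3]
  have hlogu : 0 < Real.log u := Real.log_pos h6
  have hBx1 : 1 ≤ Bx := by
    rw [hBx]
    apply Real.one_le_exp
    have : 0 ≤ (3 - lam) * Real.log X / u := by
      apply div_nonneg _ hu0.le
      exact mul_nonneg (by linarith) (by linarith)
    have : 0 ≤ 3 * (1 + ε) * (u / Real.log u) := by positivity
    linarith
  have hp : 0 < (X : ℝ) ^ (lam - 1) := by positivity
  have e4 : (X : ℝ) ^ (1 + (lam - 2)) = (X : ℝ) ^ (lam - 1) := by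
    congr 1
    ring
  rw [e4]
  have h9 : (X : ℝ) ^ (lam - 1) + (X : ℝ) ^ (lam - 1) * Bx ≤ 2 * ((X : ℝ) ^ (lam - 1) * Bx) := by
    nlinarith
  have h10 : ((Nat.log 2 X + 1 : ℕ) : ℝ) ≤ 3 * (Real.log X + 1) := by
    have g1 : (Nat.log 2 X : ℝ) ≤ Real.log X / Real.log 2 := by
      rw [le_div_iff₀ (Real.log_pos (by norm_num)), ← Real.log_pow]
      apply Real.log_le_log (by positivity)
      have := Nat.pow_log_le_self 2 (show X ≠ 0 by omega)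
      exact_mod_cast this
    have g2 : Real.log X / Real.log 2 ≤ 3 * Real.log X := by
      rw [div_le_iff₀ (Real.log_pos (by norm_num))]
      have := Real.log_two_gt_d9
      nlinarith
    push_cast
    linarith
  have h11 : ((Nat.log 2 X + 1 : ℕ) : ℝ) ^ 2 ≤ 9 * (Real.log X + 1) ^ 2 := by
    calc ((Nat.log 2 X + 1 : ℕ) : ℝ) ^ 2 ≤ (3 * (Real.log X + 1)) ^ 2 :=
          pow_le_pow_left₀ (Nat.cast_nonneg _) h10 2
      _ = _ := by ring
  calc K * ((Nat.log 2 X + 1 : ℕ) : ℝ) ^ 2 * ((X : ℝ) ^ (lam - 1) + (X : ℝ) ^ (lam - 1) * Bx) ≤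
      K * (9 * (Real.log X + 1) ^ 2) * (2 * ((X : ℝ) ^ (lam - 1) * Bx)) := by
        gcongr
    _ = 18 * K * (Real.log X + 1) ^ 2 * ((X : ℝ) ^ (lam - 1) * Bx) := by ring

end Pool.Agent.X4.RST
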