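import Mathlib
import Pool.Agent.X4.RST.Sz

/-!
# Semistable curves with full 2-torsion and large Szpiro ratio
-/

set_option autoImplicit false

namespace Pool.Agent.X4.RST

open Finset Filter Topology Pool.Agent.H925R.Szpiro Pool.Agent.X4

/-- the invariants of the curve of a pair -/
def cc (t : ℕ × ℕ) : ℤ × ℤ :=
  ((frey (((t.1 - 1) / 4 : ℕ) : ℤ) (((t.1 + t.2) / 32 : ℕ) : ℤ)).c₄,
    (frey (((t.1 - 1) / 4 : ℕ) : ℤ) (((t.1 + t.2) / 32 : ℕ) : ℤ)).c₆)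

/-- the pairs with `a ≡ 1 mod 4` -/
def Tg1 (K lam : ℝ) (H : ℕ) : Set (ℕ × ℕ) := {t | t ∈ Tg K lam 5 H ∧ t.1 % 4 = 1}

theorem inv_pair {t : ℕ × ℕ} (h1 : t.1 % 4 = 1) (h2 : 32 ∣ t.1 + t.2) :
    (frey (((t.1 - 1) / 4 : ℕ) : ℤ) (((t.1 + t.2) / 32 : ℕ) : ℤ)).c₄ =
      (t.1 : ℤ) ^ 2 + t.1 * t.2 + (t.2 : ℤ) ^ 2 ∧
    256 * (frey (((t.1 - 1) / 4 : ℕ) : ℤ) (((t.1 + t.2) / 32 : ℕ) : ℤ)).Δ =
      ((t.1 : ℤ) * t.2 * (t.1 + t.2)) ^ 2 := by
  obtain ⟨s, hs⟩ := h2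
  obtain ⟨r, hr⟩ : ∃ r, t.1 = 4 * r + 1 := ⟨t.1 / 4, by omega⟩
  have e1 : (t.1 - 1) / 4 = r := by omega
  have e2 : (t.1 + t.2) / 32 = s := by omega
  have e3 : (t.1 : ℤ) = 4 * r + 1 := by exact_mod_cast hr
  have e4 : (t.2 : ℤ) = 32 * s - (4 * r + 1) := by
    have : (t.1 : ℤ) + t.2 = 32 * s := by exact_mod_cast hs
    linarith
  rw [e1, e2, frey_c4, frey_D, e3, e4]
  constructor
  · ring
  · ring

theorem cc_inj {t u : ℕ × ℕ} (ht0 : 0 < t.1) (ht0' : 0 < t.2) (hu0 : 0 < u.1) (hu0' : 0 < u.2)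
    (ht1 : t.1 % 4 = 1) (ht2 : 32 ∣ t.1 + t.2) (hu1 : u.1 % 4 = 1) (hu2 : 32 ∣ u.1 + u.2)
    (h : cc t = cc u) : t = u := by
  obtain ⟨a1, a2⟩ := inv_pair ht1 ht2
  obtain ⟨b1, b2⟩ := inv_pair hu1 hu2
  unfold cc at h
  simp only [Prod.mk.injEq] at h
  set W := frey (((t.1 - 1) / 4 : ℕ) : ℤ) (((t.1 + t.2) / 32 : ℕ) : ℤ) with hW
  set V := frey (((u.1 - 1) / 4 : ℕ) : ℤ) (((u.1 + u.2) / 32 : ℕ) : ℤ) with hV
  have hD : W.Δ = V.Δ := by
    have r1 := W.c_relation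
    have r2 := V.c_relation
    rw [h.1, h.2] at r1
    have : (1728 : ℤ) * W.Δ = 1728 * V.Δ := by linarith
    exact mul_left_cancel₀ (by norm_num) this
  rw [h.1, b1] at a1
  rw [hD, b2] at a2
  have p1 : (0 : ℤ) < t.1 := by exact_mod_cast ht0
  have p2 : (0 : ℤ) < t.2 := by exact_mod_cast ht0'
  have p3 : (0 : ℤ) < u.1 := by exact_mod_cast hu0
  have p4 : (0 : ℤ) < u.2 := by exact_mod_cast hu0'
  have a3 : (u.1 : ℤ) * u.2 * (u.1 + u.2) = (t.1 : ℤ) * t.2 * (t.1 + t.2) :=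
    (pow_left_inj₀ (by positivity) (by positivity) two_ne_zero).1 a2
  -- the sums agree
  have a4 : (t.1 : ℤ) + t.2 = u.1 + u.2 := by
    set c : ℤ := (t.1 : ℤ) + t.2 with hc
    set c' : ℤ := (u.1 : ℤ) + u.2 with hc'
    have hcp : 0 < c := by positivity
    have hcp' : 0 < c' := by positivity
    have e1 : c ^ 2 - t.1 * t.2 = c' ^ 2 - u.1 * u.2 := by
      rw [hc, hc']
      linear_combination -a1
    have e2 : c' * (u.1 * u.2) = c * (t.1 * t.2) := by linear_combination a3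
    have e3 : (c - c') * (c' ^ 2 + c * c' + t.1 * t.2) = 0 := by
      linear_combination (c' : ℤ) * e1 - e2
    rcases mul_eq_zero.1 e3 with h0 | h0
    · linarith
    · have : 0 < c' ^ 2 + c * c' + t.1 * t.2 := by positivity
      linarith
  have a5 : (t.1 : ℤ) * t.2 = u.1 * u.2 := by
    have : ((t.1 : ℤ) + t.2) ^ 2 = (u.1 + u.2) ^ 2 := by rw [a4]
    linear_combination this + a1
  have a6 : ((t.1 : ℤ) - u.1) * (t.1 - u.2) = 0 := by
    linear_combination (t.1 : ℤ) * a4 - a5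
  rcases mul_eq_zero.1 a6 with h0 | h0
  · have e1 : t.1 = u.1 := by exact_mod_cast sub_eq_zero.1 h0
    have e2 : t.1 + t.2 = u.1 + u.2 := by exact_mod_cast a4
    exact Prod.ext e1 (by omega)
  · have e1 : t.1 = u.2 := by exact_mod_cast sub_eq_zero.1 h0
    omega

/-- the curves of the pairs are exceptional -/
theorem cc_mem {κ c₀ K : ℝ} (hκ : 0 < κ) (hc₀ : 0 < c₀) (hK : 16 * (64 * c₀) ^ (1 / κ) ≤ K)
    (hK0 : 0 < K) {H : ℕ} {t : ℕ × ℕ} (hH : 0 < H) (ht : t ∈ Tg1 K (6 / κ) H) :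
    cc t ∈ Exc κ c₀ (4 * H) := by
  obtain ⟨⟨h1, h2, h3, h4, h5⟩, h6⟩ := ht
  have g1 := mem_Ioc.1 h1
  have g2 := mem_Ioc.1 h2
  have h4' : 32 ∣ t.1 + t.2 := h4
  obtain ⟨a1, a2⟩ := inv_pair h6 h4'
  set W := frey (((t.1 - 1) / 4 : ℕ) : ℤ) (((t.1 + t.2) / 32 : ℕ) : ℤ) with hW
  have p1 : (0 : ℤ) < t.1 := by exact_mod_cast (by omega : 0 < t.1)
  have p2 : (0 : ℤ) < t.2 := by exact_mod_cast (by omega : 0 < t.2)
  have hΔ0 : 0 < W.Δ := by
    have : 0 < ((t.1 : ℤ) * t.2 * (t.1 + t.2)) ^ 2 := by positivity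
    omega
  have hcopZ : IsCoprime (t.1 : ℤ) (t.2 : ℤ) := Nat.isCoprime_iff_coprime.2 h3
  refine ⟨W, hΔ0.ne', ?_, frey_full _ _, rfl, ?_, ?_, ?_⟩
  · -- coprimality
    have e1 : IsCoprime W.c₄ (t.1 : ℤ) := by
      rw [a1]
      have : (t.1 : ℤ) ^ 2 + t.1 * t.2 + (t.2 : ℤ) ^ 2 = (t.2 : ℤ) ^ 2 + t.1 * (t.1 + t.2) := by
        ring
      rw [this]
      exact (IsCoprime.add_mul_left_left (hcopZ.symm.pow_left) _)
    have e2 : IsCoprime W.c₄ (t.2 : ℤ) := by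
      rw [a1]
      have : (t.1 : ℤ) ^ 2 + t.1 * t.2 + (t.2 : ℤ) ^ 2 = (t.1 : ℤ) ^ 2 + t.2 * (t.1 + t.2) := by
        ring
      rw [this]
      exact (IsCoprime.add_mul_left_left (hcopZ.pow_left) _)
    have e3 : IsCoprime W.c₄ ((t.1 : ℤ) + t.2) := by
      rw [a1]
      have : (t.1 : ℤ) ^ 2 + t.1 * t.2 + (t.2 : ℤ) ^ 2 =
          (t.1 : ℤ) ^ 2 + ((t.1 : ℤ) + t.2) * t.2 := by
        ring
      rw [this]
      refine (IsCoprime.add_mul_left_left (IsCoprime.pow_left ?_) _)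
      have : (t.1 : ℤ) + t.2 = t.2 + t.1 * 1 := by ring
      rw [this]
      exact (IsCoprime.add_mul_left_right hcopZ _)
    have e4 : IsCoprime W.c₄ (256 * W.Δ) := by
      rw [a2]
      exact IsCoprime.pow_right ((e1.mul_right e2).mul_right e3)
    exact IsCoprime.of_mul_right_right e4
  · rw [abs_of_nonneg (by rw [a1]; positivity)]
    have e1 : W.c₄ ≤ (4 * (H : ℤ)) ^ 2 := by
      rw [a1]
      have q1 : (t.1 : ℤ) ≤ 2 * H := by exact_mod_cast g1.2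
      have q2 : (t.2 : ℤ) ≤ 2 * H := by exact_mod_cast g2.2
      nlinarith
    have e0 : 0 ≤ W.c₄ := by rw [a1]; positivity
    calc W.c₄ ^ 3 ≤ ((4 * (H : ℤ)) ^ 2) ^ 3 := pow_le_pow_left₀ e0 e1 3
      _ = ((4 * H : ℕ) : ℤ) ^ 6 := by push_cast; ring
  · have e1 : W.c₄ ≤ (4 * (H : ℤ)) ^ 2 := by
      rw [a1]
      have q1 : (t.1 : ℤ) ≤ 2 * H := by exact_mod_cast g1.2
      have q2 : (t.2 : ℤ) ≤ 2 * H := by exact_mod_cast g2.2
      nlinarith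
    have e0 : 0 ≤ W.c₄ := by rw [a1]; positivity
    have r := W.c_relation
    calc W.c₆ ^ 2 ≤ W.c₄ ^ 3 := by linarith
      _ ≤ ((4 * (H : ℤ)) ^ 2) ^ 3 := pow_le_pow_left₀ e0 e1 3
      _ = ((4 * H : ℕ) : ℤ) ^ 6 := by push_cast; ring
  · -- the size
    set n := t.1 * t.2 * (t.1 + t.2) with hn
    have hH0 : (0 : ℝ) < H := by exact_mod_cast hH
    have hn0 : 0 < n := by
      have q1 : 0 < t.1 := by omega
      have q2 : 0 < t.2 := by omega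
      positivity
    have hcond : (cond W : ℝ) ≤ (HC.rad n : ℝ) := by
      have : cond W ≤ HC.rad n := by
        unfold Pool.Agent.H925R.Szpiro.cond HC.rad
        apply Finset.prod_le_prod_of_subset_of_one_le'
        · intro p hp
          rw [Nat.mem_primeFactors] at hp ⊢
          refine ⟨hp.1, ?_, hn0.ne'⟩
          have q1 : (p : ℤ) ∣ W.Δ := Int.natCast_dvd.2 hp.2.1
          have q2 : (p : ℤ) ∣ ((n : ℕ) : ℤ) ^ 2 := by
            have : ((n : ℕ) : ℤ) ^ 2 = 256 * W.Δ := by rw [a2, hn]; push_cast; ring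
            rw [this]
            exact q1.mul_left _
          have q3 : (p : ℤ) ∣ (n : ℤ) := (Nat.prime_iff_prime_int.1 hp.1).dvd_of_dvd_pow q2
          exact_mod_cast q3
        · intro p hp _
          exact (Nat.prime_of_mem_primeFactors hp).one_lt.le
      exact_mod_cast this
    have e1 : (HC.rad n : ℝ) ≤ 16 / K * (H : ℝ) ^ (6 / κ) := by
      have hp : (0 : ℝ) < (H : ℝ) ^ (3 - 6 / κ) := by positivity
      have q1 : (H : ℝ) ^ (3 - 6 / κ) * (H : ℝ) ^ (6 / κ) = (H : ℝ) ^ 3 := by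
        rw [← Real.rpow_add hH0, ← Real.rpow_natCast]
        congr 1
        push_cast
        ring
      rw [← q1] at h5
      have q2 : (HC.rad n : ℝ) * (K * (H : ℝ) ^ (3 - 6 / κ)) ≤
          (16 / K * (H : ℝ) ^ (6 / κ)) * (K * (H : ℝ) ^ (3 - 6 / κ)) := by
        refine h5.trans (le_of_eq ?_)
        field_simp
      exact le_of_mul_le_mul_right q2 (by positivity)
    have e2 : (cond W : ℝ) ^ κ ≤ (16 / K) ^ κ * (H : ℝ) ^ 6 := by
      calc (cond W : ℝ) ^ κ ≤ (16 / K * (H : ℝ) ^ (6 / κ)) ^ κ :=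
            Real.rpow_le_rpow (Nat.cast_nonneg _) (hcond.trans e1) hκ.le
        _ = (16 / K) ^ κ * (H : ℝ) ^ 6 := by
            rw [Real.mul_rpow (by positivity) (by positivity), ← Real.rpow_mul hH0.le,
              div_mul_cancel₀ _ hκ.ne']
            norm_cast
    have e3 : c₀ * (16 / K) ^ κ ≤ 1 / 64 := by
      have q1 : 16 / K ≤ ((64 * c₀) ^ (1 / κ))⁻¹ := by
        have q2 : 0 < (64 * c₀) ^ (1 / κ) := by positivity
        rw [div_le_iff₀ hK0, ← div_eq_inv_mul, le_div_iff₀ q2]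
        exact hK
      calc c₀ * (16 / K) ^ κ ≤ c₀ * (((64 * c₀) ^ (1 / κ))⁻¹) ^ κ := by
            apply mul_le_mul_of_nonneg_left _ hc₀.le
            exact Real.rpow_le_rpow (by positivity) q1 hκ.le
        _ = 1 / 64 := by
            rw [Real.inv_rpow (by positivity), ← Real.rpow_mul (by positivity),
              one_div_mul_cancel hκ.ne', Real.rpow_one]
            field_simp
    have e4 : (H : ℝ) ^ 6 < 64 * (W.Δ : ℝ) := by
      have q1 : 256 * (W.Δ : ℝ) = ((t.1 : ℝ) * t.2 * (t.1 + t.2)) ^ 2 := by exact_mod_cast a2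
      have q2 : (H : ℝ) < t.1 := by exact_mod_cast g1.1
      have q3 : (H : ℝ) < t.2 := by exact_mod_cast g2.1
      have q4 : (H : ℝ) * H * (H + H) < (t.1 : ℝ) * t.2 * (t.1 + t.2) := by
        have q5 : (H : ℝ) * H < t.1 * t.2 := by nlinarith
        have q6 : (H : ℝ) + H < t.1 + t.2 := by linarith
        have q7 : (0 : ℝ) ≤ (H : ℝ) * H := by positivity
        nlinarith
      have q8 : ((H : ℝ) * H * (H + H)) ^ 2 < ((t.1 : ℝ) * t.2 * (t.1 + t.2)) ^ 2 :=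
        pow_lt_pow_left₀ q4 (by positivity) two_ne_zero
      have q9 : ((H : ℝ) * H * (H + H)) ^ 2 = 4 * (H : ℝ) ^ 6 := by ring
      linarith
    have hΔR : (0 : ℝ) < (W.Δ : ℝ) := by exact_mod_cast hΔ0
    rw [abs_of_pos hΔR]
    calc c₀ * (cond W : ℝ) ^ κ ≤ c₀ * ((16 / K) ^ κ * (H : ℝ) ^ 6) :=
          mul_le_mul_of_nonneg_left e2 hc₀.le
      _ = (c₀ * (16 / K) ^ κ) * (H : ℝ) ^ 6 := by ring
      _ ≤ 1 / 64 * (H : ℝ) ^ 6 := mul_le_mul_of_nonneg_right e3 (by positivity)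
      _ < (W.Δ : ℝ) := by linarith

theorem Tg1_finite (K lam : ℝ) (H : ℕ) : (Tg1 K lam H).Finite :=
  (Tg_finite K lam 5 H).subset fun _ h => h.1

theorem Tg_le_Tg1 (K lam : ℝ) (H : ℕ) : (Tg K lam 5 H).ncard ≤ 2 * (Tg1 K lam H).ncard := by
  have hcov : Tg K lam 5 H ⊆ Tg1 K lam H ∪ (fun t : ℕ × ℕ => (t.2, t.1)) '' Tg1 K lam H := by
    intro t ht
    obtain ⟨h1, h2, h3, h4, h5⟩ := ht
    have h4' : 32 ∣ t.1 + t.2 := h4
    have hodd : ¬ (2 ∣ t.1 ∧ 2 ∣ t.2) := fun h =>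
      Nat.Prime.not_coprime_iff_dvd.2 ⟨2, Nat.prime_two, h.1, h.2⟩ h3
    by_cases h6 : t.1 % 4 = 1
    · exact Or.inl ⟨⟨h1, h2, h3, h4, h5⟩, h6⟩
    · right
      refine ⟨(t.2, t.1), ⟨⟨h2, h1, h3.symm, ?_, ?_⟩, ?_⟩, rfl⟩
      · rw [add_comm]; exact h4
      · simp only
        rw [mul_comm t.2 t.1, add_comm t.2 t.1]
        exact h5
      · simp only
        omega
  have hf := Tg1_finite K lam H
  refine (Set.ncard_le_ncard hcov (hf.union (hf.image _))).trans ?_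
  refine (Set.ncard_union_le _ _).trans ?_
  have := Set.ncard_image_le (f := fun t : ℕ × ℕ => (t.2, t.1)) hf
  omega

theorem Exc_mono {κ c₀ : ℝ} (hκ : 0 < κ) (hc₀ : 0 < c₀) {X Y : ℕ} (h : X ≤ Y) :
    (Exc κ c₀ X).ncard ≤ (Exc κ c₀ Y).ncard := by
  apply Set.ncard_le_ncard _ (exc_le κ c₀ hκ hc₀ Y).1
  rintro q ⟨W, h1, h2, h3, h4, h5, h6, h7⟩
  have e : (X : ℤ) ^ 6 ≤ (Y : ℤ) ^ 6 := pow_le_pow_left₀ (by positivity) (by exact_mod_cast h) 6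
  exact ⟨W, h1, h2, h3, h4, h5.trans e, h6.trans e, h7⟩

/-- the lower bound for the number of the curves -/
theorem exc_ge {κ c₀ K : ℝ} (hκ : 0 < κ) (hc₀ : 0 < c₀) (hK : 16 * (64 * c₀) ^ (1 / κ) ≤ K)
    (hK0 : 0 < K) {H : ℕ} (hH : 0 < H) :
    (Tg K (6 / κ) 5 H).ncard ≤ 2 * (Exc κ c₀ (4 * H)).ncard := by
  refine (Tg_le_Tg1 K (6 / κ) H).trans ?_
  apply Nat.mul_le_mul_left
  refine Set.ncard_le_ncard_of_injOn cc (fun t ht => cc_mem hκ hc₀ hK hK0 hH ht) ?_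
    (exc_le κ c₀ hκ hc₀ _).1
  intro t ht u hu h
  obtain ⟨⟨h1, h2, h3, h4, h5⟩, h6⟩ := ht
  obtain ⟨⟨k1, k2, k3, k4, k5⟩, k6⟩ := hu
  rw [mem_Ioc] at h1 h2 k1 k2
  exact cc_inj (by omega) (by omega) (by omega) (by omega) h6 h4 k6 k4 h

end Pool.Agent.X4.RST
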