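import Mathlib
import Pool.Agent.X4.RST.Sz2
import Pool.Agent.X4.RST.Law

/-!
# The second order law for semistable curves with full 2-torsion
-/

set_option autoImplicit false

namespace Pool.Agent.X4.RST

open Finset Filter Topology Pool.Agent.H925R.Szpiro Pool.Agent.X4

theorem frey_law {κ c₀ : ℝ} (h1 : 2 < κ) (h2 : κ < 3) (hc₀ : 0 < c₀) :
    Tendsto (fun X : ℕ => (Real.log ((Exc κ c₀ X).ncard : ℝ) - (6 / κ - 1) * Real.log X) /
      √(Real.log X / Real.log (Real.log X))) atTop (𝓝 (√(24 * (3 - 6 / κ)))) := by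
  have hκ : 0 < κ := by linarith
  have e1 : 2 < 6 / κ := by
    rw [lt_div_iff₀ hκ]
    linarith
  have e2 : 6 / κ < 3 := by
    rw [div_lt_iff₀ hκ]
    linarith
  refine law e1 e2 (fun X => (Exc κ c₀ X).ncard) (B := max 1 (2 * c₀⁻¹ ^ (1 / κ)))
    (le_max_left _ _) (q := 4) (q' := 2) (by norm_num) (by norm_num)
    (fun X => (exc_le κ c₀ hκ hc₀ X).2) (K := max 16 (16 * (64 * c₀) ^ (1 / κ)))
    (le_max_left _ _) ?_
  filter_upwards [eventually_ge_atTop 8] with X hX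
  have h3 := exc_ge (κ := κ) (c₀ := c₀) (K := max 16 (16 * (64 * c₀) ^ (1 / κ))) hκ hc₀
    (le_max_right _ _) (lt_of_lt_of_le (by norm_num) (le_max_left _ _)) (H := X / 4) (by omega)
  have h4 := Exc_mono (κ := κ) (c₀ := c₀) hκ hc₀ (show 4 * (X / 4) ≤ X by omega)
  omega

end Pool.Agent.X4.RST
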